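import Pool.Agent.H1.EY.Ya

/-!
ROW EY/Yb. The small ellipse is deep inside the first one. For `‖w - c₂‖ ≤ 4 r₂`: `|QQ₁ w - QQ₁ c₂| ≤ C₂ r₁ r₂` (`QQ = kap (‖vv‖² - 1)`, `kap ≤ r₁²`, `vv` Lipschitz with `1/(r₁ (1 - ‖μ₁‖))`, `‖vv c₂‖ < 1`). `K = 2 C₂`: so `-QQ₁ w ≥ |QQ₁ c₂|/2 > 0` on `closedBall c₂ (4 r₂)`, which is in the first ellipse.
The second ellipse is in `ball c₂ (2 r₂)`. Maximum principle: for `z` in the second ellipse `‖m z‖ ≤ ‖m w‖` for some `w` with `‖w - c₂‖ = 3 r₂`; `mvb` on `ball w (r₂/2)`, which is in the first ellipse and outside the second one, where `|QQ₂ - QQ₁| ≥ -QQ₁ ≥ |QQ₁ c₂|/2` (`QQ₂ ≥ 0`).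
-/

set_option autoImplicit false

namespace EY1

open Complex Set Filter Topology MeasureTheory EW1 EX1
open scoped ComplexConjugate ContDiff Real

private theorem Yb_vv {c : ℂ} {r : ℝ} (hr : 0 < r) {μ : ℂ} {μ₀ : ℝ} (hμ : ‖μ‖ ≤ μ₀) (h1 : μ₀ < 1) (z w : ℂ) :
    ‖vv c r μ z - vv c r μ w‖ ≤ ‖z - w‖ / (r * (1 - μ₀)) := by
  have hn := norm_nonneg μ
  have hμ1 : ‖μ‖ < 1 := lt_of_le_of_lt hμ h1
  have hp : 0 < 1 - ‖μ‖ ^ 2 := by nlinarith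
  have e : vv c r μ z - vv c r μ w = ((z - w) - μ * conj (z - w)) / ((r * (1 - ‖μ‖ ^ 2) : ℝ) : ℂ) := by
    unfold vv
    rw [← sub_div]
    congr 1
    simp only [map_sub]
    ring
  rw [e, norm_div, Complex.norm_real, Real.norm_eq_abs, abs_of_pos (mul_pos hr hp)]
  have h2 : ‖(z - w) - μ * conj (z - w)‖ ≤ ‖z - w‖ * (1 + ‖μ‖) := by
    refine (norm_sub_le _ _).trans ?_
    rw [norm_mul, Complex.norm_conj]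
    nlinarith
  have h3 : ‖z - w‖ * (1 + ‖μ‖) / (r * (1 - ‖μ‖ ^ 2)) = ‖z - w‖ / (r * (1 - ‖μ‖)) := by
    have h4 : (1 - ‖μ‖ ^ 2) = (1 - ‖μ‖) * (1 + ‖μ‖) := by ring
    rw [h4]
    have h5 : (1 + ‖μ‖) ≠ 0 := by positivity
    have h6 : (1 - ‖μ‖) ≠ 0 := by linarith
    field_simp
  calc ‖(z - w) - μ * conj (z - w)‖ / (r * (1 - ‖μ‖ ^ 2)) ≤ ‖z - w‖ * (1 + ‖μ‖) / (r * (1 - ‖μ‖ ^ 2)) := by
        gcongr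
    _ = ‖z - w‖ / (r * (1 - ‖μ‖)) := h3
    _ ≤ ‖z - w‖ / (r * (1 - μ₀)) := by
        have : 0 < 1 - μ₀ := by linarith
        gcongr

private theorem Yb_kap {r : ℝ} (hr : 0 < r) {μ : ℂ} (hμ : ‖μ‖ < 1) : kap r μ ≤ r ^ 2 := by
  unfold kap
  have h0 := norm_nonneg μ
  have h1 : 0 < 1 + ‖μ‖ ^ 2 := by positivity
  rw [div_le_iff₀ h1]
  have h2 : (1 - ‖μ‖ ^ 2) ^ 2 ≤ 1 + ‖μ‖ ^ 2 := by
    have h3 : ‖μ‖ ^ 2 ≤ 1 := by nlinarith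
    have h4 : 0 ≤ ‖μ‖ ^ 2 := by positivity
    nlinarith
  exact mul_le_mul_of_nonneg_left h2 (by positivity)

private theorem Yb_lip {c₁ c₂ : ℂ} {r₁ r₂ : ℝ} (hr₂ : 0 < r₂) (hr : r₂ ≤ r₁) {μ : ℂ} {μ₀ : ℝ} (hμ : ‖μ‖ ≤ μ₀)
    (h1 : μ₀ < 1) (hc : ‖vv c₁ r₁ μ c₂‖ ≤ 1) {w : ℂ} (hw : ‖w - c₂‖ ≤ 4 * r₂) :
    |QQ c₁ r₁ μ w - QQ c₁ r₁ μ c₂| ≤ ((2 + 4 / (1 - μ₀)) * (4 / (1 - μ₀))) * r₁ * r₂ := by
  have hr₁ : 0 < r₁ := lt_of_lt_of_le hr₂ hr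
  have hμ1 : ‖μ‖ < 1 := lt_of_le_of_lt hμ h1
  have hd : 0 < 1 - μ₀ := by linarith
  have hv := Yb_vv (c := c₁) hr₁ hμ h1 w c₂
  have hv1 : ‖vv c₁ r₁ μ w - vv c₁ r₁ μ c₂‖ ≤ 4 / (1 - μ₀) * (r₂ / r₁) := by
    refine hv.trans ?_
    have : ‖w - c₂‖ / (r₁ * (1 - μ₀)) ≤ 4 * r₂ / (r₁ * (1 - μ₀)) := by gcongr
    refine this.trans (le_of_eq ?_)
    field_simp
  have hq : r₂ / r₁ ≤ 1 := by
    rw [div_le_one hr₁]; exact hr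
  have hq0 : 0 ≤ r₂ / r₁ := by positivity
  have hB : 0 < 4 / (1 - μ₀) := by positivity
  have hv2 : ‖vv c₁ r₁ μ w - vv c₁ r₁ μ c₂‖ ≤ 4 / (1 - μ₀) := by
    refine hv1.trans ?_
    exact mul_le_of_le_one_right hB.le hq
  set a := ‖vv c₁ r₁ μ w‖ with ha
  set b := ‖vv c₁ r₁ μ c₂‖ with hb
  have ha0 : 0 ≤ a := norm_nonneg _
  have hb0 : 0 ≤ b := norm_nonneg _
  have hab : |a - b| ≤ ‖vv c₁ r₁ μ w - vv c₁ r₁ μ c₂‖ := abs_norm_sub_norm_le _ _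
  have hab1 : |a - b| ≤ 4 / (1 - μ₀) * (r₂ / r₁) := hab.trans hv1
  have hab2 : a ≤ 1 + 4 / (1 - μ₀) := by
    have := (le_abs_self (a - b)).trans (hab.trans hv2)
    linarith
  have e : QQ c₁ r₁ μ w - QQ c₁ r₁ μ c₂ = kap r₁ μ * ((a + b) * (a - b)) := by
    unfold QQ
    rw [← ha, ← hb]
    ring
  have hk := kap_pos hr₁ hμ1
  have hk2 := Yb_kap hr₁ hμ1
  rw [e, abs_mul, abs_of_pos hk, abs_mul, abs_of_nonneg (add_nonneg ha0 hb0)]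
  have h3 : (a + b) * |a - b| ≤ (2 + 4 / (1 - μ₀)) * (4 / (1 - μ₀) * (r₂ / r₁)) := by
    apply mul_le_mul
    · linarith
    · exact hab1
    · exact abs_nonneg _
    · positivity
  calc kap r₁ μ * ((a + b) * |a - b|) ≤ r₁ ^ 2 * ((2 + 4 / (1 - μ₀)) * (4 / (1 - μ₀) * (r₂ / r₁))) := by
        apply mul_le_mul hk2 h3
        · exact mul_nonneg (add_nonneg ha0 hb0) (abs_nonneg _)
        · positivity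
    _ = ((2 + 4 / (1 - μ₀)) * (4 / (1 - μ₀))) * r₁ * r₂ := by
        field_simp

theorem L2a {μ₀ : ℝ} (h0 : 0 ≤ μ₀) (h1 : μ₀ < 1) : ∃ K C : ℝ, 0 < K ∧ 0 < C ∧
    ∀ (c₁ : ℂ) (r₁ : ℝ) (μ₁ c₂ : ℂ) (r₂ : ℝ) (μ₂ : ℂ), ‖μ₁‖ ≤ μ₀ → ‖μ₂‖ ≤ μ₀ → 0 < r₂ → r₂ ≤ r₁ →
    K * r₁ * r₂ ≤ -QQ c₁ r₁ μ₁ c₂ →
    ∀ (N : Set ℂ) (m : ℂ → ℂ), IsOpen N → Kp c₁ r₁ μ₁ ⊆ N → Kp c₂ r₂ μ₂ ⊆ N → DifferentiableOn ℂ m N →
    ∀ z ∈ Dp c₂ r₂ μ₂ 1, r₂ ^ 2 * |QQ c₁ r₁ μ₁ c₂| * ‖m z‖ ^ 2 ≤ C * NN c₁ r₁ μ₁ c₂ r₂ μ₂ m := by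
  have hd : 0 < 1 - μ₀ := by linarith
  set C₂ : ℝ := (2 + 4 / (1 - μ₀)) * (4 / (1 - μ₀)) with hC₂
  have hC₂0 : 0 < C₂ := by positivity
  refine ⟨2 * C₂, 8 / π, by positivity, by positivity, ?_⟩
  intro c₁ r₁ μ₁ c₂ r₂ μ₂ hμ₁ hμ₂ hr₂ hr hK N m hN hN₁ hN₂ hm z hz
  have hr₁ : 0 < r₁ := lt_of_lt_of_le hr₂ hr
  have hμ₁1 : ‖μ₁‖ < 1 := lt_of_le_of_lt hμ₁ h1
  have hμ₂1 : ‖μ₂‖ < 1 := lt_of_le_of_lt hμ₂ h1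
  have hQ0 : QQ c₁ r₁ μ₁ c₂ < 0 := by
    have : 0 < 2 * C₂ * r₁ * r₂ := by positivity
    linarith
  have habs : |QQ c₁ r₁ μ₁ c₂| = -QQ c₁ r₁ μ₁ c₂ := abs_of_neg hQ0
  have hc : ‖vv c₁ r₁ μ₁ c₂‖ ≤ 1 := by
    have : c₂ ∈ Dp c₁ r₁ μ₁ 1 := (QQ_neg_iff hr₁ hμ₁1 c₂).1 hQ0
    exact le_of_lt this
  -- `-QQ₁ w ≥ |QQ₁ c₂| / 2` near `c₂`
  have hnear : ∀ w : ℂ, ‖w - c₂‖ ≤ 4 * r₂ → QQ c₁ r₁ μ₁ w ≤ -(|QQ c₁ r₁ μ₁ c₂| / 2) := by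
    intro w hw
    have h2 := Yb_lip hr₂ hr hμ₁ h1 hc hw
    rw [← hC₂] at h2
    have h3 := (le_abs_self _).trans h2
    rw [habs]
    nlinarith
  have hin : ∀ w : ℂ, ‖w - c₂‖ ≤ 4 * r₂ → w ∈ Dp c₁ r₁ μ₁ 1 := by
    intro w hw
    refine (QQ_neg_iff hr₁ hμ₁1 w).1 (lt_of_le_of_lt (hnear w hw) ?_)
    rw [habs]
    linarith
  have hinN : ∀ w : ℂ, ‖w - c₂‖ ≤ 4 * r₂ → w ∈ N := fun w hw => by
    have h2 : ‖vv c₁ r₁ μ₁ w‖ < 1 := hin w hw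
    exact hN₁ (show ‖vv c₁ r₁ μ₁ w‖ ≤ 1 from h2.le)
  -- maximum principle
  have hzb : z ∈ Metric.ball c₂ (3 * r₂) := by
    have := Dp_ball hr₂ hμ₂1 hz
    rw [Metric.mem_ball] at this ⊢
    linarith
  have hsub : Metric.closedBall c₂ (3 * r₂) ⊆ N := by
    intro w hw
    rw [Metric.mem_closedBall, Complex.dist_eq] at hw
    exact hinN w (by linarith)
  have hdc : DiffContOnCl ℂ m (Metric.ball c₂ (3 * r₂)) := by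
    refine ⟨hm.mono (Metric.ball_subset_closedBall.trans hsub), ?_⟩
    rw [closure_ball c₂ (by positivity : 3 * r₂ ≠ 0)]
    exact (hm.mono hsub).continuousOn
  obtain ⟨w, hwf, hwm⟩ := Complex.exists_mem_frontier_isMaxOn_norm Metric.isBounded_ball ⟨z, hzb⟩ hdc
  rw [frontier_ball c₂ (by positivity : 3 * r₂ ≠ 0)] at hwf
  have hwd : ‖w - c₂‖ = 3 * r₂ := by
    rwa [mem_sphere_iff_norm] at hwf
  have hzw : ‖m z‖ ≤ ‖m w‖ := hwm (subset_closure hzb)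
  have hbd : ∀ v ∈ Metric.closedBall w (r₂ / 2), ‖v - c₂‖ ≤ 4 * r₂ := by
    intro v hv
    rw [Metric.mem_closedBall, Complex.dist_eq] at hv
    have : ‖v - c₂‖ ≤ ‖v - w‖ + ‖w - c₂‖ := norm_sub_le_norm_sub_add_norm_sub _ _ _
    linarith
  have hbs : Metric.closedBall w (r₂ / 2) ⊆ N := fun v hv => hinN v (hbd v hv)
  have hmv := mvb (by positivity : 0 < r₂ / 2) hN hbs hm
  -- the ball is in the symmetric difference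
  have hout : ∀ v ∈ Metric.ball w (r₂ / 2), v ∉ Dp c₂ r₂ μ₂ 1 := by
    intro v hv hv2
    rw [Metric.mem_ball, Complex.dist_eq] at hv
    have h2 := Dp_ball hr₂ hμ₂1 hv2
    rw [Metric.mem_ball, Complex.dist_eq] at h2
    have h3 : ‖w - c₂‖ ≤ ‖w - v‖ + ‖v - c₂‖ := norm_sub_le_norm_sub_add_norm_sub _ _ _
    rw [norm_sub_rev w v] at h3
    linarith
  set E : Set ℂ := (Dp c₁ r₁ μ₁ 1 \ Dp c₂ r₂ μ₂ 1) ∪ (Dp c₂ r₂ μ₂ 1 \ Dp c₁ r₁ μ₁ 1) with hE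
  have hbE : Metric.ball w (r₂ / 2) ⊆ E := fun v hv =>
    Or.inl ⟨hin v (hbd v (Metric.ball_subset_closedBall hv)), hout v hv⟩
  set f : ℂ → ℝ := fun v => |QQ c₂ r₂ μ₂ v - QQ c₁ r₁ μ₁ v| * ‖m v‖ ^ 2 with hf
  have hKc : IsCompact (Kp c₁ r₁ μ₁ ∪ Kp c₂ r₂ μ₂) :=
    (cDp_compact hr₁ hμ₁1 1).union (cDp_compact hr₂ hμ₂1 1)
  have hfc : ContinuousOn f (Kp c₁ r₁ μ₁ ∪ Kp c₂ r₂ μ₂) := by
    have h2 : Continuous fun v => |QQ c₂ r₂ μ₂ v - QQ c₁ r₁ μ₁ v| :=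
      ((QQ_contDiff c₂ r₂ μ₂).continuous.sub (QQ_contDiff c₁ r₁ μ₁).continuous).abs
    have h3 : ContinuousOn m (Kp c₁ r₁ μ₁ ∪ Kp c₂ r₂ μ₂) :=
      (hm.mono (union_subset hN₁ hN₂)).continuousOn
    exact h2.continuousOn.mul (h3.norm.pow 2)
  have hfi : IntegrableOn f E := by
    refine (hfc.integrableOn_compact hKc).mono_set ?_
    rintro v (hv | hv)
    · have h2 : ‖vv c₁ r₁ μ₁ v‖ < 1 := hv.1
      exact Or.inl (show ‖vv c₁ r₁ μ₁ v‖ ≤ 1 from h2.le)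
    · have h2 : ‖vv c₂ r₂ μ₂ v‖ < 1 := hv.1
      exact Or.inr (show ‖vv c₂ r₂ μ₂ v‖ ≤ 1 from h2.le)
  have hmi : IntegrableOn (fun v => ‖m v‖ ^ 2) (Metric.ball w (r₂ / 2)) := by
    have h3 : ContinuousOn (fun v => ‖m v‖ ^ 2) (Metric.closedBall w (r₂ / 2)) :=
      ((hm.mono hbs).continuousOn.norm.pow 2)
    exact (h3.integrableOn_compact (isCompact_closedBall w (r₂ / 2))).mono_set Metric.ball_subset_closedBall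
  have hI1 : ∫ v in Metric.ball w (r₂ / 2), f v ≤ ∫ v in E, f v := by
    refine setIntegral_mono_set hfi ?_ (Filter.Eventually.of_forall hbE)
    exact Filter.Eventually.of_forall fun v => mul_nonneg (abs_nonneg _) (by positivity)
  have hI2 : ∫ v in Metric.ball w (r₂ / 2), |QQ c₁ r₁ μ₁ c₂| / 2 * ‖m v‖ ^ 2 ≤
      ∫ v in Metric.ball w (r₂ / 2), f v := by
    refine setIntegral_mono_on (hmi.const_mul _) (hfi.mono_set hbE) Metric.isOpen_ball.measurableSet ?_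
    intro v hv
    refine mul_le_mul_of_nonneg_right ?_ (by positivity)
    have h2 : 0 ≤ QQ c₂ r₂ μ₂ v := not_lt.1 fun h => hout v hv ((QQ_neg_iff hr₂ hμ₂1 v).1 h)
    have h3 := hnear v (hbd v (Metric.ball_subset_closedBall hv))
    refine le_trans ?_ (le_abs_self _)
    linarith
  rw [integral_const_mul] at hI2
  have hNN : NN c₁ r₁ μ₁ c₂ r₂ μ₂ m = ∫ v in E, f v := rfl
  have hQn : 0 ≤ |QQ c₁ r₁ μ₁ c₂| := abs_nonneg _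
  have h5 : |QQ c₁ r₁ μ₁ c₂| / 2 * (π * (r₂ / 2) ^ 2 * ‖m w‖ ^ 2) ≤ NN c₁ r₁ μ₁ c₂ r₂ μ₂ m := by
    rw [hNN]
    exact ((mul_le_mul_of_nonneg_left hmv (by positivity)).trans hI2).trans hI1
  have h6 : ‖m z‖ ^ 2 ≤ ‖m w‖ ^ 2 := pow_le_pow_left₀ (norm_nonneg _) hzw 2
  have hπ := Real.pi_pos
  rw [div_mul_eq_mul_div, le_div_iff₀ hπ]
  have h7 : r₂ ^ 2 * |QQ c₁ r₁ μ₁ c₂| * ‖m z‖ ^ 2 * π ≤ r₂ ^ 2 * |QQ c₁ r₁ μ₁ c₂| * ‖m w‖ ^ 2 * π := by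
    gcongr
  nlinarith [h7, h5]

end EY1
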