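import Pool.Agent.H1.EY.D
import Pool.Agent.H1.EW.Ga

/-!
ROW EY/Yc. `Lip`: as in `EW/Gb.lean` (`QQ_lip`), scale invariant: `QQ = kap (‖vv‖² - 1)`, `kap ≤ r²`, `‖vv z - vv w‖ ≤ ‖z - w‖/(r (1 - ‖μ‖))`.
`aat`: `aa` is a polynomial in `z` of degree 2 with derivative `-4 conj ν₂ (z - c₂) + 4 conj ν₁ (z - c₁) - 2 conj (c₂ - c₁)` (`ν_i = nu μ_i`, `‖ν_i‖ ≤ 1`; direct from the definitions of `aa`, `gg`), so `aa z - aa c₂ = -2 conj ν₂ (z-c₂)² + 2 conj ν₁ ((z-c₁)² - (c₂-c₁)²) - 2 conj (c₂-c₁) (z - c₂)`.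
Real part of `aa` at `c₂`: `QQ₂ c₂ - QQ₁ c₂ = -kap r₂ μ₂ - QQ₁ c₂` (`aa_re`). `τ = -(aa c₂).im`. `Dp c r μ 1 ⊆ ball c (2r)` (`Dp_ball`).
-/

set_option autoImplicit false

namespace EY1

open Complex Set Filter Topology MeasureTheory EW1 EX1
open scoped ComplexConjugate ContDiff Real

private theorem Yc_pos {μ : ℂ} (hμ : ‖μ‖ < 1) : 0 < 1 - ‖μ‖ ^ 2 := by
  have h0 := norm_nonneg μ
  nlinarith

private theorem Yc_QQ {c : ℂ} {r : ℝ} (hr : 0 < r) {μ : ℂ} (hμ : ‖μ‖ < 1) (z : ℂ) :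
    QQ c r μ z = ‖(z - c) - μ * conj (z - c)‖ ^ 2 / (1 + ‖μ‖ ^ 2) - kap r μ := by
  have h1 := Yc_pos hμ
  have h2 : ‖vv c r μ z‖ = ‖(z - c) - μ * conj (z - c)‖ / (r * (1 - ‖μ‖ ^ 2)) := by
    unfold vv
    rw [norm_div, Complex.norm_real, Real.norm_eq_abs, abs_of_pos (mul_pos hr h1)]
  unfold QQ
  rw [h2]
  unfold kap
  have h3 : r ≠ 0 := hr.ne'
  have h4 : 1 - ‖μ‖ ^ 2 ≠ 0 := h1.ne'
  have h5 : 1 + ‖μ‖ ^ 2 ≠ 0 := by positivity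
  field_simp
  try ring

private theorem Yc_kap {r : ℝ} {μ : ℂ} (hμ : ‖μ‖ < 1) : 0 ≤ kap r μ ∧ kap r μ ≤ r ^ 2 := by
  have h1 := Yc_pos hμ
  have h0 : 0 ≤ ‖μ‖ ^ 2 := by positivity
  unfold kap
  refine ⟨by positivity, ?_⟩
  rw [div_le_iff₀ (by positivity)]
  have h2 : (1 - ‖μ‖ ^ 2) ^ 2 ≤ 1 + ‖μ‖ ^ 2 := by nlinarith
  exact mul_le_mul_of_nonneg_left h2 (by positivity)

private theorem Yc_a {μ : ℂ} (hμ : ‖μ‖ < 1) (w : ℂ) : ‖w - μ * conj w‖ ≤ 2 * ‖w‖ := by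
  refine (norm_sub_le _ _).trans ?_
  rw [norm_mul, Complex.norm_conj]
  have := norm_nonneg w
  nlinarith

private theorem Yc_nu (μ : ℂ) (hμ : ‖μ‖ < 1) : ‖nu μ‖ ≤ 1 := by
  unfold nu
  have h0 : 0 ≤ ‖μ‖ ^ 2 := by positivity
  rw [norm_div, Complex.norm_real, Real.norm_eq_abs, abs_of_pos (by positivity)]
  rw [div_le_one (by positivity)]
  linarith

theorem Lip {μ₀ : ℝ} (h0 : 0 ≤ μ₀) (h1 : μ₀ < 1) : ∃ C : ℝ, 0 < C ∧ ∀ (c : ℂ) (r : ℝ) (μ : ℂ), 0 < r → ‖μ‖ ≤ μ₀ →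
    ∀ z w : ℂ, ‖z - c‖ ≤ 4 * r → ‖w - c‖ ≤ 4 * r → |QQ c r μ z - QQ c r μ w| ≤ C * r * ‖z - w‖ := by
  refine ⟨32, by norm_num, ?_⟩
  intro c r μ hr hμ z w hz hw
  have hμ1 : ‖μ‖ < 1 := lt_of_le_of_lt hμ h1
  rw [Yc_QQ hr hμ1, Yc_QQ hr hμ1]
  set a := ‖(z - c) - μ * conj (z - c)‖ with ha
  set b := ‖(w - c) - μ * conj (w - c)‖ with hb
  have ha1 : a ≤ 8 * r := (Yc_a hμ1 (z - c)).trans (by linarith)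
  have hb1 : b ≤ 8 * r := (Yc_a hμ1 (w - c)).trans (by linarith)
  have ha0 : 0 ≤ a := norm_nonneg _
  have hb0 : 0 ≤ b := norm_nonneg _
  have hab : |a - b| ≤ 2 * ‖z - w‖ := by
    refine (abs_norm_sub_norm_le _ _).trans ?_
    have e : (z - c) - μ * conj (z - c) - ((w - c) - μ * conj (w - c)) = (z - w) - μ * conj (z - w) := by
      simp only [map_sub]
      ring
    rw [e]
    exact Yc_a hμ1 (z - w)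
  have hm : 0 ≤ ‖μ‖ ^ 2 := by positivity
  have e2 : a ^ 2 / (1 + ‖μ‖ ^ 2) - kap r μ - (b ^ 2 / (1 + ‖μ‖ ^ 2) - kap r μ) =
      ((a - b) * (a + b)) / (1 + ‖μ‖ ^ 2) := by ring
  rw [e2, abs_div, abs_mul, abs_of_pos (show (0 : ℝ) < 1 + ‖μ‖ ^ 2 by positivity),
    abs_of_nonneg (add_nonneg ha0 hb0), div_le_iff₀ (by positivity)]
  have h3 : |a - b| * (a + b) ≤ 2 * ‖z - w‖ * (16 * r) :=
    mul_le_mul hab (by linarith) (add_nonneg ha0 hb0) (by positivity)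
  have h4 : 0 ≤ 32 * r * ‖z - w‖ := by positivity
  nlinarith

private theorem Yc_diff (c₁ : ℂ) (r₁ : ℝ) (μ₁ c₂ : ℂ) (r₂ : ℝ) (μ₂ z : ℂ) :
    aa c₁ r₁ μ₁ c₂ r₂ μ₂ z - aa c₁ r₁ μ₁ c₂ r₂ μ₂ c₂ =
      (z - c₂) * (-(2 * conj (nu μ₂) * (z - c₂)) + 2 * conj (nu μ₁) * ((z - c₂) + 2 * (c₂ - c₁)) - 2 * conj (c₂ - c₁)) := by
  unfold aa gg
  simp only [map_sub]
  ring

theorem aat {μ₀ : ℝ} (h0 : 0 ≤ μ₀) (h1 : μ₀ < 1) : ∃ C : ℝ, 0 < C ∧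
    ∀ (c₁ : ℂ) (r₁ : ℝ) (μ₁ c₂ : ℂ) (r₂ : ℝ) (μ₂ : ℂ), ‖μ₁‖ ≤ μ₀ → ‖μ₂‖ ≤ μ₀ → 0 < r₂ → r₂ ≤ r₁ → ‖c₂ - c₁‖ ≤ 4 * r₁ →
    ∃ τ : ℝ, (∀ z ∈ Dp c₂ r₂ μ₂ 1, ‖aa c₁ r₁ μ₁ c₂ r₂ μ₂ z + τ * I‖ ≤ |QQ c₁ r₁ μ₁ c₂| + C * r₁ * r₂) ∧
      ∀ z ∈ Dp c₁ r₁ μ₁ 1, ‖aa c₁ r₁ μ₁ c₂ r₂ μ₂ z + τ * I‖ ≤ C * r₁ ^ 2 := by
  refine ⟨400, by norm_num, ?_⟩
  intro c₁ r₁ μ₁ c₂ r₂ μ₂ hμ₁ hμ₂ hr₂ hr hc
  have hr₁ : 0 < r₁ := lt_of_lt_of_le hr₂ hr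
  have hm₁ : ‖μ₁‖ < 1 := lt_of_le_of_lt hμ₁ h1
  have hm₂ : ‖μ₂‖ < 1 := lt_of_le_of_lt hμ₂ h1
  have hk₁ := Yc_kap (r := r₁) hm₁
  have hk₂ := Yc_kap (r := r₂) hm₂
  have hn₁ := Yc_nu μ₁ hm₁
  have hn₂ := Yc_nu μ₂ hm₂
  have hQ2 : QQ c₂ r₂ μ₂ c₂ = - kap r₂ μ₂ := by
    rw [Yc_QQ hr₂ hm₂]
    simp
  have hre := aa_re (c₁ := c₁) (c₂ := c₂) hr₁ hr₂ hm₁ hm₂ c₂
  rw [hQ2] at hre
  refine ⟨-(aa c₁ r₁ μ₁ c₂ r₂ μ₂ c₂).im, ?_⟩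
  have key : ∀ z : ℂ, ‖aa c₁ r₁ μ₁ c₂ r₂ μ₂ z + ((-(aa c₁ r₁ μ₁ c₂ r₂ μ₂ c₂).im : ℝ) : ℂ) * I‖ ≤
      ‖z - c₂‖ * (4 * ‖z - c₂‖ + 24 * r₁) + (|QQ c₁ r₁ μ₁ c₂| + kap r₂ μ₂) := by
    intro z
    have e1 : aa c₁ r₁ μ₁ c₂ r₂ μ₂ z + ((-(aa c₁ r₁ μ₁ c₂ r₂ μ₂ c₂).im : ℝ) : ℂ) * I =
        (aa c₁ r₁ μ₁ c₂ r₂ μ₂ z - aa c₁ r₁ μ₁ c₂ r₂ μ₂ c₂) + (((aa c₁ r₁ μ₁ c₂ r₂ μ₂ c₂).re : ℝ) : ℂ) := by
      have h2 := Complex.re_add_im (aa c₁ r₁ μ₁ c₂ r₂ μ₂ c₂)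
      push_cast
      linear_combination (-1 : ℂ) * h2
    rw [e1]
    refine (norm_add_le _ _).trans ?_
    apply add_le_add
    · rw [Yc_diff, norm_mul]
      refine mul_le_mul_of_nonneg_left ?_ (norm_nonneg _)
      have hz := norm_nonneg (z - c₂)
      have h3 : ‖-(2 * conj (nu μ₂) * (z - c₂))‖ ≤ 2 * ‖z - c₂‖ := by
        rw [norm_neg, norm_mul, norm_mul, Complex.norm_conj, Complex.norm_two]
        nlinarith [norm_nonneg (nu μ₂)]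
      have h4 : ‖2 * conj (nu μ₁) * ((z - c₂) + 2 * (c₂ - c₁))‖ ≤ 2 * (‖z - c₂‖ + 8 * r₁) := by
        rw [norm_mul, norm_mul, Complex.norm_conj, Complex.norm_two]
        have h5 : ‖(z - c₂) + 2 * (c₂ - c₁)‖ ≤ ‖z - c₂‖ + 8 * r₁ := by
          refine (norm_add_le _ _).trans ?_
          rw [norm_mul, Complex.norm_two]
          linarith
        have h6 := norm_nonneg (nu μ₁)
        have h7 := norm_nonneg ((z - c₂) + 2 * (c₂ - c₁))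
        nlinarith
      have h8 : ‖2 * conj (c₂ - c₁)‖ ≤ 8 * r₁ := by
        rw [norm_mul, Complex.norm_conj, Complex.norm_two]
        linarith
      refine (norm_sub_le _ _).trans ?_
      refine (add_le_add (norm_add_le _ _) le_rfl).trans ?_
      linarith
    · rw [Complex.norm_real, Real.norm_eq_abs, hre]
      refine (abs_sub _ _).trans ?_
      rw [abs_neg, abs_of_nonneg hk₂.1]
      linarith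
  constructor
  · intro z hz
    have hz1 := Dp_ball hr₂ hm₂ hz
    rw [Metric.mem_ball, Complex.dist_eq, mul_one] at hz1
    refine (key z).trans ?_
    have h3 : ‖z - c₂‖ * (4 * ‖z - c₂‖ + 24 * r₁) ≤ (2 * r₂) * (32 * r₁) :=
      mul_le_mul hz1.le (by linarith) (by positivity) (by positivity)
    have h4 : r₂ ^ 2 ≤ r₁ * r₂ := by nlinarith
    have h5 : 0 ≤ r₁ * r₂ := by positivity
    nlinarith [hk₂.2]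
  · intro z hz
    have hz1 := Dp_ball hr₁ hm₁ hz
    rw [Metric.mem_ball, Complex.dist_eq, mul_one] at hz1
    have hz2 : ‖z - c₂‖ ≤ 6 * r₁ := by
      have e : z - c₂ = (z - c₁) - (c₂ - c₁) := by ring
      rw [e]
      refine (norm_sub_le _ _).trans ?_
      linarith
    refine (key z).trans ?_
    have h3 : ‖z - c₂‖ * (4 * ‖z - c₂‖ + 24 * r₁) ≤ (6 * r₁) * (48 * r₁) :=
      mul_le_mul hz2 (by linarith) (by positivity) (by positivity)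
    have h4 : |QQ c₁ r₁ μ₁ c₂| ≤ 65 * r₁ ^ 2 := by
      rw [Yc_QQ hr₁ hm₁]
      have ha := Yc_a hm₁ (c₂ - c₁)
      set a := ‖(c₂ - c₁) - μ₁ * conj (c₂ - c₁)‖ with hadef
      have ha0 : 0 ≤ a := norm_nonneg _
      have ha1 : a ≤ 8 * r₁ := by linarith
      have h5 : a ^ 2 / (1 + ‖μ₁‖ ^ 2) ≤ 64 * r₁ ^ 2 := by
        rw [div_le_iff₀ (by positivity)]
        have h6 : a ^ 2 ≤ (8 * r₁) ^ 2 := by gcongr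
        have h7 : 0 ≤ 64 * r₁ ^ 2 * ‖μ₁‖ ^ 2 := by positivity
        nlinarith
      have h8 : 0 ≤ a ^ 2 / (1 + ‖μ₁‖ ^ 2) := by positivity
      rw [abs_le]
      constructor
      · nlinarith [hk₁.1, hk₁.2]
      · nlinarith [hk₁.1, hk₁.2]
    have h9 : r₂ ^ 2 ≤ r₁ ^ 2 := by gcongr
    nlinarith [hk₂.2]

end EY1
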