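import Pool.Agent.H1.EX.Xg
import Pool.Agent.H1.EW.Ga

/-!
ROW EY/Zh. Scaling of `NN`. `z = c₀ + s w`: `vv_aff` (`EX/Xg.lean`, statement there), `QQ c r μ (c₀ + s w) = s² QQ ((c-c₀)/s) (r/s) μ w` (`kap r μ = s² kap (r/s) μ`), sets `Dp` correspond (`vv_aff`), change of variables in the plane (factor `s²`; see how `int_aff` is done, or prove it here by
`MeasureTheory.Measure.integral_comp_smul` style lemmas with indicator functions).
-/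

set_option autoImplicit false

namespace EY1

open Complex Set Filter Topology MeasureTheory EW1 EX1
open scoped ComplexConjugate ContDiff Real

private theorem Zh_kap (r : ℝ) (μ : ℂ) {s : ℝ} (hs : 0 < s) : kap r μ = s ^ 2 * kap (r / s) μ := by
  unfold kap
  have hs0 : s ≠ 0 := hs.ne'
  have h1 : (1 + ‖μ‖ ^ 2 : ℝ) ≠ 0 := by positivity
  field_simp

private theorem Zh_QQ (c₀ c : ℂ) (r : ℝ) (μ : ℂ) {s : ℝ} (hs : 0 < s) (w : ℂ) :
    QQ c r μ (c₀ + s * w) = s ^ 2 * QQ ((c - c₀) / s) (r / s) μ w := by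
  unfold QQ
  rw [vv_aff c₀ c r μ hs w, Zh_kap r μ hs, mul_assoc]

private theorem Zh_mem (c₀ c : ℂ) (r : ℝ) (μ : ℂ) {s : ℝ} (hs : 0 < s) (w : ℂ) :
    c₀ + s • w ∈ Dp c r μ 1 ↔ w ∈ Dp ((c - c₀) / s) (r / s) μ 1 := by
  show ‖vv c r μ (c₀ + s • w)‖ < 1 ↔ ‖vv ((c - c₀) / s) (r / s) μ w‖ < 1
  rw [Complex.real_smul, vv_aff c₀ c r μ hs w]

/-- change of variables for a set and its preimage -/
private theorem Zh_int (c₀ : ℂ) {s : ℝ} (hs : 0 < s) {S S' : Set ℂ} (hS : MeasurableSet S) (hS' : MeasurableSet S')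
    (hSS : ∀ w : ℂ, c₀ + s • w ∈ S ↔ w ∈ S') (f : ℂ → ℝ) :
    ∫ z in S, f z = s ^ 2 * ∫ w in S', f (c₀ + s * w) := by
  rw [← integral_indicator hS, ← integral_indicator hS']
  have h1 : ∀ w : ℂ, S'.indicator (fun w => f (c₀ + s * w)) w = (fun z => S.indicator f (c₀ + z)) (s • w) := by
    intro w
    by_cases hw : w ∈ S'
    · have hw' : c₀ + s • w ∈ S := (hSS w).2 hw
      show _ = S.indicator f (c₀ + s • w)
      rw [Set.indicator_of_mem hw, Set.indicator_of_mem hw', Complex.real_smul]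
    · have hw' : c₀ + s • w ∉ S := fun h => hw ((hSS w).1 h)
      show _ = S.indicator f (c₀ + s • w)
      rw [Set.indicator_of_notMem hw, Set.indicator_of_notMem hw']
  have h2 := MeasureTheory.Measure.integral_comp_smul (volume : Measure ℂ) (fun z => S.indicator f (c₀ + z)) s
  rw [integral_congr_ae (Filter.Eventually.of_forall h1), h2,
    integral_add_left_eq_self (fun z => S.indicator f z) c₀]
  rw [Complex.finrank_real_complex, abs_of_pos (inv_pos.2 (pow_pos hs 2)), smul_eq_mul, ← mul_assoc,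
    mul_inv_cancel₀ (pow_ne_zero 2 hs.ne'), one_mul]

theorem NN_aff (c₀ : ℂ) {s : ℝ} (hs : 0 < s) (c₁ : ℂ) (r₁ : ℝ) (μ₁ c₂ : ℂ) (r₂ : ℝ) (μ₂ : ℂ) (m : ℂ → ℂ) :
    NN c₁ r₁ μ₁ c₂ r₂ μ₂ m =
      s ^ 4 * NN ((c₁ - c₀) / s) (r₁ / s) μ₁ ((c₂ - c₀) / s) (r₂ / s) μ₂ (fun w => m (c₀ + s * w)) := by
  have hm1 := (Dp_open c₁ r₁ μ₁ 1).measurableSet
  have hm2 := (Dp_open c₂ r₂ μ₂ 1).measurableSet
  have hm1' := (Dp_open ((c₁ - c₀) / s) (r₁ / s) μ₁ 1).measurableSet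
  have hm2' := (Dp_open ((c₂ - c₀) / s) (r₂ / s) μ₂ 1).measurableSet
  unfold NN
  rw [Zh_int c₀ hs ((hm1.diff hm2).union (hm2.diff hm1)) ((hm1'.diff hm2').union (hm2'.diff hm1')) (fun w => by
    rw [Set.mem_union, Set.mem_sdiff, Set.mem_sdiff, Set.mem_union, Set.mem_sdiff, Set.mem_sdiff,
      Zh_mem c₀ c₁ r₁ μ₁ hs w, Zh_mem c₀ c₂ r₂ μ₂ hs w])]
  have h1 : ∀ w : ℂ, |QQ c₂ r₂ μ₂ (c₀ + s * w) - QQ c₁ r₁ μ₁ (c₀ + s * w)| * ‖m (c₀ + s * w)‖ ^ 2 =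
      s ^ 2 * (|QQ ((c₂ - c₀) / s) (r₂ / s) μ₂ w - QQ ((c₁ - c₀) / s) (r₁ / s) μ₁ w| * ‖m (c₀ + s * w)‖ ^ 2) := by
    intro w
    rw [Zh_QQ c₀ c₂ r₂ μ₂ hs w, Zh_QQ c₀ c₁ r₁ μ₁ hs w, ← mul_sub, abs_mul, abs_of_pos (pow_pos hs 2), mul_assoc]
  rw [integral_congr_ae (Filter.Eventually.of_forall h1), integral_const_mul, ← mul_assoc]
  congr 1
  ring

end EY1
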