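import Pool.Agent.H1.EY.Zf
import Pool.Agent.H1.EY.Zh
import Pool.Agent.H1.EW.Gn

/-!
ROW EY/Zi. `L2b` from `L2b0` by scaling `z = c₂ + r₂ w`: `NN_aff` (`c₀ = c₂`, `s = r₂`), `NN_symm` (`EW/Gn.lean`), `vv_aff`; `ρ = r₁/r₂ ≥ 1/η ≥ ρ₀`; `QQ c₁ r₁ μ₁ c₂ = r₂² QQ ((c₁-c₂)/r₂) (r₁/r₂) μ₁ 0`; the open set `{w | c₂ + r₂ w ∈ N}`, the function `m (c₂ + r₂ w)`.
`(r₁/r₂) ‖m‖² ≤ C NN/r₂⁴`.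
-/

set_option autoImplicit false

namespace EY1

open Complex Set Filter Topology MeasureTheory EW1 EX1
open scoped ComplexConjugate ContDiff Real

private theorem Zi_QQ (c₀ c : ℂ) (r : ℝ) (μ : ℂ) {s : ℝ} (hs : 0 < s) (w : ℂ) :
    QQ c r μ (c₀ + s * w) = s ^ 2 * QQ ((c - c₀) / s) (r / s) μ w := by
  unfold QQ
  rw [vv_aff c₀ c r μ hs w]
  unfold kap
  have hs' : s ≠ 0 := hs.ne'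
  field_simp

theorem L2b {μ₀ K σ : ℝ} (h0 : 0 ≤ μ₀) (h1 : μ₀ < 1) (hK : 0 < K) (hσ : 0 < σ) (hσ1 : σ < 1) :
    ∃ η C : ℝ, 0 < η ∧ 0 < C ∧ ∀ (c₁ : ℂ) (r₁ : ℝ) (μ₁ c₂ : ℂ) (r₂ : ℝ) (μ₂ : ℂ), ‖μ₁‖ ≤ μ₀ → ‖μ₂‖ ≤ μ₀ → 0 < r₂ →
      r₂ ≤ η * r₁ → |QQ c₁ r₁ μ₁ c₂| ≤ K * r₁ * r₂ →
      ∀ (N : Set ℂ) (m : ℂ → ℂ), IsOpen N → Kp c₁ r₁ μ₁ ⊆ N → Kp c₂ r₂ μ₂ ⊆ N → DifferentiableOn ℂ m N →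
      ∀ z ∈ Dp c₂ r₂ μ₂ σ, r₁ * r₂ ^ 3 * ‖m z‖ ^ 2 ≤ C * NN c₁ r₁ μ₁ c₂ r₂ μ₂ m := by
  obtain ⟨ρ₀, C, hρ₀, hC, H⟩ := L2b0 h0 h1 hK hσ hσ1
  have hρp : 0 < ρ₀ := by linarith
  refine ⟨ρ₀⁻¹, C, by positivity, hC, ?_⟩
  intro c₁ r₁ μ₁ c₂ r₂ μ₂ hμ₁ hμ₂ hr₂ hη hQ N m hN hK₁ hK₂ hm z hz
  have hr₂' : r₂ ≠ 0 := hr₂.ne'
  have hrc : (r₂ : ℂ) ≠ 0 := by exact_mod_cast hr₂'
  have hρ : ρ₀ ≤ r₁ / r₂ := by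
    rw [le_div_iff₀ hr₂]
    calc ρ₀ * r₂ ≤ ρ₀ * (ρ₀⁻¹ * r₁) := by gcongr
      _ = r₁ := by field_simp
  have hQ0 : |QQ ((c₁ - c₂) / r₂) (r₁ / r₂) μ₁ 0| ≤ K * (r₁ / r₂) := by
    have e := Zi_QQ c₂ c₁ r₁ μ₁ hr₂ 0
    rw [mul_zero, add_zero] at e
    rw [e, abs_mul, abs_of_pos (by positivity : (0:ℝ) < r₂ ^ 2)] at hQ
    have h2 : (0:ℝ) < r₂ ^ 2 := by positivity
    have h3 : r₂ ^ 2 * (K * (r₁ / r₂)) = K * r₁ * r₂ := by field_simp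
    nlinarith [hQ, h3, h2]
  have hself : (c₂ - c₂) / (r₂ : ℂ) = 0 := by rw [sub_self, zero_div]
  have hone : r₂ / r₂ = 1 := div_self hr₂'
  have haff : Continuous fun w : ℂ => c₂ + r₂ * w := by fun_prop
  have hN' : IsOpen {w : ℂ | c₂ + r₂ * w ∈ N} := hN.preimage haff
  have k₂ : Kp 0 1 μ₂ ⊆ {w : ℂ | c₂ + r₂ * w ∈ N} := by
    intro w hw
    apply hK₂
    have e := vv_aff c₂ c₂ r₂ μ₂ hr₂ w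
    rw [hself, hone] at e
    show ‖vv c₂ r₂ μ₂ (c₂ + r₂ * w)‖ ≤ 1
    rw [e]
    exact hw
  have k₁ : Kp ((c₁ - c₂) / r₂) (r₁ / r₂) μ₁ ⊆ {w : ℂ | c₂ + r₂ * w ∈ N} := by
    intro w hw
    apply hK₁
    have e := vv_aff c₂ c₁ r₁ μ₁ hr₂ w
    show ‖vv c₁ r₁ μ₁ (c₂ + r₂ * w)‖ ≤ 1
    rw [e]
    exact hw
  have hm' : DifferentiableOn ℂ (fun w : ℂ => m (c₂ + r₂ * w)) {w : ℂ | c₂ + r₂ * w ∈ N} := by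
    have h4 : DifferentiableOn ℂ (fun w : ℂ => c₂ + r₂ * w) {w : ℂ | c₂ + r₂ * w ∈ N} := by fun_prop
    exact hm.comp h4 fun w hw => hw
  have hzw : c₂ + r₂ * ((z - c₂) / r₂) = z := by field_simp; ring
  have hw : (z - c₂) / r₂ ∈ Dp 0 1 μ₂ σ := by
    have e := vv_aff c₂ c₂ r₂ μ₂ hr₂ ((z - c₂) / r₂)
    rw [hself, hone, hzw] at e
    show ‖vv 0 1 μ₂ ((z - c₂) / r₂)‖ < σ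
    rw [← e]
    exact hz
  have key := H μ₂ ((c₁ - c₂) / r₂) (r₁ / r₂) μ₁ hμ₂ hμ₁ hρ hQ0 _ _ hN' k₂ k₁ hm' _ hw
  simp only [hzw] at key
  have hNN := NN_aff c₂ hr₂ c₁ r₁ μ₁ c₂ r₂ μ₂ m
  rw [hself, hone, NN_symm ((c₁ - c₂) / r₂)] at hNN
  rw [hNN]
  have h5 : r₁ * r₂ ^ 3 * ‖m z‖ ^ 2 = r₂ ^ 4 * (r₁ / r₂ * ‖m z‖ ^ 2) := by field_simp
  rw [h5]
  calc r₂ ^ 4 * (r₁ / r₂ * ‖m z‖ ^ 2) ≤ r₂ ^ 4 * (C * NN 0 1 μ₂ ((c₁ - c₂) / r₂) (r₁ / r₂) μ₁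
        (fun w => m (c₂ + r₂ * w))) := by gcongr
    _ = _ := by ring

end EY1
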