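import Pool.Agent.H1.EX.D

/-!
# EY: a small ellipse and a big one: definitions
-/

set_option autoImplicit false

namespace EY1

open Complex Set Filter Topology MeasureTheory EW1 EX1
open scoped ComplexConjugate ContDiff Real

/-- the data of the elimination for the unit size ellipse `(0, 1, μ)` and the big ellipse `(c, ρ, ν)`:
`y` vanishes on the boundary of the big ellipse and equals the entire function `P` on the boundary of the small one -/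
structure Sb (C : ℝ) (μ c : ℂ) (ρ : ℝ) (ν : ℂ) (P y Z V : ℂ → ℂ) : Prop where
  P_diff : Differentiable ℂ P
  y_smooth : ContDiff ℝ ∞ y
  Z_smooth : ContDiff ℝ ∞ Z
  V_smooth : ContDiff ℝ ∞ V
  y_eq : ∀ z, y z = ((QQ c ρ ν z / ρ : ℝ) : ℂ) * V z
  yP_eq : ∀ z, y z - P z = QQ 0 1 μ z * Z z
  P_le : ∀ z, ‖P z‖ ≤ C * (1 + ‖z‖) ^ 4
  V_le : ∀ z, ‖V z‖ ≤ C * (1 + ‖z‖) ^ 4
  Z_le : ∀ z, ‖Z z‖ ≤ C * (1 + ‖z‖) ^ 4
  dy_le : ∀ z, ‖dbar y z‖ ≤ C * (1 + ‖z‖) ^ 4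
  q_le : ∀ z, |QQ c ρ ν z| ≤ C * ρ * (1 + ‖z‖) ^ 2

end EY1
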