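import Pool.Agent.H1.EY.D
import Pool.Agent.H1.EW.Ga
import Pool.Agent.H1.EW.Gm

/-!
ROW EY/Ya. `mvb`: mean value property on disks and Cauchy–Schwarz (see `Gm_circle`, `Gm_area` in `EW/Gm.lean` for a proof with `lintegral`; or `‖m‖²` is subharmonic).
`L1`: the second ellipse is much smaller than the first one. `σ' = (1+σ)/2`. For `z ∈ Dp c₁ r₁ μ₁ σ`: `ball z (κ r₁) ⊆ Dp c₁ r₁ μ₁ σ'`, `κ = (σ' - σ)(1 - μ₀)` (`‖vv z - vv w‖ ≤ ‖z - w‖/(r₁ (1 - ‖μ₁‖))`). On `Dp c₁ r₁ μ₁ σ' \ Dp c₂ r₂ μ₂ 1`: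
`QQ₂ ≥ 0`, `-QQ₁ ≥ kap r₁ μ₁ (1 - σ'²) ≥ c r₁²`, so `|QQ₂ - QQ₁| ≥ c r₁²`. The second ellipse is in `ball c₂ (2 r₂)` (`Dp_ball`), `2 r₂ ≤ κ r₁/8`. If `‖c₂ - z‖ ≥ κ r₁/2` let `t = κ r₁/4`, otherwise `t = 3 κ r₁/4`: the balls of radius `κ r₁/16` with
center `w`, `‖w - z‖ = t`, do not meet it. Maximum principle: `‖m z‖ ≤ ‖m w‖` for some `w` with `‖w - z‖ = t`; `Gm_area` on `ball w (κ r₁/16)`: `π (κ r₁/16)² ‖m w‖² ≤ ∫_ball ‖m‖² ≤ NN / (c r₁²)`.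
-/

set_option autoImplicit false

namespace EY1

open Complex Set Filter Topology MeasureTheory EW1 EX1
open scoped ComplexConjugate ContDiff Real

theorem mvb {m : ℂ → ℂ} {z : ℂ} {t : ℝ} (ht : 0 < t) {N : Set ℂ} (hN : IsOpen N) (hs : Metric.closedBall z t ⊆ N)
    (hm : DifferentiableOn ℂ m N) : π * t ^ 2 * ‖m z‖ ^ 2 ≤ ∫ w in Metric.ball z t, ‖m w‖ ^ 2 := by
  have h1 := Gm_area (f := fun w => m w ^ 2) ht ((hm.mono (Metric.ball_subset_closedBall.trans hs)).pow 2)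
  have h2 : ∫⁻ w in Metric.ball z t, ENNReal.ofReal ‖m w ^ 2‖ = ENNReal.ofReal (∫ w in Metric.ball z t, ‖m w‖ ^ 2) := by
    rw [ofReal_integral_eq_lintegral_ofReal]
    · simp only [norm_pow]
    · exact (((hm.continuousOn.mono hs).norm.pow 2).integrableOn_compact (isCompact_closedBall z t)).mono_set
        Metric.ball_subset_closedBall
    · exact ae_of_all _ fun w => by positivity
  rw [h2, norm_pow] at h1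
  exact (ENNReal.ofReal_le_ofReal_iff (integral_nonneg fun w => by positivity)).1 h1

private theorem Ya_lip {μ₀ : ℝ} (h1 : μ₀ < 1) {c : ℂ} {r : ℝ} (hr : 0 < r) {μ : ℂ} (hμ : ‖μ‖ ≤ μ₀) (z w : ℂ) :
    ‖vv c r μ z - vv c r μ w‖ * (r * (1 - μ₀)) ≤ ‖z - w‖ := by
  have hm0 := norm_nonneg μ
  have hm1 : ‖μ‖ < 1 := hμ.trans_lt h1
  have hp : 0 < 1 - ‖μ‖ ^ 2 := by nlinarith
  have e1 : vv c r μ z - vv c r μ w = ((z - w) - μ * conj (z - w)) / ((r * (1 - ‖μ‖ ^ 2) : ℝ) : ℂ) := by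
    unfold vv
    simp only [map_sub]
    ring
  rw [e1, norm_div, Complex.norm_real, Real.norm_eq_abs, abs_of_pos (mul_pos hr hp), div_mul_eq_mul_div,
    div_le_iff₀ (mul_pos hr hp)]
  have e2 : ‖(z - w) - μ * conj (z - w)‖ ≤ ‖z - w‖ * (1 + ‖μ‖) := by
    refine (norm_sub_le _ _).trans ?_
    rw [norm_mul, Complex.norm_conj]
    linarith [mul_comm ‖μ‖ ‖z - w‖]
  have h3 := norm_nonneg (z - w)
  calc ‖(z - w) - μ * conj (z - w)‖ * (r * (1 - μ₀)) ≤ (‖z - w‖ * (1 + ‖μ‖)) * (r * (1 - ‖μ‖)) := by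
        apply mul_le_mul e2 _ (by nlinarith) (by positivity)
        exact mul_le_mul_of_nonneg_left (by linarith) hr.le
    _ = ‖z - w‖ * (r * (1 - ‖μ‖ ^ 2)) := by ring

theorem L1 {μ₀ σ : ℝ} (h0 : 0 ≤ μ₀) (h1 : μ₀ < 1) (hσ : 0 < σ) (hσ1 : σ < 1) : ∃ η C : ℝ, 0 < η ∧ 0 < C ∧
    ∀ (c₁ : ℂ) (r₁ : ℝ) (μ₁ c₂ : ℂ) (r₂ : ℝ) (μ₂ : ℂ), ‖μ₁‖ ≤ μ₀ → ‖μ₂‖ ≤ μ₀ → 0 < r₂ → r₂ ≤ η * r₁ →
    ∀ (N : Set ℂ) (m : ℂ → ℂ), IsOpen N → Kp c₁ r₁ μ₁ ⊆ N → Kp c₂ r₂ μ₂ ⊆ N → DifferentiableOn ℂ m N →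
    ∀ z ∈ Dp c₁ r₁ μ₁ σ, r₁ ^ 4 * ‖m z‖ ^ 2 ≤ C * NN c₁ r₁ μ₁ c₂ r₂ μ₂ m := by
  obtain ⟨σ', hσ'⟩ : ∃ σ' : ℝ, σ' = (1 + σ) / 2 := ⟨_, rfl⟩
  obtain ⟨κ, hκd⟩ : ∃ κ : ℝ, κ = (σ' - σ) * (1 - μ₀) := ⟨_, rfl⟩
  obtain ⟨a, had⟩ : ∃ a : ℝ, a = (1 - μ₀ ^ 2) ^ 2 / 2 * (1 - σ' ^ 2) := ⟨_, rfl⟩
  have s0 : 0 < σ' := by rw [hσ']; linarith
  have s1 : σ' < 1 := by rw [hσ']; linarith
  have s2 : σ < σ' := by rw [hσ']; linarith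
  have hκ : 0 < κ := by rw [hκd]; exact mul_pos (by linarith) (by linarith)
  have hs3 : 0 < 1 - σ' ^ 2 := by nlinarith
  have hμp : 0 < 1 - μ₀ ^ 2 := by nlinarith
  have ha : 0 < a := by rw [had]; positivity
  refine ⟨κ / 16, 256 / (a * π * κ ^ 2), by positivity, by positivity, ?_⟩
  intro c₁ r₁ μ₁ c₂ r₂ μ₂ hm1 hm2 hr₂ hrr N m hN hN1 hN2 hm z hz
  have hr₁ : 0 < r₁ := by
    by_contra hcon
    push Not at hcon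
    have : κ / 16 * r₁ ≤ 0 := mul_nonpos_of_nonneg_of_nonpos (by positivity) hcon
    linarith
  have hμ₁ : ‖μ₁‖ < 1 := hm1.trans_lt h1
  have hμ₂ : ‖μ₂‖ < 1 := hm2.trans_lt h1
  have hNN := NN_nonneg c₁ r₁ μ₁ c₂ r₂ μ₂ m
  have hNi := Gm_NN hr₁ hr₂ hμ₁ hμ₂ hN1 hN2 hm.continuousOn
  obtain ⟨X, hX⟩ : ∃ X : ℝ, X = NN c₁ r₁ μ₁ c₂ r₂ μ₂ m := ⟨_, rfl⟩
  rw [← hX] at hNN hNi ⊢
  -- the ball
  have hball : ∀ w : ℂ, ‖w - z‖ < κ * r₁ → w ∈ Dp c₁ r₁ μ₁ σ' := by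
    intro w hw
    have h2 := Ya_lip h1 (c := c₁) hr₁ hm1 w z
    have h3 : ‖vv c₁ r₁ μ₁ w - vv c₁ r₁ μ₁ z‖ * (r₁ * (1 - μ₀)) < (σ' - σ) * (r₁ * (1 - μ₀)) := by
      refine lt_of_le_of_lt h2 (lt_of_lt_of_eq hw ?_)
      rw [hκd]; ring
    have h4 : ‖vv c₁ r₁ μ₁ w - vv c₁ r₁ μ₁ z‖ < σ' - σ :=
      lt_of_mul_lt_mul_right h3 (mul_nonneg hr₁.le (by linarith))
    have h5 : ‖vv c₁ r₁ μ₁ z‖ < σ := hz
    have h6 : ‖vv c₁ r₁ μ₁ w‖ ≤ ‖vv c₁ r₁ μ₁ w - vv c₁ r₁ μ₁ z‖ + ‖vv c₁ r₁ μ₁ z‖ := by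
      have := norm_add_le (vv c₁ r₁ μ₁ w - vv c₁ r₁ μ₁ z) (vv c₁ r₁ μ₁ z)
      rwa [sub_add_cancel] at this
    show ‖vv c₁ r₁ μ₁ w‖ < σ'
    linarith
  have hK1 : ∀ w : ℂ, ‖w - z‖ < κ * r₁ → w ∈ N := fun w hw =>
    hN1 (show ‖vv c₁ r₁ μ₁ w‖ ≤ 1 from (lt_trans (show ‖vv c₁ r₁ μ₁ w‖ < σ' from hball w hw) s1).le)
  have hκr : 0 < κ * r₁ := mul_pos hκ hr₁
  -- the radius
  obtain ⟨t, ht0, ht1, ht2⟩ : ∃ t : ℝ, 0 < t ∧ t ≤ 3 * (κ * r₁) / 4 ∧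
      ∀ w : ℂ, t - κ * r₁ / 8 < ‖w - z‖ → ‖w - z‖ < t + κ * r₁ / 8 → w ∉ Dp c₂ r₂ μ₂ 1 := by
    rcases le_or_gt (κ * r₁ / 2) ‖c₂ - z‖ with hc | hc
    · refine ⟨κ * r₁ / 4, by positivity, by linarith, fun w _ hw2 hwD => ?_⟩
      have h2 := Dp_ball hr₂ hμ₂ hwD
      rw [Metric.mem_ball, dist_eq_norm] at h2
      have h3 : ‖c₂ - z‖ ≤ ‖w - z‖ + ‖w - c₂‖ := by
        have := norm_sub_le (w - z) (w - c₂)
        rwa [sub_sub_sub_cancel_left] at this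
      linarith
    · refine ⟨3 * (κ * r₁) / 4, by positivity, le_rfl, fun w hw1 _ hwD => ?_⟩
      have h2 := Dp_ball hr₂ hμ₂ hwD
      rw [Metric.mem_ball, dist_eq_norm] at h2
      have h3 : ‖w - z‖ ≤ ‖w - c₂‖ + ‖c₂ - z‖ := by
        have := norm_add_le (w - c₂) (c₂ - z)
        rwa [sub_add_sub_cancel] at this
      linarith
  -- the bound on the circle
  have hpt : ∀ w : ℂ, ‖w - z‖ = t → ‖m w‖ ^ 2 ≤ X / (a * r₁ ^ 2 * (π * (κ * r₁ / 16) ^ 2)) := by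
    intro w hw
    have hs : 0 < κ * r₁ / 16 := by positivity
    have hin : ∀ v ∈ Metric.ball w (κ * r₁ / 16), ‖v - z‖ < t + κ * r₁ / 8 ∧ t - κ * r₁ / 8 < ‖v - z‖ ∧
        ‖v - z‖ < κ * r₁ := by
      intro v hv
      rw [Metric.mem_ball, dist_eq_norm] at hv
      have h2 : ‖v - z‖ ≤ ‖v - w‖ + ‖w - z‖ := by
        have := norm_add_le (v - w) (w - z)
        rwa [sub_add_sub_cancel] at this
      have h3 : ‖w - z‖ ≤ ‖v - w‖ + ‖v - z‖ := by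
        have := norm_sub_le (v - z) (v - w)
        rw [sub_sub_sub_cancel_left] at this
        linarith
      refine ⟨by linarith, by linarith, by linarith⟩
    have hfd : DifferentiableOn ℂ (fun v => m v ^ 2) (Metric.ball w (κ * r₁ / 16)) :=
      (hm.mono fun v hv => hK1 v (hin v hv).2.2).pow 2
    have hA := Gm_area hs hfd
    have hq : 0 < a * r₁ ^ 2 := by positivity
    have hle : ∀ v ∈ Metric.ball w (κ * r₁ / 16), ENNReal.ofReal (a * r₁ ^ 2) * ENNReal.ofReal ‖m v ^ 2‖ ≤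
        ((Dp c₁ r₁ μ₁ 1 \ Dp c₂ r₂ μ₂ 1) ∪ (Dp c₂ r₂ μ₂ 1 \ Dp c₁ r₁ μ₁ 1)).indicator
          (fun z => ENNReal.ofReal (|QQ c₂ r₂ μ₂ z - QQ c₁ r₁ μ₁ z| * ‖m z‖ ^ 2)) v := by
      intro v hv
      obtain ⟨i1, i2, i3⟩ := hin v hv
      have hv2 : v ∉ Dp c₂ r₂ μ₂ 1 := ht2 v i2 i1
      have hv1' : ‖vv c₁ r₁ μ₁ v‖ < σ' := hball v i3
      have hv1 : v ∈ Dp c₁ r₁ μ₁ 1 := lt_trans hv1' s1
      rw [indicator_of_mem (show v ∈ (Dp c₁ r₁ μ₁ 1 \ Dp c₂ r₂ μ₂ 1) ∪ (Dp c₂ r₂ μ₂ 1 \ Dp c₁ r₁ μ₁ 1) from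
        Or.inl ⟨hv1, hv2⟩), ← ENNReal.ofReal_mul hq.le, norm_pow]
      apply ENNReal.ofReal_le_ofReal
      apply mul_le_mul_of_nonneg_right _ (by positivity)
      have hQ2 : 0 ≤ QQ c₂ r₂ μ₂ v := by
        by_contra hcon
        exact hv2 ((QQ_neg_iff hr₂ hμ₂ v).1 (not_le.1 hcon))
      have hQ1 : QQ c₁ r₁ μ₁ v ≤ -(a * r₁ ^ 2) := by
        have h3 : ‖vv c₁ r₁ μ₁ v‖ ^ 2 ≤ σ' ^ 2 := pow_le_pow_left₀ (norm_nonneg _) hv1'.le 2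
        have hk : r₁ ^ 2 * ((1 - μ₀ ^ 2) ^ 2 / 2) ≤ kap r₁ μ₁ := by
          have hm0 := norm_nonneg μ₁
          have h4 : ‖μ₁‖ ^ 2 ≤ μ₀ ^ 2 := pow_le_pow_left₀ hm0 hm1 2
          have h5 : ‖μ₁‖ ^ 2 ≤ 1 := by nlinarith
          have h6 : (1 - μ₀ ^ 2) ^ 2 ≤ (1 - ‖μ₁‖ ^ 2) ^ 2 := pow_le_pow_left₀ hμp.le (by linarith) 2
          unfold kap
          rw [le_div_iff₀ (by positivity)]
          have h7 : r₁ ^ 2 * ((1 - μ₀ ^ 2) ^ 2 / 2) * (1 + ‖μ₁‖ ^ 2) ≤ r₁ ^ 2 * ((1 - μ₀ ^ 2) ^ 2 / 2) * 2 :=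
            mul_le_mul_of_nonneg_left (by linarith) (by positivity)
          have h8 : r₁ ^ 2 * (1 - μ₀ ^ 2) ^ 2 ≤ r₁ ^ 2 * (1 - ‖μ₁‖ ^ 2) ^ 2 :=
            mul_le_mul_of_nonneg_left h6 (by positivity)
          linarith
        have hk0 : 0 < kap r₁ μ₁ := kap_pos hr₁ hμ₁
        unfold QQ
        have h9 : kap r₁ μ₁ * (1 - σ' ^ 2) ≤ kap r₁ μ₁ * (1 - ‖vv c₁ r₁ μ₁ v‖ ^ 2) :=
          mul_le_mul_of_nonneg_left (by linarith) hk0.le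
        have h10 : r₁ ^ 2 * ((1 - μ₀ ^ 2) ^ 2 / 2) * (1 - σ' ^ 2) ≤ kap r₁ μ₁ * (1 - σ' ^ 2) :=
          mul_le_mul_of_nonneg_right hk hs3.le
        have h11 : a * r₁ ^ 2 = r₁ ^ 2 * ((1 - μ₀ ^ 2) ^ 2 / 2) * (1 - σ' ^ 2) := by rw [had]; ring
        linarith
      exact le_trans (by linarith) (le_abs_self _)
    have hE : MeasurableSet ((Dp c₁ r₁ μ₁ 1 \ Dp c₂ r₂ μ₂ 1) ∪ (Dp c₂ r₂ μ₂ 1 \ Dp c₁ r₁ μ₁ 1)) :=
      ((Dp_open _ _ _ _).measurableSet.diff (Dp_open _ _ _ _).measurableSet).union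
        ((Dp_open _ _ _ _).measurableSet.diff (Dp_open _ _ _ _).measurableSet)
    have hB : ENNReal.ofReal (a * r₁ ^ 2) * ENNReal.ofReal (π * (κ * r₁ / 16) ^ 2 * ‖m w ^ 2‖) ≤ ENNReal.ofReal X := by
      calc ENNReal.ofReal (a * r₁ ^ 2) * ENNReal.ofReal (π * (κ * r₁ / 16) ^ 2 * ‖m w ^ 2‖)
          ≤ ENNReal.ofReal (a * r₁ ^ 2) * ∫⁻ v in Metric.ball w (κ * r₁ / 16), ENNReal.ofReal ‖m v ^ 2‖ := by gcongr
        _ = ∫⁻ v in Metric.ball w (κ * r₁ / 16), ENNReal.ofReal (a * r₁ ^ 2) * ENNReal.ofReal ‖m v ^ 2‖ := by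
            rw [lintegral_const_mul' _ _ ENNReal.ofReal_ne_top]
        _ ≤ ∫⁻ v in Metric.ball w (κ * r₁ / 16), ((Dp c₁ r₁ μ₁ 1 \ Dp c₂ r₂ μ₂ 1) ∪ (Dp c₂ r₂ μ₂ 1 \ Dp c₁ r₁ μ₁ 1)).indicator
            (fun z => ENNReal.ofReal (|QQ c₂ r₂ μ₂ z - QQ c₁ r₁ μ₁ z| * ‖m z‖ ^ 2)) v :=
            setLIntegral_mono' measurableSet_ball hle
        _ ≤ ENNReal.ofReal X := by
            rw [← hNi, ← lintegral_indicator hE]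
            exact setLIntegral_le_lintegral _ _
    rw [← ENNReal.ofReal_mul hq.le, ENNReal.ofReal_le_ofReal_iff hNN, norm_pow] at hB
    rw [le_div_iff₀ (by positivity)]
    linarith
  -- maximum principle
  obtain ⟨B, hBd⟩ : ∃ B : ℝ, B = X / (a * r₁ ^ 2 * (π * (κ * r₁ / 16) ^ 2)) := ⟨_, rfl⟩
  have hB0 : 0 ≤ B := by rw [hBd]; positivity
  have hsub : Metric.closedBall z t ⊆ N := by
    intro w hw
    rw [Metric.mem_closedBall, dist_eq_norm] at hw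
    exact hK1 w (by linarith)
  have hd : DiffContOnCl ℂ m (Metric.ball z t) := by
    refine ⟨hm.mono (Metric.ball_subset_closedBall.trans hsub), hm.continuousOn.mono ?_⟩
    exact Metric.closure_ball_subset_closedBall.trans hsub
  have hfr : ∀ w ∈ frontier (Metric.ball z t), ‖m w‖ ≤ Real.sqrt B := by
    intro w hw
    rw [frontier_ball z ht0.ne', Metric.mem_sphere, dist_eq_norm] at hw
    apply Real.le_sqrt_of_sq_le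
    rw [hBd]
    exact hpt w hw
  have h7 := Complex.norm_le_of_forall_mem_frontier_norm_le Metric.isBounded_ball hd hfr
    (subset_closure (Metric.mem_ball_self ht0))
  have h8 : ‖m z‖ ^ 2 ≤ B := by
    calc ‖m z‖ ^ 2 ≤ Real.sqrt B ^ 2 := pow_le_pow_left₀ (norm_nonneg _) h7 2
      _ = B := Real.sq_sqrt hB0
  calc r₁ ^ 4 * ‖m z‖ ^ 2 ≤ r₁ ^ 4 * B := mul_le_mul_of_nonneg_left h8 (by positivity)
    _ = 256 / (a * π * κ ^ 2) * X := by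
        rw [hBd]
        have hp := Real.pi_pos
        field_simp
        norm_num

end EY1
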