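import Pool.Agent.H1.EY.D
import Pool.Agent.H1.EW.Gd

/-!
ROW EY/Za. Coefficients for the unit size ellipse `(0,1,μ)` and a big ellipse `(c,ρ,ν)` whose boundary passes at bounded distance of `0`. `QQ c ρ ν 0 = ‖c‖² - 2 Re (conj (nu ν) c²) - kap ρ ν` (`QQ_eq` or directly), `2‖nu ν‖ ≤ 1 - (1-μ₀)²/2` (`gc_nu_norm` in `EW/Gc.lean`), `kap ρ ν` between `(1-μ₀²)²/2 ρ²` and `ρ²`:
`|QQ c ρ ν 0| ≤ K ρ` gives `‖c‖² ≤ C ρ²` and, for `ρ ≥ ρ₀`, `ρ² ≤ C ‖c‖²`. Apply `core` (`EW/Gd.lean`) with `c₁ = 0`, `r₁ = 1` (`r₀ = R = 1`) and `a₂ z² + a₁ z + a₀ = aa 0 1 μ c ρ ν z / ρ`: `a₂ = -2 conj (nu ν - nu μ)/ρ`, `a₁ = -2 (gg c ν - gg 0 μ)/ρ = -2 gg c ν/ρ`, `a₀ = (hh c ρ ν - hh 0 1 μ)/ρ`;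
`aa_re`: real part is `(QQ c ρ ν - QQ 0 1 μ)/ρ`. `|a₀| = |QQ c ρ ν 0 - QQ 0 1 μ 0|/ρ ≤ K + 1`, `‖a₂‖ ≤ 4`, `‖a₁‖ ≤ C`, and `‖gg c ν‖ ≥ (1 - 2‖nu ν‖) ‖c‖`, so `‖a₁‖ ≥ 1/C`.
-/

set_option autoImplicit false

namespace EY1

open Complex Set Filter Topology MeasureTheory EW1 EX1
open scoped ComplexConjugate ContDiff Real

theorem bigc {μ₀ K : ℝ} (h0 : 0 ≤ μ₀) (h1 : μ₀ < 1) (hK : 0 < K) : ∃ ρ₀ C : ℝ, 1 ≤ ρ₀ ∧ 0 < C ∧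
    ∀ (μ c : ℂ) (ρ : ℝ) (ν : ℂ), ‖μ‖ ≤ μ₀ → ‖ν‖ ≤ μ₀ → ρ₀ ≤ ρ → |QQ c ρ ν 0| ≤ K * ρ →
      ‖c‖ ≤ C * ρ ∧ ρ ≤ C * ‖c‖ ∧ ∃ (e₀ E : ℝ) (e₁ e₂ : ℂ),
        (∀ v : ℂ, (((QQ c ρ ν (zz 0 1 μ v) - QQ 0 1 μ (zz 0 1 μ v)) / ρ : ℝ) : ℂ) =
          Ut e₀ e₁ e₂ v + E * ((‖v‖ ^ 2 - 1 : ℝ) : ℂ)) ∧
        |E| ≤ C ∧ |e₀| + ‖e₁‖ + ‖e₂‖ ≤ C ∧ 1 ≤ C * (|e₀| + ‖e₁‖ + ‖e₂‖) := by
  have hm : 0 < 1 - μ₀ ^ 2 := by nlinarith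
  have hm' : 0 < 1 - μ₀ := by linarith
  obtain ⟨θ, hθ⟩ : ∃ θ : ℝ, θ = (1 - μ₀) ^ 2 / 2 := ⟨_, rfl⟩
  obtain ⟨κ, hκ⟩ : ∃ κ : ℝ, κ = (1 - μ₀ ^ 2) ^ 2 / 2 := ⟨_, rfl⟩
  have hθ0 : 0 < θ := by rw [hθ]; positivity
  have hκ0 : 0 < κ := by rw [hκ]; positivity
  obtain ⟨M, L, hM0, hL0, hcore⟩ := core (r₀ := 1) (R := 1) one_pos le_rfl h0 h1
  obtain ⟨C₁, hC₁⟩ : ∃ C₁ : ℝ, C₁ = (K + 1) / θ + 1 := ⟨_, rfl⟩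
  obtain ⟨C₂, hC₂⟩ : ∃ C₂ : ℝ, C₂ = 4 / κ + 1 := ⟨_, rfl⟩
  obtain ⟨T₁, hT₁⟩ : ∃ T₁ : ℝ, T₁ = 4 + 4 * C₁ + (K + 1) := ⟨_, rfl⟩
  have hKθ : 0 < (K + 1) / θ := by positivity
  have h4κ : 0 < 4 / κ := by positivity
  have hKκ : 0 < 2 * K / κ := by positivity
  have hC₁1 : 1 ≤ C₁ := by linarith
  have hC₂1 : 1 ≤ C₂ := by linarith
  have hT₁0 : 0 < T₁ := by linarith
  have hMT : 0 < M * T₁ := mul_pos hM0 hT₁0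
  have hCL : 0 < C₂ * L / (2 * θ) := by positivity
  refine ⟨2 * K / κ + 1, C₁ + C₂ + M * T₁ + C₂ * L / (2 * θ), by linarith, by linarith, ?_⟩
  intro μ c ρ ν hμ hν hρ hQ
  have hρ1 : 1 ≤ ρ := by linarith
  have hρ0 : 0 < ρ := by linarith
  have hμ1 : ‖μ‖ < 1 := lt_of_le_of_lt hμ h1
  have hν1 : ‖ν‖ < 1 := lt_of_le_of_lt hν h1
  obtain ⟨hn1, hn2⟩ := gc_nu_norm h0 h1 hν
  obtain ⟨hm1, -⟩ := gc_nu_norm h0 h1 hμ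
  rw [← hθ] at hn2
  have hQ0 : QQ c ρ ν 0 = hh c ρ ν := by
    rw [QQ_eq hρ0 hν1]
    simp
  have hhh : hh c ρ ν = ‖c‖ ^ 2 - 2 * (conj (nu ν) * c ^ 2).re - kap ρ ν := rfl
  have hre : |(conj (nu ν) * c ^ 2).re| ≤ ‖nu ν‖ * ‖c‖ ^ 2 := by
    refine (Complex.abs_re_le_norm _).trans ?_
    rw [norm_mul, norm_pow, Complex.norm_conj]
  have hx1 : ‖ν‖ ^ 2 ≤ 1 := by nlinarith [norm_nonneg ν]
  have hk1 : kap ρ ν ≤ ρ ^ 2 := by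
    unfold kap
    rw [div_le_iff₀ (by positivity)]
    have h3 : (1 - ‖ν‖ ^ 2) ^ 2 ≤ 1 + ‖ν‖ ^ 2 := by nlinarith [sq_nonneg ‖ν‖]
    exact mul_le_mul_of_nonneg_left h3 (sq_nonneg ρ)
  have hk2 : κ * ρ ^ 2 ≤ kap ρ ν := by
    unfold kap
    rw [le_div_iff₀ (by positivity)]
    have h3 : (1 - μ₀ ^ 2) ^ 2 ≤ (1 - ‖ν‖ ^ 2) ^ 2 := by
      apply pow_le_pow_left₀ hm.le
      have := pow_le_pow_left₀ (norm_nonneg ν) hν 2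
      linarith
    have h4 : κ * (1 + ‖ν‖ ^ 2) ≤ κ * 2 := mul_le_mul_of_nonneg_left (by linarith) hκ0.le
    have h5 : κ * (1 + ‖ν‖ ^ 2) ≤ (1 - ‖ν‖ ^ 2) ^ 2 := by
      have : κ * 2 = (1 - μ₀ ^ 2) ^ 2 := by rw [hκ]; ring
      linarith
    have h6 := mul_le_mul_of_nonneg_left h5 (sq_nonneg ρ)
    calc κ * ρ ^ 2 * (1 + ‖ν‖ ^ 2) = ρ ^ 2 * (κ * (1 + ‖ν‖ ^ 2)) := by ring
      _ ≤ _ := h6
  have hab := abs_le.1 hQ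
  have hrb := abs_le.1 hre
  have hKρ : K * ρ ≤ K * ρ ^ 2 := by
    have : ρ ≤ ρ ^ 2 := le_self_pow₀ hρ1 two_ne_zero
    exact mul_le_mul_of_nonneg_left this hK.le
  have hs0 : 0 ≤ ‖c‖ ^ 2 := sq_nonneg _
  have hup : θ * ‖c‖ ^ 2 ≤ (K + 1) * ρ ^ 2 := by
    have h3 := mul_le_mul_of_nonneg_right hn2 hs0
    have h4 : (1 - 2 * ‖nu ν‖) * ‖c‖ ^ 2 = ‖c‖ ^ 2 - 2 * (‖nu ν‖ * ‖c‖ ^ 2) := by ring
    rw [h4] at h3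
    rw [hQ0, hhh] at hab
    linarith [hab.2, hrb.1, hrb.2]
  have hcup : ‖c‖ ≤ C₁ * ρ := by
    apply (pow_le_pow_iff_left₀ (norm_nonneg c) (by positivity) two_ne_zero).1
    have h3 : ‖c‖ ^ 2 ≤ (K + 1) / θ * ρ ^ 2 := by
      rw [div_mul_eq_mul_div, le_div_iff₀ hθ0]
      linarith
    have h4 : (K + 1) / θ * ρ ^ 2 ≤ C₁ * ρ ^ 2 := mul_le_mul_of_nonneg_right (by linarith) (sq_nonneg _)
    have h5 : C₁ * ρ ^ 2 ≤ C₁ ^ 2 * ρ ^ 2 :=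
      mul_le_mul_of_nonneg_right (le_self_pow₀ hC₁1 two_ne_zero) (sq_nonneg _)
    rw [mul_pow]
    linarith
  have hlo : κ / 2 * ρ ^ 2 ≤ 2 * ‖c‖ ^ 2 := by
    have h3 : 2 * (‖nu ν‖ * ‖c‖ ^ 2) ≤ ‖c‖ ^ 2 := by
      have : 2 * ‖nu ν‖ ≤ 1 := by linarith
      calc 2 * (‖nu ν‖ * ‖c‖ ^ 2) = (2 * ‖nu ν‖) * ‖c‖ ^ 2 := by ring
        _ ≤ 1 * ‖c‖ ^ 2 := mul_le_mul_of_nonneg_right this hs0
        _ = ‖c‖ ^ 2 := one_mul _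
    have h4 : K * ρ ≤ κ / 2 * ρ ^ 2 := by
      have h5 : 2 * K / κ ≤ ρ := by linarith
      rw [div_le_iff₀ hκ0] at h5
      have h6 : K * ρ ≤ (κ / 2 * ρ) * ρ := mul_le_mul_of_nonneg_right (by linarith) hρ0.le
      calc K * ρ ≤ (κ / 2 * ρ) * ρ := h6
        _ = κ / 2 * ρ ^ 2 := by ring
    rw [hQ0, hhh] at hab
    linarith [hab.1, hrb.1, hrb.2]
  have hclo : ρ ≤ C₂ * ‖c‖ := by
    apply (pow_le_pow_iff_left₀ hρ0.le (by positivity) two_ne_zero).1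
    have h3 : ρ ^ 2 ≤ 4 / κ * ‖c‖ ^ 2 := by
      rw [div_mul_eq_mul_div, le_div_iff₀ hκ0]
      linarith
    have h4 : 4 / κ * ‖c‖ ^ 2 ≤ C₂ * ‖c‖ ^ 2 := mul_le_mul_of_nonneg_right (by linarith) hs0
    have h5 : C₂ * ‖c‖ ^ 2 ≤ C₂ ^ 2 * ‖c‖ ^ 2 :=
      mul_le_mul_of_nonneg_right (le_self_pow₀ hC₂1 two_ne_zero) hs0
    rw [mul_pow]
    linarith
  have hCρ : (C₁ : ℝ) * ρ ≤ (C₁ + C₂ + M * T₁ + C₂ * L / (2 * θ)) * ρ :=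
    mul_le_mul_of_nonneg_right (by linarith) hρ0.le
  have hCc : C₂ * ‖c‖ ≤ (C₁ + C₂ + M * T₁ + C₂ * L / (2 * θ)) * ‖c‖ :=
    mul_le_mul_of_nonneg_right (by linarith) (norm_nonneg c)
  refine ⟨hcup.trans hCρ, hclo.trans hCc, ?_⟩
  have hnρ : ‖(ρ : ℂ)‖ = ρ := by rw [Complex.norm_real, Real.norm_of_nonneg hρ0.le]
  have hρne : (ρ : ℂ) ≠ 0 := by exact_mod_cast hρ0.ne'
  obtain ⟨a₂, ha₂⟩ : ∃ a₂ : ℂ, a₂ = -(2 * conj (nu ν - nu μ)) / ρ := ⟨_, rfl⟩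
  obtain ⟨a₁, ha₁⟩ : ∃ a₁ : ℂ, a₁ = -(2 * (gg c ν - gg 0 μ)) / ρ := ⟨_, rfl⟩
  obtain ⟨a₀, ha₀⟩ : ∃ a₀ : ℝ, a₀ = (hh c ρ ν - hh 0 1 μ) / ρ := ⟨_, rfl⟩
  obtain ⟨e₀, E, e₁, e₂, hid, hb1, hb2, hb3⟩ := hcore a₂ a₁ 0 μ a₀ 1 (by simp) le_rfl le_rfl hμ
  have hna₂ : ‖a₂‖ ≤ 4 := by
    rw [ha₂, norm_div, norm_neg, norm_mul, Complex.norm_two, Complex.norm_conj, hnρ, div_le_iff₀ hρ0]
    have h3 := norm_sub_le (nu ν) (nu μ)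
    linarith
  have hgg0 : gg 0 μ = 0 := by
    unfold gg
    simp
  have hggn : ‖gg c ν‖ ≤ 2 * ‖c‖ := by
    unfold gg
    refine (norm_sub_le _ _).trans ?_
    rw [norm_mul, norm_mul, Complex.norm_two, Complex.norm_conj, Complex.norm_conj]
    have h3 : 2 * ‖nu ν‖ ≤ 1 := by linarith
    have h4 := mul_le_mul_of_nonneg_right h3 (norm_nonneg c)
    linarith
  have hggl : θ * ‖c‖ ≤ ‖gg c ν‖ := by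
    unfold gg
    have h3 := norm_sub_norm_le (conj c) (2 * conj (nu ν) * c)
    rw [norm_mul, norm_mul, Complex.norm_two, Complex.norm_conj, Complex.norm_conj] at h3
    have h4 := mul_le_mul_of_nonneg_right hn2 (norm_nonneg c)
    linarith
  have hna₁e : ‖a₁‖ = 2 * ‖gg c ν‖ / ρ := by
    rw [ha₁, hgg0, sub_zero, norm_div, norm_neg, norm_mul, Complex.norm_two, hnρ]
  have hna₁ : ‖a₁‖ ≤ 4 * C₁ := by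
    rw [hna₁e, div_le_iff₀ hρ0]
    linarith
  have hna₁l : 2 * θ / C₂ ≤ ‖a₁‖ := by
    rw [hna₁e, div_le_div_iff₀ (by linarith) hρ0]
    have h3 : θ * ρ ≤ θ * (C₂ * ‖c‖) := mul_le_mul_of_nonneg_left hclo hθ0.le
    have h4 : C₂ * (θ * ‖c‖) ≤ C₂ * ‖gg c ν‖ := mul_le_mul_of_nonneg_left hggl (by linarith)
    linarith
  have hk0 : |hh 0 1 μ| ≤ 1 := by
    have hx2 : ‖μ‖ ^ 2 ≤ 1 := by nlinarith [norm_nonneg μ]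
    have h3 : hh 0 1 μ = - kap 1 μ := by
      unfold hh
      simp
    have h4 : kap 1 μ ≤ 1 := by
      unfold kap
      rw [div_le_iff₀ (by positivity)]
      nlinarith [sq_nonneg ‖μ‖]
    have h5 : 0 ≤ kap 1 μ := by
      unfold kap
      positivity
    rw [h3, abs_neg, abs_of_nonneg h5]
    exact h4
  have hna₀ : |a₀| ≤ K + 1 := by
    rw [ha₀, abs_div, abs_of_pos hρ0, div_le_iff₀ hρ0]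
    have h3 := abs_sub (hh c ρ ν) (hh 0 1 μ)
    rw [← hQ0] at h3 ⊢
    linarith
  have hT : ‖a₂‖ + ‖a₁‖ + |a₀| ≤ T₁ := by linarith
  have hMT' : M * (‖a₂‖ + ‖a₁‖ + |a₀|) ≤ C₁ + C₂ + M * T₁ + C₂ * L / (2 * θ) := by
    have h3 := mul_le_mul_of_nonneg_left hT hM0.le
    linarith
  refine ⟨e₀, E, e₁, e₂, ?_, hb1.trans hMT', hb2.trans hMT', ?_⟩
  · intro v
    rw [← hid v, ← aa_re one_pos hρ0 hμ1 hν1]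
    have h3 : a₂ * zz 0 1 μ v ^ 2 + a₁ * zz 0 1 μ v + (a₀ : ℂ) = aa 0 1 μ c ρ ν (zz 0 1 μ v) / (ρ : ℂ) := by
      rw [ha₂, ha₁, ha₀]
      unfold aa
      push_cast
      field_simp
      ring
    rw [h3, Complex.div_ofReal_re]
  · have hS0 : 0 ≤ |e₀| + ‖e₁‖ + ‖e₂‖ := by positivity
    have h3 : 2 * θ / C₂ ≤ L * (|e₀| + ‖e₁‖ + ‖e₂‖) := by
      have h4 := norm_nonneg a₂
      have h5 := abs_nonneg a₀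
      linarith
    have h6 : 1 ≤ C₂ * L / (2 * θ) * (|e₀| + ‖e₁‖ + ‖e₂‖) := by
      rw [div_mul_eq_mul_div, le_div_iff₀ (by positivity)]
      rw [div_le_iff₀ (by linarith)] at h3
      linarith
    refine h6.trans (mul_le_mul_of_nonneg_right (by linarith) hS0)

end EY1
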