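import Pool.Agent.H1.EY.Za
import Pool.Agent.H1.EW.Gs

/-!
ROW EY/Zb. Data of the elimination. Compare `setup` in `EW/Gs.lean` (same construction). Take `e₀ E e₁ e₂` from `bigc`, `v = vv 0 1 μ z` (`zz 0 1 μ v = v + μ conj v = z`), `κ = ‖e₂‖ + ‖e₁‖ ‖μ‖ + |e₀| ‖μ‖²`. If `κ > 0`:
`P z = Fb μ (sj μ e₀ e₁ e₂) z / κ`, `V = Vt μ e₀ e₁ e₂ v / κ`, `y = (QQ c ρ ν z/ρ) V`. `elim` (`EW/Ge.lean`): `Fb = Ut Vt + (1-‖v‖²) Wt`, and `QQ c ρ ν z/ρ = QQ 0 1 μ z/ρ + Ut + E (‖v‖²-1)`, `QQ 0 1 μ z = kap 1 μ (‖v‖²-1)`, so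
`y - P = QQ 0 1 μ z * Z`, `Z = (1/ρ + E/kap) V + Wt/(kap κ)`. All are polynomials in `v`, `conj v` (degree at most 4) with coefficients bounded by a constant (`‖sj j‖ ≤ C (|e₀|+‖e₁‖+‖e₂‖) κ`: `elim_le`; the coefficients of `Vt` are `≤ κ`; for `Wt` each coefficient is bounded by `C (|e₀|+‖e₁‖+‖e₂‖) κ`,
see the proof of `elim_le`), `‖v‖ ≤ ‖z‖/(1-μ₀)`: growth bounds. `|QQ c ρ ν z| ≤ C ρ (1+‖z‖)²` from the formula with `Ut`, `E`.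
Lower bound: `sj_lb` (`EW/Gf.lean`): `∑ ‖sj j‖/κ ≥ c (|e₀|+‖e₁‖+‖e₂‖) ≥ c'`; `Cur` (`EW/Gg.lean`) gives `τ` (the curve is `‖v‖ = τ`, `P z = Fb .. (v + μ conj v)/κ`).
If `κ = 0`: then `μ = 0`, `e₂ = 0` (otherwise all are zero): take `V = z²`, `P = e₁ z³ + e₀ z² + conj e₁ z` (`= Fb 0 ![0, conj e₁, e₀, e₁, 0] z`), `v = z`: `z² Ut = P + conj e₁ z (‖z‖² - 1)`; `Cur` again.
-/

set_option autoImplicit false

namespace EY1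

open Complex Set Filter Topology MeasureTheory EW1 EX1
open scoped ComplexConjugate ContDiff Real

/-- explicit form of `elim_le` -/
theorem Zb_elim {T : ℝ} (hT : 0 ≤ T) {μ : ℂ} {e₀ : ℝ} {e₁ e₂ v : ℂ} (hμ : ‖μ‖ ≤ 1) (hv : ‖v‖ ≤ T) :
    ‖Vt μ e₀ e₁ e₂ v‖ ≤ 100 * (1 + T) ^ 2 * (‖e₂‖ + ‖e₁‖ * ‖μ‖ + |e₀| * ‖μ‖ ^ 2) ∧
    ‖Wt μ e₀ e₁ e₂ v‖ ≤ 100 * (1 + T) ^ 2 * (|e₀| + ‖e₁‖ + ‖e₂‖) * (‖e₂‖ + ‖e₁‖ * ‖μ‖ + |e₀| * ‖μ‖ ^ 2) ∧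
    (∀ j, ‖sj μ e₀ e₁ e₂ j‖ ≤ 100 * (|e₀| + ‖e₁‖ + ‖e₂‖) * (‖e₂‖ + ‖e₁‖ * ‖μ‖ + |e₀| * ‖μ‖ ^ 2)) := by
  obtain ⟨S, hS⟩ : ∃ S : ℝ, S = |e₀| + ‖e₁‖ + ‖e₂‖ := ⟨_, rfl⟩
  obtain ⟨M, hM⟩ : ∃ M : ℝ, M = ‖e₂‖ + ‖e₁‖ * ‖μ‖ + |e₀| * ‖μ‖ ^ 2 := ⟨_, rfl⟩
  rw [← hS, ← hM]
  have a0 : 0 ≤ |e₀| := abs_nonneg _
  have b0 : 0 ≤ ‖e₁‖ := norm_nonneg _
  have c0 : 0 ≤ ‖e₂‖ := norm_nonneg _
  have m0 : 0 ≤ ‖μ‖ := norm_nonneg _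
  have n0 : 0 ≤ ‖v‖ := norm_nonneg _
  have bm : 0 ≤ ‖e₁‖ * ‖μ‖ := by positivity
  have am : 0 ≤ |e₀| * ‖μ‖ ^ 2 := by positivity
  have hS0 : 0 ≤ S := by rw [hS]; positivity
  have hM0 : 0 ≤ M := by rw [hM]; positivity
  have p2 : ‖μ‖ ^ 2 ≤ 1 := pow_le_one₀ m0 hμ
  have p4 : ‖μ‖ ^ 4 ≤ 1 := pow_le_one₀ m0 hμ
  have p3 : ‖μ‖ ^ 3 ≤ ‖μ‖ := by
    calc ‖μ‖ ^ 3 = ‖μ‖ ^ 2 * ‖μ‖ := by ring
      _ ≤ 1 * ‖μ‖ := mul_le_mul_of_nonneg_right p2 m0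
      _ = ‖μ‖ := one_mul _
  have ne0 : ‖(e₀ : ℂ)‖ = |e₀| := by rw [Complex.norm_real, Real.norm_eq_abs]
  have f0 : ‖(e₀ : ℂ)‖ ≤ S := by rw [ne0, hS]; linarith
  have f1 : ‖e₁‖ ≤ S := by rw [hS]; linarith
  have f2 : ‖e₂‖ ≤ S := by rw [hS]; linarith
  have f1' : ‖conj e₁‖ ≤ S := by rw [RCLike.norm_conj]; exact f1
  have f2' : ‖conj e₂‖ ≤ S := by rw [RCLike.norm_conj]; exact f2
  have g2 : ‖e₂‖ ≤ M := by rw [hM]; linarith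
  have g2' : ‖conj e₂‖ ≤ M := by rw [RCLike.norm_conj]; exact g2
  have g1 : ‖e₁ * μ‖ ≤ M := by rw [norm_mul, hM]; linarith
  have g1' : ‖conj e₁ * μ‖ ≤ M := by rw [norm_mul, RCLike.norm_conj, hM]; linarith
  have g0 : ‖(e₀ : ℂ) * μ ^ 2‖ ≤ M := by rw [norm_mul, norm_pow, ne0, hM]; linarith
  have g3 : ‖e₁ * μ ^ 3‖ ≤ M := by
    rw [norm_mul, norm_pow]
    refine (mul_le_mul_of_nonneg_left p3 b0).trans ?_
    rw [hM]; linarith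
  have g4 : ‖e₂ * μ ^ 4‖ ≤ M := by
    rw [norm_mul, norm_pow]
    refine (mul_le_mul_of_nonneg_left p4 c0).trans ?_
    rw [hM]; linarith
  have hvc : ‖conj v‖ ≤ T := by rw [RCLike.norm_conj]; exact hv
  have hv2 : ‖v ^ 2‖ ≤ T ^ 2 := by
    rw [norm_pow]; exact pow_le_pow_left₀ n0 hv 2
  have hvc2 : ‖conj v ^ 2‖ ≤ T ^ 2 := by
    rw [norm_pow]; exact pow_le_pow_left₀ (norm_nonneg _) hvc 2
  have hvv : ‖v * conj v‖ ≤ T * T := norm_mul_le_of_le hv hvc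
  have one1 : ‖(1 : ℂ)‖ ≤ 1 := by rw [norm_one]
  have hX : 0 ≤ S * M := mul_nonneg hS0 hM0
  have hXT : 0 ≤ S * M * T := mul_nonneg hX hT
  have hXT2 : 0 ≤ S * M * T ^ 2 := mul_nonneg hX (sq_nonneg T)
  have s0 : ‖sj μ e₀ e₁ e₂ 0‖ ≤ 5 * (S * M) := by
    have e : sj μ e₀ e₁ e₂ 0 = e₂ * (e₂ * μ ^ 4) + e₁ * (e₁ * μ ^ 3) + e₀ * (e₀ * μ ^ 2) + conj e₁ * (conj e₁ * μ) +
        conj e₂ * conj e₂ := by
      have : sj μ e₀ e₁ e₂ 0 = e₂ ^ 2 * μ ^ 4 + e₁ ^ 2 * μ ^ 3 + e₀ ^ 2 * μ ^ 2 + conj e₁ ^ 2 * μ + conj e₂ ^ 2 := rfl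
      rw [this]; ring
    rw [e]
    refine (norm_add_le_of_le (norm_add_le_of_le (norm_add_le_of_le (norm_add_le_of_le (norm_mul_le_of_le f2 g4)
      (norm_mul_le_of_le f1 g3)) (norm_mul_le_of_le f0 g0)) (norm_mul_le_of_le f1' g1')) (norm_mul_le_of_le f2' g2')).trans ?_
    linarith
  have s1 : ‖sj μ e₀ e₁ e₂ 1‖ ≤ 4 * (S * M) := by
    have e : sj μ e₀ e₁ e₂ 1 = e₂ * (e₁ * μ ^ 3) + e₁ * (e₀ * μ ^ 2) + e₀ * (conj e₁ * μ) + conj e₁ * conj e₂ := by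
      have : sj μ e₀ e₁ e₂ 1 = e₂ * e₁ * μ ^ 3 + e₁ * e₀ * μ ^ 2 + e₀ * conj e₁ * μ + conj e₁ * conj e₂ := rfl
      rw [this]; ring
    rw [e]
    refine (norm_add_le_of_le (norm_add_le_of_le (norm_add_le_of_le (norm_mul_le_of_le f2 g3)
      (norm_mul_le_of_le f1 g0)) (norm_mul_le_of_le f0 g1')) (norm_mul_le_of_le f1' g2')).trans ?_
    linarith
  have s2 : ‖sj μ e₀ e₁ e₂ 2‖ ≤ 3 * (S * M) := by
    have e : sj μ e₀ e₁ e₂ 2 = e₂ * (e₀ * μ ^ 2) + e₁ * (conj e₁ * μ) + e₀ * conj e₂ := by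
      have : sj μ e₀ e₁ e₂ 2 = e₂ * e₀ * μ ^ 2 + e₁ * conj e₁ * μ + e₀ * conj e₂ := rfl
      rw [this]; ring
    rw [e]
    refine (norm_add_le_of_le (norm_add_le_of_le (norm_mul_le_of_le f2 g0)
      (norm_mul_le_of_le f1 g1')) (norm_mul_le_of_le f0 g2')).trans ?_
    linarith
  have s3 : ‖sj μ e₀ e₁ e₂ 3‖ ≤ 2 * (S * M) := by
    have e : sj μ e₀ e₁ e₂ 3 = e₂ * (conj e₁ * μ) + e₁ * conj e₂ := by
      have : sj μ e₀ e₁ e₂ 3 = e₂ * conj e₁ * μ + e₁ * conj e₂ := rfl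
      rw [this]; ring
    rw [e]
    refine (norm_add_le_of_le (norm_mul_le_of_le f2 g1') (norm_mul_le_of_le f1 g2')).trans ?_
    linarith
  have s4 : ‖sj μ e₀ e₁ e₂ 4‖ ≤ S * M := by
    have e : sj μ e₀ e₁ e₂ 4 = e₂ * conj e₂ := rfl
    rw [e]
    exact norm_mul_le_of_le f2 g2'
  have h2 : ‖(2 : ℂ)‖ ≤ 2 := by norm_num
  have h3 : ‖(3 : ℂ)‖ ≤ 3 := by norm_num
  have h4 : ‖(4 : ℂ)‖ ≤ 4 := by norm_num
  have hμ2 : ‖μ ^ 2‖ ≤ 1 := by rw [norm_pow]; exact p2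
  have hμ3 : ‖μ ^ 3‖ ≤ 1 := by rw [norm_pow]; exact p3.trans hμ
  refine ⟨?_, ?_, ?_⟩
  · have e : Vt μ e₀ e₁ e₂ v = conj e₂ * v ^ 2 + conj e₁ * μ * v + e₀ * μ ^ 2 + e₁ * μ ^ 3 * conj v +
        e₂ * μ ^ 4 * conj v ^ 2 := rfl
    rw [e]
    refine (norm_add_le_of_le (norm_add_le_of_le (norm_add_le_of_le (norm_add_le_of_le (norm_mul_le_of_le g2' hv2)
      (norm_mul_le_of_le g1' hv)) g0) (norm_mul_le_of_le g3 hvc)) (norm_mul_le_of_le g4 hvc2)).trans ?_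
    have hMT : 0 ≤ M * T := mul_nonneg hM0 hT
    have hMT2 : 0 ≤ M * T ^ 2 := mul_nonneg hM0 (sq_nonneg T)
    have e2 : 100 * (1 + T) ^ 2 * M = 100 * M + 200 * (M * T) + 100 * (M * T ^ 2) := by ring
    rw [e2]
    linarith
  · unfold Wt
    refine (norm_sub_le_of_le (norm_add_le_of_le (norm_add_le_of_le (norm_add_le_of_le (norm_add_le_of_le
      (norm_add_le_of_le (norm_add_le_of_le (norm_add_le_of_le
        (norm_mul_le_of_le (norm_mul_le_of_le f2 g3) hv)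
        (norm_mul_le_of_le (norm_mul_le_of_le f2 g4) (norm_add_le_of_le hvv one1)))
        (norm_mul_le_of_le f1 g3))
        (norm_mul_le_of_le (norm_mul_le_of_le f1 g4) hvc))
        (norm_mul_le_of_le f1' g1'))
        (norm_mul_le_of_le (norm_mul_le_of_le f1' g2') hv))
        (norm_mul_le_of_le (norm_mul_le_of_le f2' g1') hvc))
        (norm_mul_le_of_le (norm_mul_le_of_le f2' g2') (norm_add_le_of_le hvv one1)))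
      (norm_add_le_of_le (norm_add_le_of_le
        (norm_mul_le_of_le s2 (norm_mul_le_of_le h2 hμ))
        (norm_mul_le_of_le s3 (norm_mul_le_of_le (norm_mul_le_of_le h3 hμ)
          (norm_add_le_of_le hv (norm_mul_le_of_le hμ hvc)))))
        (norm_mul_le_of_le s4 (norm_add_le_of_le (norm_add_le_of_le
          (norm_mul_le_of_le (norm_mul_le_of_le h4 hμ) hv2)
          (norm_mul_le_of_le (norm_mul_le_of_le h4 hμ3) hvc2))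
          (norm_mul_le_of_le (norm_mul_le_of_le h2 hμ2)
            (norm_sub_le_of_le (norm_mul_le_of_le h3 hvv) one1)))))).trans ?_
    have e2 : 100 * (1 + T) ^ 2 * S * M = 100 * (S * M) + 200 * (S * M * T) + 100 * (S * M * T ^ 2) := by ring
    rw [e2]
    nlinarith [hX, hXT, hXT2]
  · have e2 : 100 * S * M = 100 * (S * M) := by ring
    rw [e2]
    intro j
    fin_cases j
    · exact s0.trans (by linarith)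
    · exact s1.trans (by linarith)
    · exact s2.trans (by linarith)
    · exact s3.trans (by linarith)
    · exact s4.trans (by linarith)

theorem Zb_dy {B₁ B₂ B₃ B₄ : ℝ} (h1 : 0 ≤ B₁) (h2 : 0 ≤ B₂) (h3 : 0 ≤ B₃) (h4 : 0 ≤ B₄) {q : ℂ → ℝ} {V y : ℂ → ℂ}
    (hy : Differentiable ℝ y) (hyq : ∀ z, y z = ((q z : ℝ) : ℂ) * V z)
    (hV1 : ∀ z, ‖V z‖ ≤ B₁ * (1 + ‖z‖) ^ 2)
    (hV2 : ∀ T : ℝ, 0 ≤ T → ∀ z w, ‖z‖ ≤ T → ‖w‖ ≤ T → ‖V z - V w‖ ≤ B₂ * (1 + T) * ‖z - w‖)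
    (hq1 : ∀ z, |q z| ≤ B₃ * (1 + ‖z‖) ^ 2)
    (hq2 : ∀ T : ℝ, 0 ≤ T → ∀ z w, ‖z‖ ≤ T → ‖w‖ ≤ T → |q z - q w| ≤ B₄ * (1 + T) * ‖z - w‖) (z : ℂ) :
    ‖dbar y z‖ ≤ (8 * B₃ * B₂ + 2 * B₄ * B₁) * (1 + ‖z‖) ^ 4 := by
  have n0 : 0 ≤ ‖z‖ := norm_nonneg z
  have key : ‖dbar y z‖ ≤ (8 * B₃ * B₂ + 2 * B₄ * B₁) * (1 + ‖z‖) ^ 3 := by
    refine Gs_dbar (hy z) (by positivity) ?_
    filter_upwards [Metric.ball_mem_nhds z one_pos] with w hw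
    have hw1 : ‖w‖ ≤ 1 + ‖z‖ := by
      have h5 : ‖w - z‖ < 1 := by
        rw [← dist_eq_norm]
        exact hw
      have h6 : ‖w‖ ≤ ‖w - z‖ + ‖z‖ := by
        have := norm_add_le (w - z) z
        rwa [sub_add_cancel] at this
      linarith
    have e : y w - y z = ((q w : ℝ) : ℂ) * (V w - V z) + ((q w - q z : ℝ) : ℂ) * V z := by
      rw [hyq, hyq]
      push_cast
      ring
    have n1 : ‖((q w : ℝ) : ℂ)‖ ≤ B₃ * (2 * (1 + ‖z‖)) ^ 2 := by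
      rw [Complex.norm_real, Real.norm_eq_abs]
      refine (hq1 w).trans ?_
      have : 1 + ‖w‖ ≤ 2 * (1 + ‖z‖) := by linarith
      have nw : 0 ≤ ‖w‖ := norm_nonneg w
      gcongr
    have n2 : ‖((q w - q z : ℝ) : ℂ)‖ ≤ B₄ * (2 * (1 + ‖z‖)) * ‖w - z‖ := by
      rw [Complex.norm_real, Real.norm_eq_abs]
      refine (hq2 (1 + ‖z‖) (by linarith) w z hw1 (by linarith)).trans ?_
      have : 1 + (1 + ‖z‖) ≤ 2 * (1 + ‖z‖) := by linarith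
      gcongr
    have n3 : ‖V w - V z‖ ≤ B₂ * (2 * (1 + ‖z‖)) * ‖w - z‖ := by
      refine (hV2 (1 + ‖z‖) (by linarith) w z hw1 (by linarith)).trans ?_
      have : 1 + (1 + ‖z‖) ≤ 2 * (1 + ‖z‖) := by linarith
      gcongr
    rw [e]
    refine (norm_add_le_of_le (norm_mul_le_of_le n1 n3) (norm_mul_le_of_le n2 (hV1 z))).trans (le_of_eq ?_)
    ring
  refine key.trans ?_
  have h5 : (1 + ‖z‖) ^ 3 ≤ (1 + ‖z‖) ^ 4 := pow_le_pow_right₀ (by linarith) (by norm_num)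
  have h6 : 0 ≤ 8 * B₃ * B₂ + 2 * B₄ * B₁ := by positivity
  exact mul_le_mul_of_nonneg_left h5 h6

/-- the function of the big ellipse in the coordinate of the small one -/
theorem Zb_g {C₀ T a : ℝ} (hC₀ : 0 ≤ C₀) (hT : 0 ≤ T) {e₀ : ℝ} {e₁ e₂ : ℂ} (ha : |a| ≤ 1 + C₀)
    (hS : |e₀| + ‖e₁‖ + ‖e₂‖ ≤ C₀) {v w : ℂ} (hv : ‖v‖ ≤ T) (hw : ‖w‖ ≤ T) :
    ‖(a : ℂ) * ((‖v‖ ^ 2 - 1 : ℝ) : ℂ) + Ut e₀ e₁ e₂ v‖ ≤ (1 + 3 * C₀) * (1 + T) ^ 2 ∧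
    ‖((a : ℂ) * ((‖v‖ ^ 2 - 1 : ℝ) : ℂ) + Ut e₀ e₁ e₂ v) - ((a : ℂ) * ((‖w‖ ^ 2 - 1 : ℝ) : ℂ) + Ut e₀ e₁ e₂ w)‖ ≤
      (2 + 6 * C₀) * (1 + T) * ‖v - w‖ := by
  have a0 : 0 ≤ |e₀| := abs_nonneg _
  have b0 : 0 ≤ ‖e₁‖ := norm_nonneg _
  have c0 : 0 ≤ ‖e₂‖ := norm_nonneg _
  have nv : 0 ≤ ‖v‖ := norm_nonneg _
  have nw : 0 ≤ ‖w‖ := norm_nonneg _
  have hvc : ‖conj v‖ ≤ T := by rw [RCLike.norm_conj]; exact hv
  have hv2 : ‖v ^ 2‖ ≤ T ^ 2 := by rw [norm_pow]; exact pow_le_pow_left₀ nv hv 2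
  have hvc2 : ‖conj v ^ 2‖ ≤ T ^ 2 := by rw [norm_pow]; exact pow_le_pow_left₀ (norm_nonneg _) hvc 2
  have na : ‖(a : ℂ)‖ ≤ 1 + C₀ := by rw [Complex.norm_real, Real.norm_eq_abs]; exact ha
  have ne0 : ‖(e₀ : ℂ)‖ ≤ |e₀| := by rw [Complex.norm_real, Real.norm_eq_abs]
  have f1 : ‖conj e₁‖ ≤ ‖e₁‖ := by rw [RCLike.norm_conj]
  have f2 : ‖conj e₂‖ ≤ ‖e₂‖ := by rw [RCLike.norm_conj]
  refine ⟨?_, ?_⟩
  · have h1 : ‖((‖v‖ ^ 2 - 1 : ℝ) : ℂ)‖ ≤ (1 + T) ^ 2 := by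
      rw [Complex.norm_real, Real.norm_eq_abs, abs_le]
      have : ‖v‖ ^ 2 ≤ T ^ 2 := pow_le_pow_left₀ nv hv 2
      constructor <;> nlinarith
    have h2 : ‖Ut e₀ e₁ e₂ v‖ ≤ 2 * C₀ * (1 + T) ^ 2 := by
      unfold Ut
      refine (norm_add_le_of_le (norm_add_le_of_le (norm_add_le_of_le (norm_add_le_of_le
        (norm_mul_le_of_le le_rfl hv2) (norm_mul_le_of_le le_rfl hv)) ne0) (norm_mul_le_of_le f1 hvc))
        (norm_mul_le_of_le f2 hvc2)).trans ?_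
      have k1 : 0 ≤ ‖e₁‖ * T := by positivity
      have k2 : 0 ≤ ‖e₂‖ * T := by positivity
      have k3 : 0 ≤ |e₀| * T := by positivity
      have k4 : 0 ≤ |e₀| * T ^ 2 := by positivity
      have k5 : 0 ≤ ‖e₁‖ * T ^ 2 := by positivity
      have k6 : 2 * (|e₀| + ‖e₁‖ + ‖e₂‖) * (1 + T) ^ 2 ≤ 2 * C₀ * (1 + T) ^ 2 := by gcongr
      refine le_trans ?_ k6
      have e : 2 * (|e₀| + ‖e₁‖ + ‖e₂‖) * (1 + T) ^ 2 = 2 * |e₀| + 2 * ‖e₁‖ + 2 * ‖e₂‖ + 4 * (|e₀| * T) +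
        4 * (‖e₁‖ * T) + 4 * (‖e₂‖ * T) + 2 * (|e₀| * T ^ 2) + 2 * (‖e₁‖ * T ^ 2) + 2 * (‖e₂‖ * T ^ 2) := by ring
      rw [e]
      linarith
    refine (norm_add_le_of_le (norm_mul_le_of_le na h1) h2).trans (le_of_eq ?_)
    ring
  · have e : ((a : ℂ) * ((‖v‖ ^ 2 - 1 : ℝ) : ℂ) + Ut e₀ e₁ e₂ v) - ((a : ℂ) * ((‖w‖ ^ 2 - 1 : ℝ) : ℂ) + Ut e₀ e₁ e₂ w) =
        (a : ℂ) * ((‖v‖ ^ 2 - ‖w‖ ^ 2 : ℝ) : ℂ) + e₂ * ((v + w) * (v - w)) + e₁ * (v - w) + conj e₁ * conj (v - w) +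
        conj e₂ * (conj (v + w) * conj (v - w)) := by
      unfold Ut
      simp only [map_sub, map_add]
      push_cast
      ring
    have h0 : ‖conj (v - w)‖ ≤ ‖v - w‖ := by rw [RCLike.norm_conj]
    have hvw : ‖v + w‖ ≤ 2 * T := (norm_add_le _ _).trans (by linarith)
    have hvw' : ‖conj (v + w)‖ ≤ 2 * T := by rw [RCLike.norm_conj]; exact hvw
    have h1 : ‖((‖v‖ ^ 2 - ‖w‖ ^ 2 : ℝ) : ℂ)‖ ≤ 2 * T * ‖v - w‖ := by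
      rw [Complex.norm_real, Real.norm_eq_abs]
      have : ‖v‖ ^ 2 - ‖w‖ ^ 2 = (‖v‖ + ‖w‖) * (‖v‖ - ‖w‖) := by ring
      rw [this, abs_mul]
      have h5 : |‖v‖ - ‖w‖| ≤ ‖v - w‖ := abs_norm_sub_norm_le v w
      have h6 : |‖v‖ + ‖w‖| ≤ 2 * T := by rw [abs_of_nonneg (by linarith)]; linarith
      gcongr
    rw [e]
    have d0 : 0 ≤ ‖v - w‖ := norm_nonneg _
    refine (norm_add_le_of_le (norm_add_le_of_le (norm_add_le_of_le (norm_add_le_of_le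
      (norm_mul_le_of_le na h1) (norm_mul_le_of_le le_rfl (norm_mul_le_of_le hvw le_rfl)))
      (norm_mul_le_of_le le_rfl le_rfl)) (norm_mul_le_of_le f1 h0))
      (norm_mul_le_of_le f2 (norm_mul_le_of_le hvw' h0))).trans ?_
    have k1 : ‖e₁‖ + ‖e₂‖ ≤ C₀ := by linarith
    have k2 : ‖e₂‖ * (2 * T * ‖v - w‖) ≤ C₀ * (2 * T * ‖v - w‖) := by
      have : ‖e₂‖ ≤ C₀ := by linarith
      gcongr
    have k3 : ‖e₁‖ * ‖v - w‖ ≤ C₀ * ‖v - w‖ := by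
      have : ‖e₁‖ ≤ C₀ := by linarith
      gcongr
    have k4 : 0 ≤ C₀ * ‖v - w‖ := by positivity
    have k5 : 0 ≤ C₀ * T * ‖v - w‖ := by positivity
    have k6 : 0 ≤ T * ‖v - w‖ := by positivity
    have e2 : (2 + 6 * C₀) * (1 + T) * ‖v - w‖ = 2 * ‖v - w‖ + 2 * (T * ‖v - w‖) + 6 * (C₀ * ‖v - w‖) +
      6 * (C₀ * T * ‖v - w‖) := by ring
    rw [e2]
    nlinarith

theorem setupb {μ₀ K σ₁ σ₂ : ℝ} (h0 : 0 ≤ μ₀) (h1 : μ₀ < 1) (hK : 0 < K) (hσ₁ : 0 < σ₁) (hσ₂ : σ₁ < σ₂) :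
    ∃ ρ₀ C : ℝ, 1 ≤ ρ₀ ∧ 0 < C ∧ ∀ (μ c : ℂ) (ρ : ℝ) (ν : ℂ), ‖μ‖ ≤ μ₀ → ‖ν‖ ≤ μ₀ → ρ₀ ≤ ρ → |QQ c ρ ν 0| ≤ K * ρ →
      ∃ P y Z V : ℂ → ℂ, Sb C μ c ρ ν P y Z V ∧
        ∃ τ : ℝ, σ₁ ≤ τ ∧ τ ≤ σ₂ ∧ ∀ z : ℂ, ‖vv 0 1 μ z‖ = τ → 1 ≤ C * ‖P z‖ := by
  obtain ⟨ρ₀, C₀, hρ₀, hC₀, big⟩ := bigc h0 h1 hK
  obtain ⟨L, hL, hvL⟩ := vv_lip (r₀ := 1) (R := 1) one_pos h0 h1
  obtain ⟨k, hk, hkl⟩ := kap_lb (r₀ := 1) (R := 1) one_pos h0 h1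
  obtain ⟨Cs, hCs, hsj⟩ := sj_lb
  obtain ⟨Cc, hCc, hcur⟩ := Cur hσ₁ hσ₂ h0 h1
  obtain ⟨A, hAd⟩ : ∃ A : ℝ, A = (1 + L) ^ 2 := ⟨_, rfl⟩
  have hA : 1 ≤ A := by rw [hAd]; nlinarith
  have hA0 : 0 < A := by linarith
  obtain ⟨B₃, hB₃⟩ : ∃ B : ℝ, B = (1 + 3 * C₀) * A := ⟨_, rfl⟩
  obtain ⟨B₄, hB₄⟩ : ∃ B : ℝ, B = (2 + 6 * C₀) * A := ⟨_, rfl⟩
  have b3 : 0 < B₃ := by rw [hB₃]; positivity
  have b4 : 0 < B₄ := by rw [hB₄]; positivity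
  obtain ⟨D3, hD3⟩ : ∃ D : ℝ, D = (1 + 2 * C₀) * (100 * A) / k + (1 + 2 * C₀) := ⟨_, rfl⟩
  obtain ⟨D4, hD4⟩ : ∃ D : ℝ, D = 8 * B₃ * (4 * A) + 2 * B₄ * (100 * A) := ⟨_, rfl⟩
  obtain ⟨D6, hD6⟩ : ∃ D : ℝ, D = C₀ / (Cc * Cs) + C₀ / Cc := ⟨_, rfl⟩
  have d3 : 0 < D3 := by rw [hD3]; positivity
  have d4 : 0 < D4 := by rw [hD4]; positivity
  have d6 : 0 < D6 := by rw [hD6]; positivity
  refine ⟨ρ₀, 2000 * C₀ + 100 * A + D3 + D4 + B₃ + D6, hρ₀, by positivity, ?_⟩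
  intro μ c ρ ν hμ hν hρ hQ
  obtain ⟨-, -, e₀, E, e₁, e₂, htr, hE, hS1, hS2⟩ := big μ c ρ ν hμ hν hρ hQ
  obtain ⟨S, hSd⟩ : ∃ S : ℝ, S = |e₀| + ‖e₁‖ + ‖e₂‖ := ⟨_, rfl⟩
  have hρ1 : 1 ≤ ρ := hρ₀.trans hρ
  have hρp : 0 < ρ := by linarith
  have ps : PS 1 1 μ₀ 0 1 μ := ⟨by simp, le_rfl, le_rfl, hμ⟩
  have hμ1 : ‖μ‖ < 1 := hμ.trans_lt h1
  have hμ1' : ‖μ‖ ≤ 1 := hμ1.le
  obtain ⟨κ, hκd⟩ : ∃ κ : ℝ, κ = kap 1 μ := ⟨_, rfl⟩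
  have hκ : 0 < κ := by rw [hκd]; exact kap_pos one_pos hμ1
  have hκk : k ≤ κ := by rw [hκd]; exact hkl 0 1 μ ps
  have hκ1 : κ ≤ 1 := by
    have := Gb_kap_le (r₀ := 1) (R := 1) one_pos h1 ps
    rw [hκd]
    linarith
  have hκc : (κ : ℂ) ≠ 0 := by exact_mod_cast hκ.ne'
  have hρc : (ρ : ℂ) ≠ 0 := by exact_mod_cast hρp.ne'
  have ha : |κ / ρ + E| ≤ 1 + C₀ := by
    refine (abs_add_le _ _).trans (add_le_add ?_ hE)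
    rw [abs_of_pos (by positivity), div_le_one hρp]
    linarith
  have a0 : 0 ≤ |e₀| := abs_nonneg _
  have b0 : 0 ≤ ‖e₁‖ := norm_nonneg _
  have c0 : 0 ≤ ‖e₂‖ := norm_nonneg _
  have m0 : 0 ≤ ‖μ‖ := norm_nonneg _
  have hS : 0 < S := by
    by_contra hneg
    have h3 : C₀ * S ≤ 0 := mul_nonpos_of_nonneg_of_nonpos hC₀.le (not_lt.1 hneg)
    rw [← hSd] at hS2
    linarith
  -- the map `vv`
  have hvb : ∀ z : ℂ, ‖vv 0 1 μ z‖ ≤ L * ‖z‖ := by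
    intro z
    have h2 := hvL 0 1 μ ps z 0
    rwa [Gb_vv_c, sub_zero, sub_zero] at h2
  have hAT : ∀ T : ℝ, 0 ≤ T → (1 + L * T) ^ 2 ≤ A * (1 + T) ^ 2 := by
    intro T hT
    rw [hAd, ← mul_pow]
    have : 1 + L * T ≤ (1 + L) * (1 + T) := by nlinarith
    exact pow_le_pow_left₀ (by positivity) this 2
  have hAT' : ∀ T : ℝ, 0 ≤ T → (1 + L * T) * L ≤ A * (1 + T) := by
    intro T hT
    rw [hAd]
    have h3 : 1 + L * T ≤ (1 + L) * (1 + T) := by nlinarith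
    calc (1 + L * T) * L ≤ ((1 + L) * (1 + T)) * (1 + L) := by
          apply mul_le_mul h3 (by linarith) hL.le (by positivity)
      _ = (1 + L) ^ 2 * (1 + T) := by ring
  have hzeta : ∀ z : ℂ, z = vv 0 1 μ z + μ * conj (vv 0 1 μ z) := by
    intro z
    have h2 := zz_vv (c := 0) one_pos hμ1 z
    unfold zz at h2
    rw [Complex.ofReal_one, one_mul, zero_add] at h2
    exact h2.symm
  have hq : ∀ z, ((QQ c ρ ν z / ρ : ℝ) : ℂ) = ((κ / ρ + E : ℝ) : ℂ) * ((‖vv 0 1 μ z‖ ^ 2 - 1 : ℝ) : ℂ) +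
      Ut e₀ e₁ e₂ (vv 0 1 μ z) := by
    intro z
    have h2 := htr (vv 0 1 μ z)
    rw [zz_vv one_pos hμ1] at h2
    have h3 : QQ 0 1 μ z = κ * (‖vv 0 1 μ z‖ ^ 2 - 1) := by rw [hκd]; rfl
    have h4 : ((QQ c ρ ν z / ρ : ℝ) : ℂ) = (((QQ c ρ ν z - QQ 0 1 μ z) / ρ : ℝ) : ℂ) + ((QQ 0 1 μ z / ρ : ℝ) : ℂ) := by
      push_cast
      ring
    rw [h4, h2, h3]
    push_cast
    ring
  have hq1 : ∀ z, |QQ c ρ ν z / ρ| ≤ B₃ * (1 + ‖z‖) ^ 2 := by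
    intro z
    have h2 := (Zb_g hC₀.le (mul_nonneg hL.le (norm_nonneg z)) ha hS1 (hvb z) (hvb z)).1
    rw [← hq z, Complex.norm_real, Real.norm_eq_abs] at h2
    refine h2.trans ?_
    rw [hB₃, mul_assoc]
    exact mul_le_mul_of_nonneg_left (hAT _ (norm_nonneg z)) (by positivity)
  have hq2 : ∀ T : ℝ, 0 ≤ T → ∀ z w, ‖z‖ ≤ T → ‖w‖ ≤ T →
      |QQ c ρ ν z / ρ - QQ c ρ ν w / ρ| ≤ B₄ * (1 + T) * ‖z - w‖ := by
    intro T hT z w hz hw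
    have hz' : ‖vv 0 1 μ z‖ ≤ L * T := (hvb z).trans (mul_le_mul_of_nonneg_left hz hL.le)
    have hw' : ‖vv 0 1 μ w‖ ≤ L * T := (hvb w).trans (mul_le_mul_of_nonneg_left hw hL.le)
    have h2 := (Zb_g hC₀.le (mul_nonneg hL.le hT) ha hS1 hz' hw').2
    rw [← hq z, ← hq w, ← Complex.ofReal_sub, Complex.norm_real, Real.norm_eq_abs] at h2
    refine h2.trans ?_
    have h3 := hvL 0 1 μ ps z w
    calc (2 + 6 * C₀) * (1 + L * T) * ‖vv 0 1 μ z - vv 0 1 μ w‖ ≤ (2 + 6 * C₀) * (1 + L * T) * (L * ‖z - w‖) := by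
          gcongr
      _ = (2 + 6 * C₀) * ((1 + L * T) * L) * ‖z - w‖ := by ring
      _ ≤ (2 + 6 * C₀) * (A * (1 + T)) * ‖z - w‖ :=
          mul_le_mul_of_nonneg_right (mul_le_mul_of_nonneg_left (hAT' T hT) (by positivity)) (norm_nonneg _)
      _ = B₄ * (1 + T) * ‖z - w‖ := by rw [hB₄]; ring
  have hpow : ∀ z : ℂ, (1 + ‖z‖) ^ 2 ≤ (1 + ‖z‖) ^ 4 := fun z =>
    pow_le_pow_right₀ (by linarith [norm_nonneg z]) (by norm_num)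
  -- the common part of the two cases
  have fin : ∀ P V Z : ℂ → ℂ, Differentiable ℂ P → ContDiff ℝ ∞ V → ContDiff ℝ ∞ Z →
      (∀ z, ((QQ c ρ ν z / ρ : ℝ) : ℂ) * V z - P z = QQ 0 1 μ z * Z z) →
      (∀ z, ‖P z‖ ≤ 2000 * C₀ * (1 + ‖z‖) ^ 4) → (∀ z, ‖V z‖ ≤ 100 * A * (1 + ‖z‖) ^ 2) →
      (∀ T : ℝ, 0 ≤ T → ∀ z w, ‖z‖ ≤ T → ‖w‖ ≤ T → ‖V z - V w‖ ≤ 4 * A * (1 + T) * ‖z - w‖) →
      (∀ z, ‖Z z‖ ≤ D3 * (1 + ‖z‖) ^ 2) →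
      (∃ τ : ℝ, σ₁ ≤ τ ∧ τ ≤ σ₂ ∧ ∀ z : ℂ, ‖vv 0 1 μ z‖ = τ → 1 ≤ D6 * ‖P z‖) →
      ∃ P y Z V : ℂ → ℂ, Sb (2000 * C₀ + 100 * A + D3 + D4 + B₃ + D6) μ c ρ ν P y Z V ∧
        ∃ τ : ℝ, σ₁ ≤ τ ∧ τ ≤ σ₂ ∧ ∀ z : ℂ, ‖vv 0 1 μ z‖ = τ →
          1 ≤ (2000 * C₀ + 100 * A + D3 + D4 + B₃ + D6) * ‖P z‖ := by
    intro P V Z hP hV hZ hid hPb hVb hVl hZb hτ
    have hys : ContDiff ℝ ∞ (fun z => ((QQ c ρ ν z / ρ : ℝ) : ℂ) * V z) :=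
      (Complex.ofRealCLM.contDiff.comp ((QQ_contDiff c ρ ν).div_const ρ)).mul hV
    refine ⟨P, fun z => ((QQ c ρ ν z / ρ : ℝ) : ℂ) * V z, Z, V,
      ⟨hP, hys, hZ, hV, fun z => rfl, hid, ?_, ?_, ?_, ?_, ?_⟩, ?_⟩
    · intro z
      refine (hPb z).trans ?_
      gcongr
      linarith
    · intro z
      have h5 := mul_le_mul_of_nonneg_left (hpow z) (show (0 : ℝ) ≤ 100 * A by positivity)
      refine ((hVb z).trans h5).trans ?_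
      gcongr
      linarith
    · intro z
      have h5 := mul_le_mul_of_nonneg_left (hpow z) d3.le
      refine ((hZb z).trans h5).trans ?_
      gcongr
      linarith
    · intro z
      have h5 := Zb_dy (q := fun z => QQ c ρ ν z / ρ) (V := V)
        (B₁ := 100 * A) (B₂ := 4 * A) (B₃ := B₃) (B₄ := B₄) (by positivity) (by positivity) b3.le b4.le
        (hys.differentiable (by simp)) (fun z => rfl) hVb hVl hq1 hq2 z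
      rw [← hD4] at h5
      refine h5.trans ?_
      gcongr
      linarith
    · intro z
      have h5 := hq1 z
      rw [abs_div, abs_of_pos hρp, div_le_iff₀ hρp] at h5
      have h6 : B₃ * (1 + ‖z‖) ^ 2 * ρ = B₃ * (ρ * (1 + ‖z‖) ^ 2) := by ring
      rw [h6] at h5
      refine h5.trans ?_
      rw [mul_assoc (2000 * C₀ + 100 * A + D3 + D4 + B₃ + D6)]
      gcongr
      linarith
    · obtain ⟨τ, t1, t2, t3⟩ := hτ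
      refine ⟨τ, t1, t2, fun z hz => (t3 z hz).trans ?_⟩
      gcongr
      linarith
  obtain ⟨M, hMd⟩ : ∃ M : ℝ, M = ‖e₂‖ + ‖e₁‖ * ‖μ‖ + |e₀| * ‖μ‖ ^ 2 := ⟨_, rfl⟩
  have hM0 : 0 ≤ M := by rw [hMd]; positivity
  rcases hM0.eq_or_lt with hM | hM
  · -- the degenerate case: a disk
    have q1 : 0 ≤ ‖e₁‖ * ‖μ‖ := by positivity
    have q2 : 0 ≤ |e₀| * ‖μ‖ ^ 2 := by positivity
    have he2 : e₂ = 0 := norm_eq_zero.1 (by linarith)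
    have hμ0 : μ = 0 := by
      by_contra hne
      have hm : 0 < ‖μ‖ := norm_pos_iff.2 hne
      have q3 : ‖e₁‖ * ‖μ‖ = 0 := by linarith
      have q4 : |e₀| * ‖μ‖ ^ 2 = 0 := by linarith
      have q5 : ‖e₁‖ = 0 := by
        rcases mul_eq_zero.1 q3 with h | h
        · exact h
        · exact absurd h hm.ne'
      have q6 : |e₀| = 0 := by
        rcases mul_eq_zero.1 q4 with h | h
        · exact h
        · exact absurd h (by positivity)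
      have q7 : ‖e₂‖ = 0 := by rw [he2, norm_zero]
      rw [hSd, q5, q6, q7] at hS
      norm_num at hS
    subst hμ0
    subst he2
    have hvz : ∀ z, vv 0 1 0 z = z := by
      intro z
      have := hzeta z
      rw [zero_mul, add_zero] at this
      exact this.symm
    have hκ1' : κ = 1 := by
      rw [hκd]
      unfold kap
      simp
    obtain ⟨s, hs⟩ : ∃ s : Fin 5 → ℂ, s = ![0, conj e₁, e₀, e₁, 0] := ⟨_, rfl⟩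
    have s0 : s 0 = 0 := by rw [hs]; rfl
    have s1 : s 1 = conj e₁ := by rw [hs]; rfl
    have s2 : s 2 = e₀ := by rw [hs]; rfl
    have s3 : s 3 = e₁ := by rw [hs]; rfl
    have s4 : s 4 = 0 := by rw [hs]; rfl
    have hsb : ∀ j, ‖s j‖ ≤ C₀ := by
      intro j
      fin_cases j
      · show ‖s 0‖ ≤ C₀
        rw [s0, norm_zero]; exact hC₀.le
      · show ‖s 1‖ ≤ C₀
        rw [s1, RCLike.norm_conj]; linarith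
      · show ‖s 2‖ ≤ C₀
        rw [s2, Complex.norm_real, Real.norm_eq_abs]; linarith
      · show ‖s 3‖ ≤ C₀
        rw [s3]; linarith
      · show ‖s 4‖ ≤ C₀
        rw [s4, norm_zero]; exact hC₀.le
    refine fin (fun z => Fb 0 s z) (fun z => z ^ 2)
      (fun z => ((κ / ρ + E : ℝ) : ℂ) * z ^ 2 + conj e₁ * z) ?_ (contDiff_id.pow 2)
      ((contDiff_const.mul (contDiff_id.pow 2)).add (contDiff_const.mul contDiff_id)) ?_ ?_ ?_ ?_ ?_ ?_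
    · unfold Fb
      fun_prop
    · intro z
      show ((QQ c ρ ν z / ρ : ℝ) : ℂ) * z ^ 2 - Fb 0 s z =
        (QQ 0 1 0 z : ℂ) * (((κ / ρ + E : ℝ) : ℂ) * z ^ 2 + conj e₁ * z)
      have h3 : QQ 0 1 0 z = ‖z‖ ^ 2 - 1 := by
        unfold QQ
        rw [← hκd, hκ1', hvz, one_mul]
      have h4 : ((‖z‖ ^ 2 - 1 : ℝ) : ℂ) = z * conj z - 1 := by
        rw [Complex.mul_conj, Complex.normSq_eq_norm_sq]
        push_cast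
        ring
      rw [hq z, hvz, h3, h4]
      unfold Fb Ut
      rw [s0, s1, s2, s3, s4]
      simp only [map_zero]
      ring
    · intro z
      have h5 := Gs_Fb_le (μ := 0) (norm_nonneg z) hC₀.le (by simp) s hsb (le_refl ‖z‖)
      refine h5.trans ?_
      have : 0 ≤ C₀ * (1 + ‖z‖) ^ 4 := by positivity
      linarith
    · intro z
      show ‖z ^ 2‖ ≤ _
      rw [norm_pow]
      have n0 := norm_nonneg z
      have : ‖z‖ ^ 2 ≤ (1 + ‖z‖) ^ 2 := pow_le_pow_left₀ n0 (by linarith) 2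
      have h5 : 0 ≤ (1 + ‖z‖) ^ 2 := by positivity
      nlinarith
    · intro T hT z w hz hw
      show ‖z ^ 2 - w ^ 2‖ ≤ _
      have e : z ^ 2 - w ^ 2 = (z + w) * (z - w) := by ring
      rw [e, norm_mul]
      have h5 : ‖z + w‖ ≤ 2 * T := (norm_add_le _ _).trans (by linarith)
      have h6 : 2 * T ≤ 4 * A * (1 + T) := by nlinarith
      exact mul_le_mul_of_nonneg_right (h5.trans h6) (norm_nonneg _)
    · intro z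
      show ‖((κ / ρ + E : ℝ) : ℂ) * z ^ 2 + conj e₁ * z‖ ≤ _
      have n0 := norm_nonneg z
      have h5 : ‖((κ / ρ + E : ℝ) : ℂ)‖ ≤ 1 + C₀ := by rw [Complex.norm_real, Real.norm_eq_abs]; exact ha
      have h6 : ‖z ^ 2‖ ≤ (1 + ‖z‖) ^ 2 := by
        rw [norm_pow]; exact pow_le_pow_left₀ n0 (by linarith) 2
      have h7 : ‖conj e₁‖ ≤ C₀ := by rw [RCLike.norm_conj]; linarith
      have h8 : ‖z‖ ≤ (1 + ‖z‖) ^ 2 := by nlinarith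
      refine (norm_add_le_of_le (norm_mul_le_of_le h5 h6) (norm_mul_le_of_le h7 h8)).trans ?_
      have h9 : (1 + C₀) * (1 + ‖z‖) ^ 2 + C₀ * (1 + ‖z‖) ^ 2 = (1 + 2 * C₀) * (1 + ‖z‖) ^ 2 := by ring
      rw [h9, hD3]
      have : 0 < (1 + 2 * C₀) * (100 * A) / k := by positivity
      exact mul_le_mul_of_nonneg_right (by linarith) (by positivity)
    · obtain ⟨τ, t1, t2, t3⟩ := hcur 0 s hμ
      refine ⟨τ, t1, t2, fun z hz => ?_⟩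
      have h5 := t3 _ hz
      rw [← hzeta z] at h5
      show 1 ≤ D6 * ‖Fb 0 s z‖
      have h6 : S ≤ ∑ j, ‖s j‖ := by
        rw [Fin.sum_univ_five, s0, s1, s2, s3, s4, RCLike.norm_conj, Complex.norm_real, Real.norm_eq_abs, hSd]
        simp only [norm_zero]
        linarith
      have h7 : Cc * S ≤ ‖Fb 0 s z‖ := (mul_le_mul_of_nonneg_left h6 hCc.le).trans h5
      rw [← hSd] at hS2
      have h8 : 1 ≤ C₀ / Cc * ‖Fb 0 s z‖ := by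
        rw [div_mul_eq_mul_div, le_div_iff₀ hCc, one_mul]
        calc Cc ≤ Cc * (C₀ * S) := le_mul_of_one_le_right hCc.le hS2
          _ = C₀ * (Cc * S) := by ring
          _ ≤ C₀ * ‖Fb 0 s z‖ := mul_le_mul_of_nonneg_left h7 hC₀.le
      refine h8.trans ?_
      rw [hD6]
      gcongr
      have : 0 < C₀ / (Cc * Cs) := by positivity
      linarith
  · -- the main case
    have hMc : (M : ℂ) ≠ 0 := by exact_mod_cast hM.ne'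
    have hnM : ‖(M : ℂ)‖ = M := by rw [Complex.norm_real, Real.norm_of_nonneg hM.le]
    have hel : ∀ (T : ℝ), 0 ≤ T → ∀ z : ℂ, ‖z‖ ≤ T →
        ‖Vt μ e₀ e₁ e₂ (vv 0 1 μ z)‖ ≤ 100 * (1 + L * T) ^ 2 * M ∧
        ‖Wt μ e₀ e₁ e₂ (vv 0 1 μ z)‖ ≤ 100 * (1 + L * T) ^ 2 * S * M ∧
        (∀ j, ‖sj μ e₀ e₁ e₂ j‖ ≤ 100 * S * M) := by
      intro T hT z hz
      have hz' : ‖vv 0 1 μ z‖ ≤ L * T := (hvb z).trans (mul_le_mul_of_nonneg_left hz hL.le)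
      have h5 := Zb_elim (e₀ := e₀) (e₁ := e₁) (e₂ := e₂) (mul_nonneg hL.le hT) hμ1' hz'
      rw [← hMd, ← hSd] at h5
      exact h5
    refine fin (fun z => Fb μ (sj μ e₀ e₁ e₂) z / (M : ℂ)) (fun z => Vt μ e₀ e₁ e₂ (vv 0 1 μ z) / (M : ℂ))
      (fun z => (((κ / ρ + E : ℝ) : ℂ) * Vt μ e₀ e₁ e₂ (vv 0 1 μ z) + Wt μ e₀ e₁ e₂ (vv 0 1 μ z)) / ((M : ℂ) * κ))
      ?_ ((Gs_Vt 0 1 μ e₀ e₁ e₂).div_const _)
      (((contDiff_const.mul (Gs_Vt 0 1 μ e₀ e₁ e₂)).add (Gs_Wt 0 1 μ e₀ e₁ e₂)).div_const _) ?_ ?_ ?_ ?_ ?_ ?_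
    · unfold Fb
      fun_prop
    · intro z
      show ((QQ c ρ ν z / ρ : ℝ) : ℂ) * (Vt μ e₀ e₁ e₂ (vv 0 1 μ z) / (M : ℂ)) - Fb μ (sj μ e₀ e₁ e₂) z / (M : ℂ) =
        (QQ 0 1 μ z : ℂ) * ((((κ / ρ + E : ℝ) : ℂ) * Vt μ e₀ e₁ e₂ (vv 0 1 μ z) + Wt μ e₀ e₁ e₂ (vv 0 1 μ z)) /
          ((M : ℂ) * κ))
      have h3 : QQ 0 1 μ z = κ * (‖vv 0 1 μ z‖ ^ 2 - 1) := by rw [hκd]; rfl
      have h5 : Fb μ (sj μ e₀ e₁ e₂) z = Fb μ (sj μ e₀ e₁ e₂) (vv 0 1 μ z + μ * conj (vv 0 1 μ z)) := by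
        rw [← hzeta z]
      have h7 : ((1 - ‖vv 0 1 μ z‖ ^ 2 : ℝ) : ℂ) = -((‖vv 0 1 μ z‖ ^ 2 - 1 : ℝ) : ℂ) := by
        push_cast
        ring
      have h8 : ((κ * (‖vv 0 1 μ z‖ ^ 2 - 1) : ℝ) : ℂ) = κ * ((‖vv 0 1 μ z‖ ^ 2 - 1 : ℝ) : ℂ) := by
        push_cast
        ring
      rw [h5, elim, hq z, h3, h7, h8]
      generalize ((‖vv 0 1 μ z‖ ^ 2 - 1 : ℝ) : ℂ) = q
      generalize ((κ / ρ + E : ℝ) : ℂ) = a
      field_simp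
      ring
    · intro z
      have h5 := Gs_Fb_le (norm_nonneg z) (show (0 : ℝ) ≤ 100 * S * M by positivity) hμ1' (sj μ e₀ e₁ e₂)
        (hel ‖z‖ (norm_nonneg z) z le_rfl).2.2 (le_refl ‖z‖)
      show ‖Fb μ (sj μ e₀ e₁ e₂) z / (M : ℂ)‖ ≤ _
      rw [norm_div, hnM, div_le_iff₀ hM]
      refine h5.trans ?_
      rw [← hSd] at hS1
      calc 20 * (1 + ‖z‖) ^ 4 * (100 * S * M) ≤ 20 * (1 + ‖z‖) ^ 4 * (100 * C₀ * M) := by gcongr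
        _ = 2000 * C₀ * (1 + ‖z‖) ^ 4 * M := by ring
    · intro z
      show ‖Vt μ e₀ e₁ e₂ (vv 0 1 μ z) / (M : ℂ)‖ ≤ _
      rw [norm_div, hnM, div_le_iff₀ hM]
      refine (hel ‖z‖ (norm_nonneg z) z le_rfl).1.trans ?_
      have h5 := hAT ‖z‖ (norm_nonneg z)
      calc 100 * (1 + L * ‖z‖) ^ 2 * M ≤ 100 * (A * (1 + ‖z‖) ^ 2) * M := by gcongr
        _ = 100 * A * (1 + ‖z‖) ^ 2 * M := by ring
    · intro T hT z w hz hw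
      show ‖Vt μ e₀ e₁ e₂ (vv 0 1 μ z) / (M : ℂ) - Vt μ e₀ e₁ e₂ (vv 0 1 μ w) / (M : ℂ)‖ ≤ _
      have hz' : ‖vv 0 1 μ z‖ ≤ L * T := (hvb z).trans (mul_le_mul_of_nonneg_left hz hL.le)
      have hw' : ‖vv 0 1 μ w‖ ≤ L * T := (hvb w).trans (mul_le_mul_of_nonneg_left hw hL.le)
      have h5 := Gs_Vt_lip (mul_nonneg hL.le hT) hμ1' e₀ e₁ e₂ hz' hw'
      rw [← hMd] at h5
      rw [← sub_div, norm_div, hnM, div_le_iff₀ hM]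
      refine h5.trans ?_
      have h6 := hvL 0 1 μ ps z w
      have h7 := hAT' T hT
      calc (4 * (L * T) + 2) * M * ‖vv 0 1 μ z - vv 0 1 μ w‖ ≤ (4 * (1 + L * T)) * M * (L * ‖z - w‖) := by
            have : 4 * (L * T) + 2 ≤ 4 * (1 + L * T) := by linarith
            gcongr
        _ = 4 * ((1 + L * T) * L) * ‖z - w‖ * M := by ring
        _ ≤ 4 * (A * (1 + T)) * ‖z - w‖ * M := by gcongr
        _ = 4 * A * (1 + T) * ‖z - w‖ * M := by ring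
    · intro z
      obtain ⟨w1, w2, -⟩ := hel ‖z‖ (norm_nonneg z) z le_rfl
      show ‖(((κ / ρ + E : ℝ) : ℂ) * Vt μ e₀ e₁ e₂ (vv 0 1 μ z) + Wt μ e₀ e₁ e₂ (vv 0 1 μ z)) / ((M : ℂ) * κ)‖ ≤ _
      have w3 : ‖((κ / ρ + E : ℝ) : ℂ)‖ ≤ 1 + C₀ := by rw [Complex.norm_real, Real.norm_eq_abs]; exact ha
      have w2' : ‖Wt μ e₀ e₁ e₂ (vv 0 1 μ z)‖ ≤ 100 * (1 + L * ‖z‖) ^ 2 * C₀ * M := by
        refine w2.trans ?_
        rw [← hSd] at hS1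
        gcongr
      have w4 : ‖((κ / ρ + E : ℝ) : ℂ) * Vt μ e₀ e₁ e₂ (vv 0 1 μ z) + Wt μ e₀ e₁ e₂ (vv 0 1 μ z)‖ ≤
          (1 + 2 * C₀) * 100 * (1 + L * ‖z‖) ^ 2 * M := by
        refine (norm_add_le_of_le (norm_mul_le_of_le w3 w1) w2').trans (le_of_eq ?_)
        ring
      rw [norm_div, norm_mul, hnM, Complex.norm_real, Real.norm_of_nonneg hκ.le, div_le_iff₀ (mul_pos hM hκ)]
      refine w4.trans ?_
      have w5 := hAT ‖z‖ (norm_nonneg z)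
      have w6 : (1 + 2 * C₀) * (100 * A) ≤ D3 * κ := by
        have w9 : D3 * κ = (1 + 2 * C₀) * (100 * A) / k * κ + (1 + 2 * C₀) * κ := by rw [hD3]; ring
        rw [w9]
        have w7 : (1 + 2 * C₀) * (100 * A) / k * k ≤ (1 + 2 * C₀) * (100 * A) / k * κ :=
          mul_le_mul_of_nonneg_left hκk (by positivity)
        rw [div_mul_cancel₀ _ hk.ne'] at w7
        have w8 : 0 ≤ (1 + 2 * C₀) * κ := by positivity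
        linarith
      calc (1 + 2 * C₀) * 100 * (1 + L * ‖z‖) ^ 2 * M ≤ (1 + 2 * C₀) * 100 * (A * (1 + ‖z‖) ^ 2) * M := by gcongr
        _ = ((1 + 2 * C₀) * (100 * A)) * (1 + ‖z‖) ^ 2 * M := by ring
        _ ≤ (D3 * κ) * (1 + ‖z‖) ^ 2 * M := by gcongr
        _ = D3 * (1 + ‖z‖) ^ 2 * (M * κ) := by ring
    · obtain ⟨τ, t1, t2, t3⟩ := hcur μ (sj μ e₀ e₁ e₂) hμ
      refine ⟨τ, t1, t2, fun z hz => ?_⟩
      have h5 := t3 _ hz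
      rw [← hzeta z] at h5
      have h3 := hsj μ e₀ e₁ e₂ hμ1'
      rw [← hSd, ← hMd] at h3
      have h7 : Cc * (Cs * S * M) ≤ ‖Fb μ (sj μ e₀ e₁ e₂) z‖ := (mul_le_mul_of_nonneg_left h3 hCc.le).trans h5
      show 1 ≤ D6 * ‖Fb μ (sj μ e₀ e₁ e₂) z / (M : ℂ)‖
      rw [norm_div, hnM]
      rw [← hSd] at hS2
      have h8 : 1 ≤ C₀ / (Cc * Cs) * (‖Fb μ (sj μ e₀ e₁ e₂) z‖ / M) := by
        rw [div_mul_div_comm, le_div_iff₀ (by positivity), one_mul]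
        calc Cc * Cs * M ≤ Cc * Cs * M * (C₀ * S) := le_mul_of_one_le_right (by positivity) hS2
          _ = C₀ * (Cc * (Cs * S * M)) := by ring
          _ ≤ C₀ * ‖Fb μ (sj μ e₀ e₁ e₂) z‖ := mul_le_mul_of_nonneg_left h7 hC₀.le
      refine h8.trans ?_
      rw [hD6]
      gcongr
      have : 0 < C₀ / Cc := by positivity
      linarith

end EY1
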