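import Pool.Agent.H1.EY.Za
import Pool.Agent.H1.EW.Ga

/-!
ROW EY/Zc. A point `q` at bounded distance, outside both ellipses. `q = -T c/‖c‖` (`c ≠ 0` by `bigc`), `T` large. `vv c ρ ν q = (1 + T/‖c‖) vv c ρ ν 0`. `QQ = kap (‖vv‖² - 1)`, `kap ≥ c₁ ρ²`, `‖vv c ρ ν 0‖² ≥ 1 - K ρ/kap ≥ 1 - C K/ρ`, so
`QQ c ρ ν q ≥ kap ((1 + 2T/‖c‖)(1 - CK/ρ) - 1) ≥ kap (T/‖c‖ - CK/ρ) ≥ ρ (T/C' - C'')` for `ρ ≥ ρ₀`: at least `M ρ`, `M` large. If `QQ c ρ ν z ≤ 0` and `‖z - q‖ ≤ 1`: `|QQ c ρ ν z - QQ c ρ ν q| ≤ C ρ ‖z - q‖` (Lipschitz on `‖· - c‖ ≤ C ρ`), contradiction for `M > C`: so `‖z - q‖ ≥ 1`.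
If `QQ 0 1 μ z ≤ 0` then `‖z‖ ≤ 2`, `‖z - q‖ ≥ T - 2 ≥ 1`. Then `1 + ‖z‖ ≤ 1 + ‖q‖ + ‖z - q‖ ≤ (2 + ‖q‖) ‖z - q‖`.
-/

set_option autoImplicit false

namespace EY1

open Complex Set Filter Topology MeasureTheory EW1 EX1
open scoped ComplexConjugate ContDiff Real

private theorem zc_vv0 (c : ℂ) (ρ : ℝ) (ν : ℂ) (t : ℝ) :
    vv c ρ ν (-(t : ℂ) * c) = ((1 + t : ℝ) : ℂ) * vv c ρ ν 0 := by
  unfold vv
  have h1 : (-(t : ℂ) * c - c) = ((1 + t : ℝ) : ℂ) * (0 - c) := by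
    push_cast
    ring
  rw [h1, map_mul, Complex.conj_ofReal]
  ring

private theorem zc_vvd (c : ℂ) (ρ : ℝ) (ν z q : ℂ) :
    vv c ρ ν q - vv c ρ ν z = ((q - z) - ν * conj (q - z)) / ((ρ * (1 - ‖ν‖ ^ 2) : ℝ) : ℂ) := by
  unfold vv
  rw [← sub_div]
  congr 1
  simp only [map_sub]
  ring

theorem outq {μ₀ K : ℝ} (h0 : 0 ≤ μ₀) (h1 : μ₀ < 1) (hK : 0 < K) : ∃ ρ₀ C : ℝ, 1 ≤ ρ₀ ∧ 0 < C ∧
    ∀ (μ c : ℂ) (ρ : ℝ) (ν : ℂ), ‖μ‖ ≤ μ₀ → ‖ν‖ ≤ μ₀ → ρ₀ ≤ ρ → |QQ c ρ ν 0| ≤ K * ρ →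
      ∃ q : ℂ, ‖q‖ ≤ C ∧ ∀ z : ℂ, (QQ c ρ ν z ≤ 0 ∨ QQ 0 1 μ z ≤ 0) → 1 + ‖z‖ ≤ C * ‖z - q‖ := by
  obtain ⟨ρ₁, C, hρ₁, hC, hb⟩ := bigc h0 h1 hK
  have hs0 : 0 < 1 - μ₀ ^ 2 := by nlinarith
  obtain ⟨κ, hκ⟩ : ∃ κ : ℝ, κ = (1 - μ₀ ^ 2) ^ 2 / 2 := ⟨_, rfl⟩
  have hκ0 : 0 < κ := by rw [hκ]; positivity
  obtain ⟨T, hT⟩ : ∃ T : ℝ, T = C * (4 * K + 9) / (2 * κ) + 3 := ⟨_, rfl⟩
  have hT3 : 3 ≤ T := by
    have : 0 ≤ C * (4 * K + 9) / (2 * κ) := by positivity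
    linarith
  have hT1 : (4 * K + 9) * C ≤ 2 * T * κ := by
    have h2 : C * (4 * K + 9) / (2 * κ) * (2 * κ) = C * (4 * K + 9) :=
      div_mul_cancel₀ _ (by positivity)
    have h3 : C * (4 * K + 9) / (2 * κ) ≤ T := by linarith
    have h4 := mul_le_mul_of_nonneg_right h3 (by positivity : (0:ℝ) ≤ 2 * κ)
    linarith
  refine ⟨max ρ₁ (T * C), 2 + T, hρ₁.trans (le_max_left _ _), by linarith, ?_⟩
  intro μ c ρ ν hμ hν hρ hQ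
  obtain ⟨hc1, hc2, -⟩ := hb μ c ρ ν hμ hν ((le_max_left _ _).trans hρ) hQ
  have hρ1 : 1 ≤ ρ := (hρ₁.trans (le_max_left _ _)).trans hρ
  have hρT : T * C ≤ ρ := (le_max_right _ _).trans hρ
  have hρ0 : 0 < ρ := by linarith
  have hcn : 0 < ‖c‖ := by
    by_contra h
    have h2 : ‖c‖ = 0 := le_antisymm (not_lt.1 h) (norm_nonneg c)
    rw [h2, mul_zero] at hc2
    linarith
  have hν1 : ‖ν‖ < 1 := lt_of_le_of_lt hν h1
  have hμ1 : ‖μ‖ < 1 := lt_of_le_of_lt hμ h1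
  have hν0 := norm_nonneg ν
  have hS0 : 0 < 1 - ‖ν‖ ^ 2 := by nlinarith
  have hS1 : 1 - ‖ν‖ ^ 2 ≤ 1 := by nlinarith
  have hSm : 1 - μ₀ ^ 2 ≤ 1 - ‖ν‖ ^ 2 := by nlinarith
  have hkpos : 0 < kap ρ ν := kap_pos hρ0 hν1
  have hkge : κ * ρ ^ 2 ≤ kap ρ ν := by
    have h2 : (1 - μ₀ ^ 2) ^ 2 ≤ (1 - ‖ν‖ ^ 2) ^ 2 := pow_le_pow_left₀ hs0.le hSm 2
    unfold kap
    rw [le_div_iff₀ (by positivity), hκ]
    have h3 : 0 ≤ ρ ^ 2 := sq_nonneg ρ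
    have h4 : ‖ν‖ ^ 2 ≤ 1 := by nlinarith
    have h5 : (1 - μ₀ ^ 2) ^ 2 / 2 * ρ ^ 2 * (1 + ‖ν‖ ^ 2) ≤ (1 - μ₀ ^ 2) ^ 2 / 2 * ρ ^ 2 * 2 := by
      apply mul_le_mul_of_nonneg_left (by linarith) (by positivity)
    have h6 := mul_le_mul_of_nonneg_left h2 h3
    linarith
  have hkle : kap ρ ν ≤ (ρ * (1 - ‖ν‖ ^ 2)) ^ 2 := by
    unfold kap
    rw [div_le_iff₀ (by positivity)]
    have h2 : 0 ≤ (ρ * (1 - ‖ν‖ ^ 2)) ^ 2 := sq_nonneg _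
    have h3 : 0 ≤ ‖ν‖ ^ 2 := sq_nonneg _
    nlinarith [mul_nonneg h2 h3]
  obtain ⟨t, ht⟩ : ∃ t : ℝ, t = T / ‖c‖ := ⟨_, rfl⟩
  have htc : t * ‖c‖ = T := by rw [ht]; exact div_mul_cancel₀ _ hcn.ne'
  have ht0 : 0 < t := by rw [ht]; exact div_pos (by linarith) hcn
  have ht1 : t ≤ 1 := by
    rw [ht, div_le_one hcn]
    have h2 : T * C ≤ C * ‖c‖ := hρT.trans hc2
    nlinarith
  have htk : T * κ * ρ ≤ C * (t * kap ρ ν) := by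
    have h2 : T ≤ t * (C * ρ) := by
      rw [← htc]
      exact mul_le_mul_of_nonneg_left hc1 ht0.le
    have h3 : T * κ * ρ ≤ t * (C * ρ) * (κ * ρ) := by
      have := mul_le_mul_of_nonneg_right h2 (by positivity : (0:ℝ) ≤ κ * ρ)
      linarith
    have h4 : C * t * (κ * ρ ^ 2) ≤ C * t * kap ρ ν :=
      mul_le_mul_of_nonneg_left hkge (by positivity)
    nlinarith
  have hqn : ‖-(t : ℂ) * c‖ = T := by
    rw [norm_mul, norm_neg, Complex.norm_real, Real.norm_eq_abs, abs_of_pos ht0, htc]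
  have hQq : QQ c ρ ν (-(t : ℂ) * c) = (1 + t) ^ 2 * QQ c ρ ν 0 + (2 * t + t ^ 2) * kap ρ ν := by
    unfold QQ
    rw [zc_vv0, norm_mul, Complex.norm_real, Real.norm_eq_abs, abs_of_pos (by linarith : 0 < 1 + t)]
    ring
  have hQbig : 8 * ρ < QQ c ρ ν (-(t : ℂ) * c) := by
    rw [hQq]
    have h2 : -(K * ρ) ≤ QQ c ρ ν 0 := (abs_le.1 hQ).1
    have h3 : (1 + t) ^ 2 ≤ 4 := by nlinarith
    have h4 : -(4 * (K * ρ)) ≤ (1 + t) ^ 2 * QQ c ρ ν 0 := by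
      have h5 : (1 + t) ^ 2 * -(K * ρ) ≤ (1 + t) ^ 2 * QQ c ρ ν 0 :=
        mul_le_mul_of_nonneg_left h2 (sq_nonneg _)
      have h6 : (1 + t) ^ 2 * (K * ρ) ≤ 4 * (K * ρ) :=
        mul_le_mul_of_nonneg_right h3 (by positivity)
      linarith
    have h7 : (4 * K + 9) * ρ ≤ 2 * (t * kap ρ ν) := by
      have h8 : (4 * K + 9) * C * ρ ≤ 2 * T * κ * ρ := mul_le_mul_of_nonneg_right hT1 hρ0.le
      have h9 : C * ((4 * K + 9) * ρ) ≤ C * (2 * (t * kap ρ ν)) := by linarith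
      exact le_of_mul_le_mul_left h9 hC
    have h10 : 0 ≤ t ^ 2 * kap ρ ν := by positivity
    nlinarith
  refine ⟨-(t : ℂ) * c, by rw [hqn]; linarith, ?_⟩
  intro z hz
  have hdist : 1 ≤ ‖z - -(t : ℂ) * c‖ := by
    rcases hz with hz | hz
    · by_contra hlt
      push Not at hlt
      have hvz : ‖vv c ρ ν z‖ ≤ 1 := by
        unfold QQ at hz
        by_contra h2
        push Not at h2
        have h3 : 0 < ‖vv c ρ ν z‖ ^ 2 - 1 := by nlinarith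
        have h4 := mul_pos hkpos h3
        linarith
      have hden : 0 < ρ * (1 - ‖ν‖ ^ 2) := mul_pos hρ0 hS0
      have hd : ‖vv c ρ ν (-(t : ℂ) * c) - vv c ρ ν z‖ ≤ 2 / (ρ * (1 - ‖ν‖ ^ 2)) := by
        rw [zc_vvd, norm_div, Complex.norm_real, Real.norm_eq_abs, abs_of_pos hden]
        apply div_le_div_of_nonneg_right _ hden.le
        have h2 : ‖-(t : ℂ) * c - z‖ ≤ 1 := by
          rw [norm_sub_rev]
          exact hlt.le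
        have h3 : ‖ν * conj (-(t : ℂ) * c - z)‖ ≤ 1 := by
          rw [norm_mul, Complex.norm_conj]
          nlinarith [norm_nonneg (-(t : ℂ) * c - z)]
        calc ‖-(t : ℂ) * c - z - ν * conj (-(t : ℂ) * c - z)‖
            ≤ ‖-(t : ℂ) * c - z‖ + ‖ν * conj (-(t : ℂ) * c - z)‖ := norm_sub_le _ _
          _ ≤ 2 := by linarith
      obtain ⟨D, hD⟩ : ∃ D : ℝ, D = ρ * (1 - ‖ν‖ ^ 2) := ⟨_, rfl⟩
      rw [← hD] at hden hd hkle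
      have hDρ : D ≤ ρ := by rw [hD]; nlinarith
      have hvq : ‖vv c ρ ν (-(t : ℂ) * c)‖ ≤ 1 + 2 / D := by
        have h2 := norm_sub_norm_le (vv c ρ ν (-(t : ℂ) * c)) (vv c ρ ν z)
        linarith
      have hvq2 : ‖vv c ρ ν (-(t : ℂ) * c)‖ ^ 2 - 1 ≤ 4 / D + 4 / D ^ 2 := by
        have h2 : ‖vv c ρ ν (-(t : ℂ) * c)‖ ^ 2 ≤ (1 + 2 / D) ^ 2 :=
          pow_le_pow_left₀ (norm_nonneg _) hvq 2
        have h3 : (1 + 2 / D) ^ 2 = 1 + (4 / D + 4 / D ^ 2) := by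
          field_simp
          ring
        linarith
      have hQle : QQ c ρ ν (-(t : ℂ) * c) ≤ 4 * D + 4 := by
        unfold QQ
        have h2 : kap ρ ν * (‖vv c ρ ν (-(t : ℂ) * c)‖ ^ 2 - 1) ≤ kap ρ ν * (4 / D + 4 / D ^ 2) :=
          mul_le_mul_of_nonneg_left hvq2 hkpos.le
        have h3 : kap ρ ν * (4 / D + 4 / D ^ 2) ≤ D ^ 2 * (4 / D + 4 / D ^ 2) :=
          mul_le_mul_of_nonneg_right hkle (by positivity)
        have h4 : D ^ 2 * (4 / D + 4 / D ^ 2) = 4 * D + 4 := by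
          field_simp
        linarith
      linarith
    · have hz2 : ‖z‖ ≤ 2 := by
        have hk1 : 0 < kap 1 μ := kap_pos one_pos hμ1
        have hvz : ‖vv 0 1 μ z‖ ≤ 1 := by
          unfold QQ at hz
          by_contra h2
          push Not at h2
          have h3 : 0 < ‖vv 0 1 μ z‖ ^ 2 - 1 := by nlinarith
          have h4 := mul_pos hk1 h3
          linarith
        rw [← zz_vv (c := 0) one_pos hμ1 z]
        unfold zz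
        rw [zero_add, Complex.ofReal_one, one_mul]
        calc ‖vv 0 1 μ z + μ * conj (vv 0 1 μ z)‖
            ≤ ‖vv 0 1 μ z‖ + ‖μ * conj (vv 0 1 μ z)‖ := norm_add_le _ _
          _ ≤ 2 := by
            rw [norm_mul, Complex.norm_conj]
            nlinarith [norm_nonneg (vv 0 1 μ z), norm_nonneg μ]
      have h2 := norm_sub_norm_le (-(t : ℂ) * c) z
      rw [hqn, norm_sub_rev] at h2
      linarith
  have h2 : ‖z‖ ≤ ‖z - -(t : ℂ) * c‖ + T := by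
    have h3 := norm_sub_norm_le z (-(t : ℂ) * c)
    rw [hqn] at h3
    linarith
  have h4 : 1 * (1 + T) ≤ ‖z - -(t : ℂ) * c‖ * (1 + T) :=
    mul_le_mul_of_nonneg_right hdist (by linarith)
  linarith

end EY1
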