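import Pool.Agent.H1.EW.Gp

/-!
ROW EY/Zd. `ker`: `θ : ℝ → ℝ` smooth, `0` for `s ≤ δ²/4`, `1` for `s ≥ δ²` (`Real.smoothTransition`), `T z = θ(‖z - z₁‖²)/(z - z₁)` (zero near `z₁`), `η z = θ'(‖z - z₁‖²)`: `∂̄ (‖z - z₁‖²) = z - z₁`. `∫_ball η h = π h z₁`: apply `pomp` (`EW/Gp.lean`) to `H = (1 - θ(‖z - z₁‖²)) h z` (extended by `0`; compact support in the ball):
`∂̄H = -θ' (z - z₁) h`, so `∫ ∂̄H/(z - z₁) = -∫ η h = -π h z₁`. (Or: mean value property on circles.) The constant `C` does not depend on `z₁` (translate).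
-/

set_option autoImplicit false

namespace EY1

open Complex Set Filter Topology MeasureTheory EW1
open scoped ComplexConjugate ContDiff Real

/-! ### cut-off -/

/-- the cut-off -/
noncomputable def Zd_th (δ s : ℝ) : ℝ := Real.smoothTransition ((s - δ ^ 2 / 4) / (δ ^ 2 / 4))

theorem Zd_smooth (δ : ℝ) : ContDiff ℝ ∞ (Zd_th δ) := by
  unfold Zd_th
  exact Real.smoothTransition.contDiff.comp ((contDiff_id.sub contDiff_const).div_const _)

theorem Zd_zero {δ : ℝ} (hδ : 0 < δ) {s : ℝ} (hs : s ≤ δ ^ 2 / 4) : Zd_th δ s = 0 := by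
  unfold Zd_th
  refine Real.smoothTransition.zero_of_nonpos ?_
  exact div_nonpos_of_nonpos_of_nonneg (by linarith) (by positivity)

theorem Zd_one {δ : ℝ} (hδ : 0 < δ) {s : ℝ} (hs : δ ^ 2 / 2 ≤ s) : Zd_th δ s = 1 := by
  unfold Zd_th
  refine Real.smoothTransition.one_of_one_le ?_
  rw [le_div_iff₀ (by positivity)]
  linarith

theorem Zd_nonneg (δ s : ℝ) : 0 ≤ Zd_th δ s := Real.smoothTransition.nonneg _

theorem Zd_le_one (δ s : ℝ) : Zd_th δ s ≤ 1 := Real.smoothTransition.le_one _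

theorem Zd_hasDeriv (δ s : ℝ) : HasDerivAt (Zd_th δ) (deriv (Zd_th δ) s) s :=
  ((Zd_smooth δ).differentiable (by simp) s).hasDerivAt

theorem Zd_d0 {δ : ℝ} (hδ : 0 < δ) {s : ℝ} (hs : s < δ ^ 2 / 4) : deriv (Zd_th δ) s = 0 := by
  have h : Zd_th δ =ᶠ[𝓝 s] fun _ => (0 : ℝ) := by
    filter_upwards [isOpen_Iio.mem_nhds hs] with t ht
    exact Zd_zero hδ (le_of_lt ht)
  rw [h.deriv_eq, deriv_const]

theorem Zd_d1 {δ : ℝ} (hδ : 0 < δ) {s : ℝ} (hs : δ ^ 2 / 2 < s) : deriv (Zd_th δ) s = 0 := by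
  have h : Zd_th δ =ᶠ[𝓝 s] fun _ => (1 : ℝ) := by
    filter_upwards [isOpen_Ioi.mem_nhds hs] with t ht
    exact Zd_one hδ (le_of_lt ht)
  rw [h.deriv_eq, deriv_const]

theorem Zd_dcont (δ : ℝ) : Continuous (deriv (Zd_th δ)) := (Zd_smooth δ).continuous_deriv (by simp)

/-! ### the product rule -/

theorem Zd_dbar {g : ℂ → ℝ} {g' : ℂ →L[ℝ] ℝ} {h : ℂ → ℂ} {h' z : ℂ} (hg : HasFDerivAt g g' z)
    (hh : HasDerivAt h h' z) :
    dbar (fun w => (g w : ℂ) * h w) z = h z * (((g' 1 : ℝ) : ℂ) + I * ((g' I : ℝ) : ℂ)) / 2 := by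
  have h1 : HasFDerivAt (fun w => (g w : ℂ)) (Complex.ofRealCLM.comp g') z :=
    Complex.ofRealCLM.hasFDerivAt.comp z hg
  have h2 := h1.mul hh.complexToReal_fderiv
  unfold dbar
  have h3 : (fun w => (g w : ℂ) * h w) = (fun w => (g w : ℂ)) * h := rfl
  rw [h3, h2.fderiv]
  simp only [_root_.add_apply, _root_.smul_apply, ContinuousLinearMap.comp_apply,
    Complex.ofRealCLM_apply, one_apply_eq_self, smul_eq_mul]
  linear_combination (g z : ℂ) * h' / 2 * Complex.I_sq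

theorem Zd_N (z₁ z : ℂ) : HasFDerivAt (fun w : ℂ => ‖w - z₁‖ ^ 2) (2 • (innerSL ℝ (z - z₁))) z := by
  have h1 : HasFDerivAt (fun w : ℂ => w - z₁) (ContinuousLinearMap.id ℝ ℂ) z :=
    (hasFDerivAt_id z).sub_const z₁
  have h2 := (hasStrictFDerivAt_norm_sq (z - z₁)).hasFDerivAt.comp z h1
  rw [ContinuousLinearMap.comp_id] at h2
  exact h2

theorem Zd_N1 (w : ℂ) : ((((2 • (innerSL ℝ w)) : ℂ →L[ℝ] ℝ) 1 : ℝ) : ℂ) +
    I * ((((2 • (innerSL ℝ w)) : ℂ →L[ℝ] ℝ) I : ℝ) : ℂ) = 2 * w := by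
  apply Complex.ext <;> simp [Complex.inner]

theorem Zd_th_dbar {δ : ℝ} {z₁ z : ℂ} {h : ℂ → ℂ} {h' : ℂ} (hh : HasDerivAt h h' z) (a b : ℝ) :
    dbar (fun w => ((a + b * Zd_th δ (‖w - z₁‖ ^ 2) : ℝ) : ℂ) * h w) z =
      b * (deriv (Zd_th δ) (‖z - z₁‖ ^ 2) : ℝ) * (z - z₁) * h z := by
  have h1 : HasFDerivAt (fun w : ℂ => Zd_th δ (‖w - z₁‖ ^ 2))
      (deriv (Zd_th δ) (‖z - z₁‖ ^ 2) • (2 • (innerSL ℝ (z - z₁)) : ℂ →L[ℝ] ℝ)) z :=
    (Zd_hasDeriv δ _).comp_hasFDerivAt z (Zd_N z₁ z)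
  have h2 : HasFDerivAt (fun w : ℂ => a + b * Zd_th δ (‖w - z₁‖ ^ 2))
      (b • deriv (Zd_th δ) (‖z - z₁‖ ^ 2) • (2 • (innerSL ℝ (z - z₁)) : ℂ →L[ℝ] ℝ)) z :=
    (h1.const_mul b).const_add a
  rw [Zd_dbar h2 hh]
  have h3 := Zd_N1 (z - z₁)
  simp only [_root_.smul_apply, smul_eq_mul, Complex.ofReal_mul] at h3 ⊢
  linear_combination (h z * b * (deriv (Zd_th δ) (‖z - z₁‖ ^ 2) : ℝ) / 2) * h3

theorem ker {δ : ℝ} (hδ : 0 < δ) : ∃ C : ℝ, 0 < C ∧ ∀ z₁ : ℂ, ∃ T η : ℂ → ℂ, ContDiff ℝ ∞ T ∧ Continuous η ∧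
    (∀ z, dbar T z = η z) ∧ (∀ z, ‖T z‖ ≤ C) ∧ (∀ z, ‖η z‖ ≤ C) ∧ (∀ z, δ ≤ ‖z - z₁‖ → η z = 0) ∧
    ∀ h : ℂ → ℂ, DifferentiableOn ℂ h (Metric.ball z₁ (2 * δ)) → ∫ z in Metric.ball z₁ δ, η z * h z = π * h z₁ := by
  have hδ2 : 0 < δ ^ 2 := by positivity
  -- the bound for the derivative
  obtain ⟨C₁, hC₁⟩ : ∃ C₁ : ℝ, ∀ w : ℂ, ‖deriv (Zd_th δ) (‖w‖ ^ 2)‖ ≤ C₁ := by
    have hc : Continuous (fun w : ℂ => deriv (Zd_th δ) (‖w‖ ^ 2)) :=
      (Zd_dcont δ).comp (continuous_norm.pow 2)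
    have hs : HasCompactSupport (fun w : ℂ => deriv (Zd_th δ) (‖w‖ ^ 2)) := by
      refine HasCompactSupport.intro (isCompact_closedBall (0 : ℂ) δ) fun w hw => ?_
      rw [mem_closedBall_zero_iff, not_le] at hw
      exact Zd_d1 hδ (by nlinarith)
    exact hs.exists_bound_of_continuous hc
  have hC₁0 : 0 ≤ C₁ := (norm_nonneg _).trans (hC₁ 0)
  refine ⟨2 / δ + C₁, by positivity, fun z₁ => ?_⟩
  have h00 : deriv (Zd_th δ) (‖z₁ - z₁‖ ^ 2) = 0 := Zd_d0 hδ (by rw [sub_self, norm_zero]; nlinarith)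
  refine ⟨fun z => (Zd_th δ (‖z - z₁‖ ^ 2) : ℂ) * (z - z₁)⁻¹, fun z => (deriv (Zd_th δ) (‖z - z₁‖ ^ 2) : ℝ),
    ?_, ?_, ?_, ?_, ?_, ?_, ?_⟩
  · -- smoothness of `T`
    rw [contDiff_iff_contDiffAt]
    intro z
    by_cases hz : z = z₁
    · have h : (fun z => (Zd_th δ (‖z - z₁‖ ^ 2) : ℂ) * (z - z₁)⁻¹) =ᶠ[𝓝 z] fun _ => (0 : ℂ) := by
        have ho : Metric.ball z₁ (δ / 2) ∈ 𝓝 z := by
          rw [hz]; exact Metric.ball_mem_nhds _ (by positivity)
        filter_upwards [ho] with w hw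
        rw [Metric.mem_ball, dist_eq_norm] at hw
        rw [Zd_zero hδ (by nlinarith [norm_nonneg (w - z₁)])]
        simp
      exact contDiffAt_const.congr_of_eventuallyEq h
    · have hz' : z - z₁ ≠ 0 := sub_ne_zero.2 hz
      have h1 : ContDiffAt ℝ ∞ (fun z : ℂ => ‖z - z₁‖ ^ 2) z :=
        ((contDiff_norm_sq ℝ).comp (contDiff_id.sub contDiff_const)).contDiffAt
      have h2 : ContDiffAt ℝ ∞ (fun z : ℂ => (Zd_th δ (‖z - z₁‖ ^ 2) : ℂ)) z :=
        Complex.ofRealCLM.contDiff.contDiffAt.comp z ((Zd_smooth δ).contDiffAt.comp z h1)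
      have h3 : ContDiffAt ℝ ∞ (fun z : ℂ => (z - z₁)⁻¹) z :=
        (contDiffAt_id.sub contDiffAt_const).inv hz'
      exact h2.mul h3
  · exact Complex.continuous_ofReal.comp ((Zd_dcont δ).comp ((continuous_id.sub continuous_const).norm.pow 2))
  · -- `∂̄ T = η`
    intro z
    by_cases hz : z = z₁
    · beta_reduce
      rw [hz, h00]
      have h : (fun z => (Zd_th δ (‖z - z₁‖ ^ 2) : ℂ) * (z - z₁)⁻¹) =ᶠ[𝓝 z₁] fun _ => (0 : ℂ) := by
        filter_upwards [Metric.ball_mem_nhds z₁ (show 0 < δ / 2 by positivity)] with w hw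
        rw [Metric.mem_ball, dist_eq_norm] at hw
        rw [Zd_zero hδ (by nlinarith [norm_nonneg (w - z₁)])]
        simp
      unfold dbar
      rw [h.fderiv_eq]
      simp
    · have hz' : z - z₁ ≠ 0 := sub_ne_zero.2 hz
      have h1 : HasDerivAt (fun w : ℂ => (w - z₁)⁻¹) (-1 / (z - z₁) ^ 2) z :=
        ((hasDerivAt_id z).sub_const z₁).inv hz'
      have h2 := Zd_th_dbar (δ := δ) (z₁ := z₁) h1 0 1
      simp only [zero_add, one_mul, Complex.ofReal_one] at h2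
      rw [h2, mul_assoc, mul_inv_cancel₀ hz', mul_one]
  · intro z
    beta_reduce
    by_cases hz : ‖z - z₁‖ ≤ δ / 2
    · rw [Zd_zero hδ (by nlinarith [norm_nonneg (z - z₁)])]
      simp only [Complex.ofReal_zero, zero_mul, norm_zero]
      positivity
    · rw [not_le] at hz
      rw [norm_mul, Complex.norm_real, Real.norm_eq_abs, abs_of_nonneg (Zd_nonneg _ _), norm_inv]
      have h1 : ‖z - z₁‖⁻¹ ≤ 2 / δ := by
        rw [inv_le_comm₀ (by linarith) (by positivity), inv_div]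
        exact hz.le
      have h2 : Zd_th δ (‖z - z₁‖ ^ 2) * ‖z - z₁‖⁻¹ ≤ 1 * (2 / δ) :=
        mul_le_mul (Zd_le_one _ _) h1 (by positivity) (by norm_num)
      linarith
  · intro z
    rw [Complex.norm_real]
    have h1 := hC₁ (z - z₁)
    have h2 : 0 ≤ 2 / δ := by positivity
    linarith
  · intro z hz
    beta_reduce
    rw [Zd_d1 hδ (by nlinarith), Complex.ofReal_zero]
  · intro h hh
    -- `H = (1 - θ) h`
    set H : ℂ → ℂ := fun w => ((1 + (-1) * Zd_th δ (‖w - z₁‖ ^ 2) : ℝ) : ℂ) * h w with hH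
    have hH0 : ∀ w, δ ≤ ‖w - z₁‖ → H w = 0 := by
      intro w hw
      simp only [hH]
      rw [Zd_one hδ (by nlinarith)]
      simp
    have hHe : ∀ w, δ < ‖w - z₁‖ → H =ᶠ[𝓝 w] fun _ => (0 : ℂ) := by
      intro w hw
      have ho : IsOpen {w : ℂ | δ < ‖w - z₁‖} :=
        isOpen_lt continuous_const (continuous_id.sub continuous_const).norm
      filter_upwards [ho.mem_nhds hw] with y hy
      exact hH0 y (le_of_lt hy)
    have hHs : ContDiff ℝ 1 H := by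
      rw [contDiff_iff_contDiffAt]
      intro z
      by_cases hz : δ < ‖z - z₁‖
      · exact contDiffAt_const.congr_of_eventuallyEq (hHe z hz)
      · rw [not_lt] at hz
        have hzb : z ∈ Metric.ball z₁ (2 * δ) := by
          rw [Metric.mem_ball, dist_eq_norm]; linarith
        have h1 : ContDiffAt ℝ 1 (fun z : ℂ => ‖z - z₁‖ ^ 2) z :=
          ((contDiff_norm_sq ℝ).comp (contDiff_id.sub contDiff_const)).contDiffAt
        have h2 : ContDiffAt ℝ 1 (fun z : ℂ => ((1 + (-1) * Zd_th δ (‖z - z₁‖ ^ 2) : ℝ) : ℂ)) z :=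
          Complex.ofRealCLM.contDiff.contDiffAt.comp z
            (contDiffAt_const.add (contDiffAt_const.mul
              (((Zd_smooth δ).of_le (by exact_mod_cast le_top)).contDiffAt.comp z h1)))
        have h3 : ContDiffAt ℝ 1 h z := by
          have h4 : ContDiffAt ℂ 1 h z := (hh.analyticAt (Metric.isOpen_ball.mem_nhds hzb)).contDiffAt
          exact h4.restrict_scalars ℝ
        exact h2.mul h3
    have hHc : HasCompactSupport H := by
      refine HasCompactSupport.intro (isCompact_closedBall z₁ δ) fun w hw => ?_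
      rw [Metric.mem_closedBall, dist_eq_norm, not_le] at hw
      exact hH0 w hw.le
    have key := pomp hHs hHc z₁
    have hdb : ∀ z, dbar H z / (z - z₁) = -((deriv (Zd_th δ) (‖z - z₁‖ ^ 2) : ℝ) * h z) := by
      intro z
      by_cases hz : δ < ‖z - z₁‖
      · have h1 : dbar H z = 0 := by
          unfold dbar
          rw [(hHe z hz).fderiv_eq]
          simp
        rw [h1, Zd_d1 hδ (by nlinarith)]
        simp
      · rw [not_lt] at hz
        have hzb : z ∈ Metric.ball z₁ (2 * δ) := by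
          rw [Metric.mem_ball, dist_eq_norm]; linarith
        have h3 : HasDerivAt h (deriv h z) z :=
          (hh.differentiableAt (Metric.isOpen_ball.mem_nhds hzb)).hasDerivAt
        have h4 := Zd_th_dbar (δ := δ) (z₁ := z₁) h3 1 (-1)
        rw [show dbar H z = _ from h4]
        by_cases hz1 : z = z₁
        · rw [hz1, h00]
          simp
        · have hz' : z - z₁ ≠ 0 := sub_ne_zero.2 hz1
          field_simp
          push_cast
          ring
    simp only [hdb] at key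
    rw [integral_neg] at key
    have h5 : H z₁ = h z₁ := by
      simp only [hH]
      rw [Zd_zero hδ (by rw [sub_self, norm_zero]; nlinarith)]
      simp
    rw [h5] at key
    have h6 : ∫ z, ((deriv (Zd_th δ) (‖z - z₁‖ ^ 2) : ℝ) : ℂ) * h z = π * h z₁ := neg_injective key
    rw [← h6]
    refine setIntegral_eq_integral_of_forall_compl_eq_zero fun z hz => ?_
    rw [Metric.mem_ball, dist_eq_norm, not_lt] at hz
    beta_reduce
    rw [Zd_d1 hδ (by nlinarith)]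
    simp

end EY1
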