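import Pool.Agent.H1.EW.Gq

/-!
ROW EY/Zg. `dom0`: `∫_D ∂̄Y m = 0` if `Y = QQ² W`: `pompD` (`EW/Gq.lean`) for the function `m(z)(z - z₁)`, `z₁` a point of the ellipse (the center).
`idT`: `Y₁ = (P-y)²(P+2y)`, `Y₂ = y²(3P-2y)`, `Y₁ + Y₂ = P³`, `∂̄Y₂ = 6 y (P-y) ∂̄y = -∂̄Y₁` (`P` holomorphic). `dom0` for `Y₁ T` on the first ellipse (`P - y = -QQ₁ Z`) and `Y₂ T` on the second one (`y = QQ₂ V`): `∫_{D₁} (∂̄Y₁ T + Y₁ η) m = 0`, `∫_{D₂} (∂̄Y₂ T + Y₂ η) m = 0`.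
Add, split into `D₁ ∩ D₂`, `D₁ \ D₂`, `D₂ \ D₁`; `η = 0` outside `D₁`. (Everything is continuous on the compact closed ellipses, hence integrable.)
-/

set_option autoImplicit false

namespace EY1

open Complex Set Filter Topology MeasureTheory EW1
open scoped ComplexConjugate ContDiff Real

theorem dom0 {c : ℂ} {r : ℝ} (hr : 0 < r) {μ : ℂ} (hμ : ‖μ‖ < 1) {Y W m : ℂ → ℂ} (hY : ContDiff ℝ 1 Y) (hW : ContDiff ℝ 1 W)
    (hYW : ∀ z, Y z = (QQ c r μ z : ℂ) ^ 2 * W z) {N : Set ℂ} (hN : IsOpen N) (hDN : {z | ‖vv c r μ z‖ ≤ 1} ⊆ N)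
    (hm : DifferentiableOn ℂ m N) : ∫ z in Dp c r μ 1, dbar Y z * m z = 0 := by
  have hc : c ∈ Dp c r μ 1 := by
    show ‖vv c r μ c‖ < 1
    simp [vv]
  have hm' : DifferentiableOn ℂ (fun z => m z * (z - c)) N :=
    hm.mul (differentiableOn_id.sub (differentiableOn_const c))
  have h := pompD hr hμ hY hW hYW hN hDN hm' hc
  simp only [sub_self, mul_zero, neg_zero] at h
  rw [← h]
  refine setIntegral_congr_ae (Dp_open c r μ 1).measurableSet ?_
  have h0 : ∀ᵐ z : ℂ, z ≠ c := by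
    rw [ae_iff]
    simp
  filter_upwards [h0] with z hz _
  have : z - c ≠ 0 := sub_ne_zero.2 hz
  field_simp

/-- the derivative `dbar` at a point from the real derivative -/
private theorem zg_of {F : ℂ → ℂ} {z : ℂ} {L : ℂ →L[ℝ] ℂ} (h : HasFDerivAt F L z) :
    dbar F z = (L 1 + I * L I) / 2 := by
  unfold dbar
  rw [h.fderiv]

private theorem zg_hol {P : ℂ → ℂ} (hP : Differentiable ℂ P) (z : ℂ) : dbar P z = 0 := by
  have h1 : HasFDerivAt P (((fderiv ℂ P z).restrictScalars ℝ) : ℂ →L[ℝ] ℂ) z :=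
    (hP z).hasFDerivAt.restrictScalars ℝ
  rw [zg_of h1]
  have h5 : fderiv ℂ P z I = I * fderiv ℂ P z 1 := by
    have := (fderiv ℂ P z).map_smul I 1
    rw [smul_eq_mul, mul_one, smul_eq_mul] at this
    exact this
  simp only [ContinuousLinearMap.coe_restrictScalars']
  rw [h5]
  linear_combination (1 / 2 * fderiv ℂ P z 1) * Complex.I_mul_I

private theorem zg_mul {F G : ℂ → ℂ} {z : ℂ} (hF : DifferentiableAt ℝ F z)
    (hG : DifferentiableAt ℝ G z) :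
    dbar (fun z => F z * G z) z = dbar F z * G z + F z * dbar G z := by
  have h := hF.hasFDerivAt.mul hG.hasFDerivAt
  have e : dbar (fun z => F z * G z) z = _ := zg_of h
  rw [e]
  unfold dbar
  simp only [add_apply, smul_apply, smul_eq_mul]
  ring

private theorem zg_add {F G : ℂ → ℂ} {z : ℂ} (hF : DifferentiableAt ℝ F z)
    (hG : DifferentiableAt ℝ G z) :
    dbar (fun z => F z + G z) z = dbar F z + dbar G z := by
  have h := hF.hasFDerivAt.add hG.hasFDerivAt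
  have e : dbar (fun z => F z + G z) z = _ := zg_of h
  rw [e]
  unfold dbar
  simp only [add_apply]
  ring

private theorem zg_smul {F : ℂ → ℂ} {z : ℂ} (hF : DifferentiableAt ℝ F z) (a : ℂ) :
    dbar (fun z => a * F z) z = a * dbar F z := by
  have h := hF.hasFDerivAt.const_mul a
  have e : dbar (fun z => a * F z) z = _ := zg_of h
  rw [e]
  unfold dbar
  simp only [smul_apply, smul_eq_mul]
  ring

private theorem zg_cont {y : ℂ → ℂ} (hy : ContDiff ℝ ∞ y) : Continuous (dbar y) := by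
  have h1 : Continuous (fderiv ℝ y) := hy.continuous_fderiv (by simp)
  unfold dbar
  exact ((h1.clm_apply continuous_const).add
    (continuous_const.mul (h1.clm_apply continuous_const))).div_const 2

theorem idT {c₁ : ℂ} {r₁ : ℝ} {μ₁ c₂ : ℂ} {r₂ : ℝ} {μ₂ : ℂ} (hr₁ : 0 < r₁) (hr₂ : 0 < r₂) (hμ₁ : ‖μ₁‖ < 1) (hμ₂ : ‖μ₂‖ < 1)
    {N : Set ℂ} (hN : IsOpen N) (hN₁ : {z | ‖vv c₁ r₁ μ₁ z‖ ≤ 1} ⊆ N) (hN₂ : {z | ‖vv c₂ r₂ μ₂ z‖ ≤ 1} ⊆ N) {m : ℂ → ℂ}
    (hm : DifferentiableOn ℂ m N) {P y Z V T η : ℂ → ℂ} (hP : Differentiable ℂ P) (hy : ContDiff ℝ ∞ y) (hZ : ContDiff ℝ ∞ Z)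
    (hV : ContDiff ℝ ∞ V) (hT : ContDiff ℝ ∞ T) (hη : Continuous η) (hTη : ∀ z, dbar T z = η z)
    (hyV : ∀ z, y z = (QQ c₂ r₂ μ₂ z : ℂ) * V z) (hyZ : ∀ z, y z - P z = (QQ c₁ r₁ μ₁ z : ℂ) * Z z)
    (hs : ∀ z, z ∉ Dp c₁ r₁ μ₁ 1 → η z = 0) :
    ∫ z in Dp c₁ r₁ μ₁ 1, P z ^ 3 * η z * m z =
      (∫ z in Dp c₁ r₁ μ₁ 1 \ Dp c₂ r₂ μ₂ 1, 6 * y z * (P z - y z) * dbar y z * T z * m z) -
      (∫ z in Dp c₂ r₂ μ₂ 1 \ Dp c₁ r₁ μ₁ 1, 6 * y z * (P z - y z) * dbar y z * T z * m z) +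
      ∫ z in Dp c₁ r₁ μ₁ 1 \ Dp c₂ r₂ μ₂ 1, y z ^ 2 * (3 * P z - 2 * y z) * η z * m z := by
  set D₁ := Dp c₁ r₁ μ₁ 1 with hD₁
  set D₂ := Dp c₂ r₂ μ₂ 1 with hD₂
  have mD₁ : MeasurableSet D₁ := (Dp_open c₁ r₁ μ₁ 1).measurableSet
  have mD₂ : MeasurableSet D₂ := (Dp_open c₂ r₂ μ₂ 1).measurableSet
  have hPR : ContDiff ℝ ∞ P := hP.contDiff.restrict_scalars ℝ
  have h1le : (1 : WithTop ℕ∞) ≤ ∞ := by exact_mod_cast le_top
  have dP : ∀ z, DifferentiableAt ℝ P z := fun z => hPR.differentiable (by simp) z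
  have dy : ∀ z, DifferentiableAt ℝ y z := fun z => hy.differentiable (by simp) z
  have dT : ∀ z, DifferentiableAt ℝ T z := fun z => hT.differentiable (by simp) z
  -- the two functions
  set Y₁ : ℂ → ℂ := fun z => ((P z + (-1) * y z) * (P z + (-1) * y z)) * (P z + 2 * y z) * T z with hY₁
  set Y₂ : ℂ → ℂ := fun z => (y z * y z) * (3 * P z + (-2) * y z) * T z with hY₂
  have dbar₁ : ∀ z, dbar Y₁ z = -(6 * y z * (P z - y z) * dbar y z * T z) +
      (P z - y z) ^ 2 * (P z + 2 * y z) * η z := by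
    intro z
    have a1 : DifferentiableAt ℝ (fun z => P z + (-1) * y z) z := (dP z).add ((dy z).const_mul _)
    have a2 : DifferentiableAt ℝ (fun z => P z + 2 * y z) z := (dP z).add ((dy z).const_mul _)
    have a3 : DifferentiableAt ℝ (fun z => (P z + (-1) * y z) * (P z + (-1) * y z)) z := a1.mul a1
    have a4 : DifferentiableAt ℝ
      (fun z => ((P z + (-1) * y z) * (P z + (-1) * y z)) * (P z + 2 * y z)) z := a3.mul a2
    rw [hY₁, zg_mul a4 (dT z), zg_mul a3 a2, zg_mul a1 a1, zg_add (dP z) ((dy z).const_mul _),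
      zg_add (dP z) ((dy z).const_mul _), zg_smul (dy z), zg_smul (dy z), zg_hol hP, hTη]
    ring
  have dbar₂ : ∀ z, dbar Y₂ z = 6 * y z * (P z - y z) * dbar y z * T z +
      y z ^ 2 * (3 * P z - 2 * y z) * η z := by
    intro z
    have a1 : DifferentiableAt ℝ (fun z => y z * y z) z := (dy z).mul (dy z)
    have a2 : DifferentiableAt ℝ (fun z => 3 * P z + (-2) * y z) z :=
      ((dP z).const_mul _).add ((dy z).const_mul _)
    have a3 : DifferentiableAt ℝ (fun z => (y z * y z) * (3 * P z + (-2) * y z)) z := a1.mul a2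
    rw [hY₂, zg_mul a3 (dT z), zg_mul a1 a2, zg_mul (dy z) (dy z),
      zg_add ((dP z).const_mul _) ((dy z).const_mul _), zg_smul (dy z), zg_smul (dP z), zg_hol hP,
      hTη]
    ring
  have cY₁ : ContDiff ℝ 1 Y₁ := by
    refine ContDiff.of_le ?_ h1le
    exact (((hPR.add (contDiff_const.mul hy)).mul (hPR.add (contDiff_const.mul hy))).mul
      (hPR.add (contDiff_const.mul hy))).mul hT
  have cY₂ : ContDiff ℝ 1 Y₂ := by
    refine ContDiff.of_le ?_ h1le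
    exact ((hy.mul hy).mul ((contDiff_const.mul hPR).add (contDiff_const.mul hy))).mul hT
  have cW₁ : ContDiff ℝ 1 (fun z => Z z * Z z * (P z + 2 * y z) * T z) := by
    refine ContDiff.of_le ?_ h1le
    exact ((hZ.mul hZ).mul (hPR.add (contDiff_const.mul hy))).mul hT
  have cW₂ : ContDiff ℝ 1 (fun z => V z * V z * (3 * P z + (-2) * y z) * T z) := by
    refine ContDiff.of_le ?_ h1le
    exact ((hV.mul hV).mul ((contDiff_const.mul hPR).add (contDiff_const.mul hy))).mul hT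
  have I₁ := dom0 hr₁ hμ₁ cY₁ cW₁ (fun z => by
    have h := hyZ z
    have e : P z + (-1) * y z = -((QQ c₁ r₁ μ₁ z : ℂ) * Z z) := by rw [← h]; ring
    simp only [hY₁]
    rw [e]
    ring) hN hN₁ hm
  have I₂ := dom0 hr₂ hμ₂ cY₂ cW₂ (fun z => by
    have h := hyV z
    have e : y z * y z = ((QQ c₂ r₂ μ₂ z : ℂ) * V z) * ((QQ c₂ r₂ μ₂ z : ℂ) * V z) := by rw [← h]
    simp only [hY₂]
    rw [e]
    ring) hN hN₂ hm
  -- names
  obtain ⟨g, hg⟩ : ∃ g : ℂ → ℂ, g = fun z => 6 * y z * (P z - y z) * dbar y z * T z * m z := ⟨_, rfl⟩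
  obtain ⟨e₁, he₁⟩ : ∃ e₁ : ℂ → ℂ, e₁ = fun z => (P z - y z) ^ 2 * (P z + 2 * y z) * η z * m z := ⟨_, rfl⟩
  obtain ⟨e₂, he₂⟩ : ∃ e₂ : ℂ → ℂ, e₂ = fun z => y z ^ 2 * (3 * P z - 2 * y z) * η z * m z := ⟨_, rfl⟩
  have cg : ∀ s ⊆ N, ContinuousOn g s := fun s hs' => by
    rw [hg]
    have hmc : ContinuousOn m s := hm.continuousOn.mono hs'
    have : Continuous fun z => 6 * y z * (P z - y z) * dbar y z * T z :=
      (((continuous_const.mul hy.continuous).mul (hP.continuous.sub hy.continuous)).mul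
        (zg_cont hy)).mul hT.continuous
    exact this.continuousOn.mul hmc
  have ce₁ : ∀ s ⊆ N, ContinuousOn e₁ s := fun s hs' => by
    rw [he₁]
    have hmc : ContinuousOn m s := hm.continuousOn.mono hs'
    have : Continuous fun z => (P z - y z) ^ 2 * (P z + 2 * y z) * η z :=
      (((hP.continuous.sub hy.continuous).pow 2).mul
        (hP.continuous.add (continuous_const.mul hy.continuous))).mul hη
    exact this.continuousOn.mul hmc
  have ce₂ : ∀ s ⊆ N, ContinuousOn e₂ s := fun s hs' => by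
    rw [he₂]
    have hmc : ContinuousOn m s := hm.continuousOn.mono hs'
    have : Continuous fun z => y z ^ 2 * (3 * P z - 2 * y z) * η z :=
      ((hy.continuous.pow 2).mul
        ((continuous_const.mul hP.continuous).sub (continuous_const.mul hy.continuous))).mul hη
    exact this.continuousOn.mul hmc
  have int₁ : ∀ f : ℂ → ℂ, (∀ s ⊆ N, ContinuousOn f s) → IntegrableOn f D₁ := fun f hf =>
    ((hf _ hN₁).integrableOn_compact (cDp_compact hr₁ hμ₁ 1)).mono_set fun z hz =>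
      le_of_lt (show ‖vv c₁ r₁ μ₁ z‖ < 1 from hz)
  have int₂ : ∀ f : ℂ → ℂ, (∀ s ⊆ N, ContinuousOn f s) → IntegrableOn f D₂ := fun f hf =>
    ((hf _ hN₂).integrableOn_compact (cDp_compact hr₂ hμ₂ 1)).mono_set fun z hz =>
      le_of_lt (show ‖vv c₂ r₂ μ₂ z‖ < 1 from hz)
  have J₁ : -(∫ z in D₁, g z) + ∫ z in D₁, e₁ z = 0 := by
    have h : (∫ z in D₁, (e₁ z - g z)) = 0 := by
      rw [← I₁]
      refine setIntegral_congr_fun mD₁ fun z _ => ?_
      rw [dbar₁]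
      simp only [hg, he₁]
      ring
    rw [integral_sub (int₁ e₁ ce₁) (int₁ g cg)] at h
    linear_combination h
  have J₂ : (∫ z in D₂, g z) + ∫ z in D₂, e₂ z = 0 := by
    rw [← integral_add (int₂ g cg) (int₂ e₂ ce₂), ← I₂]
    refine setIntegral_congr_fun mD₂ fun z _ => ?_
    rw [dbar₂]
    simp only [hg, he₂]
    ring
  have L : ∫ z in D₁, P z ^ 3 * η z * m z = (∫ z in D₁, e₁ z) + ∫ z in D₁, e₂ z := by
    rw [← integral_add (int₁ e₁ ce₁) (int₁ e₂ ce₂)]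
    refine setIntegral_congr_fun mD₁ fun z _ => ?_
    simp only [he₁, he₂]
    ring
  -- splittings
  have split₁ : ∀ f : ℂ → ℂ, IntegrableOn f D₁ →
      ∫ z in D₁, f z = (∫ z in D₁ ∩ D₂, f z) + ∫ z in D₁ \ D₂, f z := fun f hf =>
    (integral_inter_add_sdiff mD₂ hf).symm
  have split₂ : ∀ f : ℂ → ℂ, IntegrableOn f D₂ →
      ∫ z in D₂, f z = (∫ z in D₁ ∩ D₂, f z) + ∫ z in D₂ \ D₁, f z := fun f hf => by
    rw [inter_comm]
    exact (integral_inter_add_sdiff mD₁ hf).symm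
  have z0 : ∫ z in D₂ \ D₁, e₂ z = 0 := by
    have : ∫ z in D₂ \ D₁, e₂ z = ∫ z in D₂ \ D₁, (0 : ℂ) := by
      refine setIntegral_congr_fun (mD₂.diff mD₁) fun z hz => ?_
      simp only [he₂]
      rw [hs z hz.2]
      ring
    rw [this]
    simp
  have s1 := split₁ g (int₁ g cg)
  have s2 := split₂ g (int₂ g cg)
  have s3 := split₁ e₂ (int₁ e₂ ce₂)
  have s4 := split₂ e₂ (int₂ e₂ ce₂)
  rw [L]
  have hgoal : (∫ z in D₁, e₁ z) + ∫ z in D₁, e₂ z =
      (∫ z in D₁ \ D₂, g z) - (∫ z in D₂ \ D₁, g z) + ∫ z in D₁ \ D₂, e₂ z := by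
    rw [z0, add_zero] at s4
    rw [s4, s2] at J₂
    rw [s1] at J₁
    rw [s3]
    linear_combination J₁ + J₂
  rw [hgoal, hg, he₂]

end EY1
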