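import Pool.Agent.H1.EY.Zc
import Pool.Agent.H1.EY.Zd
import Pool.Agent.H1.EY.Zg
import Pool.Agent.H1.EW.Ga

/-!
ROW EY/Ze. The estimate. `D = Dp 0 1 μ 1`, `D' = Dp c ρ ν 1`, `w = |QQ c ρ ν - QQ 0 1 μ|/ρ`, `q' = QQ c ρ ν/ρ`. On `D' \ D`: `q' ≤ 0 ≤ QQ 0 1 μ`, so `|q'| ≤ w`; on `D \ D'`: `q' ≥ 0 ≥ QQ 0 1 μ`, so `|q'| ≤ w`. So there `‖y‖ ≤ C₀ w (1+‖z‖)⁴`, `‖P - y‖ ≤ |QQ 0 1 μ| ‖Z‖ ≤ C (1+‖z‖)⁶`,
`‖dbar y‖ ≤ C₀ (1+‖z‖)⁴`, `w ≤ C (1+‖z‖)²`. Take `q` from `outq`, and `m₁ z = m z * ((z₁ - q)/(z - q))^17` on `N \ {q}` (`q` is in neither closed ellipse: `QQ ≤ 0` there and `‖z - q‖ > 0`): `‖(z₁ - q)/(z - q)‖ ≤ C/(1+‖z‖)` on `D ∪ D'` (`‖z₁‖ ≤ 2`). `ker` (`δ`), `idT` for `m₁` (with `V/ρ` in place of `V`):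
left side `π P(z₁)³ m(z₁)`. Right side: `‖6 y (P-y) dbar y T m₁‖ ≤ C w (1+‖z‖)^14 ‖m‖ (1+‖z‖)^(-17)`; Cauchy–Schwarz: `∫ w ‖m‖ (1+‖z‖)^(-3) ≤ (∫ w ‖m‖²)^(1/2) (∫ w (1+‖z‖)^(-6))^(1/2)` and `w (1+‖z‖)^(-6) ≤ C (1+‖z‖)^(-4)`, integrable on the plane (`integrable_one_add_norm`).
Third term: on `D` (`‖z‖ ≤ 2`) `‖y‖² ‖3P - 2y‖ ‖η‖ ≤ C w`. `∫_{(D\D')∪(D'\D)} w ‖m‖² = NN 0 1 μ c ρ ν m/ρ`.
-/

set_option autoImplicit false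

namespace EY1

open Complex Set Filter Topology MeasureTheory EW1 EX1
open scoped ComplexConjugate ContDiff Real

private theorem Ze_QQ {μ : ℂ} (hμ : ‖μ‖ < 1) (z : ℂ) : |QQ 0 1 μ z| ≤ 2 * (1 + ‖z‖) ^ 2 := by
  have hm := norm_nonneg μ
  have hz := norm_nonneg z
  have h1 : 0 < 1 - ‖μ‖ ^ 2 := by nlinarith
  have h2 : 0 < 1 + ‖μ‖ ^ 2 := by positivity
  have hv : ‖vv 0 1 μ z‖ ≤ (1 + ‖μ‖) * ‖z‖ / (1 - ‖μ‖ ^ 2) := by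
    unfold vv
    rw [norm_div, Complex.norm_real, Real.norm_eq_abs, sub_zero, one_mul, abs_of_pos h1]
    refine div_le_div_of_nonneg_right ?_ h1.le
    calc ‖z - μ * conj z‖ ≤ ‖z‖ + ‖μ * conj z‖ := norm_sub_le _ _
      _ = (1 + ‖μ‖) * ‖z‖ := by rw [norm_mul, RCLike.norm_conj]; ring
  have hk : 0 ≤ kap 1 μ := (kap_pos one_pos hμ).le
  have hk1 : kap 1 μ ≤ 1 := by
    unfold kap
    rw [div_le_one h2]
    nlinarith [sq_nonneg (‖μ‖), mul_nonneg (sq_nonneg ‖μ‖) h1.le]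
  have h3 : kap 1 μ * ‖vv 0 1 μ z‖ ^ 2 ≤ 2 * ‖z‖ ^ 2 := by
    have e1 : ‖vv 0 1 μ z‖ ^ 2 ≤ ((1 + ‖μ‖) * ‖z‖ / (1 - ‖μ‖ ^ 2)) ^ 2 := by gcongr
    have e2 : kap 1 μ * ((1 + ‖μ‖) * ‖z‖ / (1 - ‖μ‖ ^ 2)) ^ 2 = (1 + ‖μ‖) ^ 2 * ‖z‖ ^ 2 / (1 + ‖μ‖ ^ 2) := by
      unfold kap
      field_simp
    have e3 : (1 + ‖μ‖) ^ 2 * ‖z‖ ^ 2 / (1 + ‖μ‖ ^ 2) ≤ 2 * ‖z‖ ^ 2 := by
      rw [div_le_iff₀ h2]
      have e4 : (1 + ‖μ‖) ^ 2 ≤ 2 * (1 + ‖μ‖ ^ 2) := by nlinarith [sq_nonneg (1 - ‖μ‖)]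
      nlinarith [mul_le_mul_of_nonneg_right e4 (sq_nonneg ‖z‖)]
    calc kap 1 μ * ‖vv 0 1 μ z‖ ^ 2 ≤ kap 1 μ * ((1 + ‖μ‖) * ‖z‖ / (1 - ‖μ‖ ^ 2)) ^ 2 :=
          mul_le_mul_of_nonneg_left e1 hk
      _ ≤ 2 * ‖z‖ ^ 2 := by rw [e2]; exact e3
  have h4 : 0 ≤ kap 1 μ * ‖vv 0 1 μ z‖ ^ 2 := by positivity
  have h5 : QQ 0 1 μ z = kap 1 μ * ‖vv 0 1 μ z‖ ^ 2 - kap 1 μ := by
    unfold QQ
    ring
  rw [h5, abs_le]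
  constructor <;> nlinarith

private theorem Ze_CS {S : Set ℂ} {w f g : ℂ → ℝ} (hw : ∀ z, 0 ≤ w z)
    (hA : IntegrableOn (fun z => w z * f z ^ 2) S) (hI : IntegrableOn (fun z => w z * f z * g z) S)
    (hB : IntegrableOn (fun z => w z * g z ^ 2) S) :
    ∫ z in S, w z * f z * g z ≤ Real.sqrt (∫ z in S, w z * f z ^ 2) * Real.sqrt (∫ z in S, w z * g z ^ 2) := by
  have h : ∀ t : ℝ, 0 ≤ (∫ z in S, w z * f z ^ 2) * (t * t) + (-2 * ∫ z in S, w z * f z * g z) * t + ∫ z in S, w z * g z ^ 2 := by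
    intro t
    have e : (∫ z in S, w z * f z ^ 2) * (t * t) + (-2 * ∫ z in S, w z * f z * g z) * t + ∫ z in S, w z * g z ^ 2 =
        ∫ z in S, (w z * f z ^ 2 * (t * t) + w z * f z * g z * (-2 * t) + w z * g z ^ 2) := by
      have i1 : Integrable (fun z => w z * f z ^ 2 * (t * t)) (volume.restrict S) := hA.mul_const _
      have i2 : Integrable (fun z => w z * f z * g z * (-2 * t)) (volume.restrict S) := hI.mul_const _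
      have i3 : Integrable (fun z => w z * f z ^ 2 * (t * t) + w z * f z * g z * (-2 * t)) (volume.restrict S) := i1.add i2
      rw [integral_add i3 hB, integral_add i1 i2, integral_mul_const, integral_mul_const]
      ring
    rw [e]
    refine integral_nonneg fun z => ?_
    have : w z * f z ^ 2 * (t * t) + w z * f z * g z * (-2 * t) + w z * g z ^ 2 = w z * (t * f z - g z) ^ 2 := by ring
    show 0 ≤ w z * f z ^ 2 * (t * t) + w z * f z * g z * (-2 * t) + w z * g z ^ 2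
    rw [this]
    exact mul_nonneg (hw z) (sq_nonneg _)
  have h2 := discrim_le_zero h
  have h0 : 0 ≤ ∫ z in S, w z * f z ^ 2 := integral_nonneg fun z => mul_nonneg (hw z) (sq_nonneg _)
  rw [← Real.sqrt_mul h0]
  refine (le_abs_self _).trans (Real.abs_le_sqrt ?_)
  unfold discrim at h2
  nlinarith

private theorem Ze_int4 : Integrable (fun z : ℂ => ((1 + ‖z‖) ^ 4)⁻¹) := by
  have h := integrable_one_add_norm (E := ℂ) (μ := volume) (r := 4) (by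
    rw [Complex.finrank_real_complex]
    norm_num)
  refine h.congr (Eventually.of_forall fun z => ?_)
  show (1 + ‖z‖) ^ (-(4 : ℝ)) = ((1 + ‖z‖) ^ 4)⁻¹
  rw [Real.rpow_neg (by positivity)]
  congr 1
  exact_mod_cast Real.rpow_natCast (1 + ‖z‖) 4

private theorem Ze_y {C₀ : ℝ} {μ c : ℂ} {ρ : ℝ} {ν : ℂ} {P y Z V : ℂ → ℂ} (hρ : 0 < ρ) (hS : Sb C₀ μ c ρ ν P y Z V) (z : ℂ) :
    ‖y z‖ ≤ |QQ c ρ ν z| / ρ * (C₀ * (1 + ‖z‖) ^ 4) := by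
  rw [hS.y_eq z, norm_mul, Complex.norm_real, Real.norm_eq_abs, abs_div, abs_of_pos hρ]
  exact mul_le_mul_of_nonneg_left (hS.V_le z) (by positivity)

private theorem Ze_Py {C₀ : ℝ} {μ c : ℂ} {ρ : ℝ} {ν : ℂ} {P y Z V : ℂ → ℂ} (hμ : ‖μ‖ < 1) (_hC : 0 < C₀)
    (hS : Sb C₀ μ c ρ ν P y Z V) (z : ℂ) : ‖P z - y z‖ ≤ 2 * (1 + ‖z‖) ^ 2 * (C₀ * (1 + ‖z‖) ^ 4) := by
  rw [norm_sub_rev, hS.yP_eq z, norm_mul, Complex.norm_real, Real.norm_eq_abs]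
  exact mul_le_mul (Ze_QQ hμ z) (hS.Z_le z) (norm_nonneg _) (by positivity)

/-- the first integrand -/
private theorem Ze_pt1 {C₀ Ck A : ℝ} {μ c : ℂ} {ρ : ℝ} {ν : ℂ} {P y Z V T : ℂ → ℂ} (hρ : 0 < ρ) (hμ : ‖μ‖ < 1)
    (hC : 0 < C₀) (hCk : 0 < Ck) (hA : 0 < A) (hS : Sb C₀ μ c ρ ν P y Z V) (z : ℂ) (hT : ‖T z‖ ≤ Ck) {w : ℝ}
    (hw : |QQ c ρ ν z| / ρ ≤ w) {m m₁ : ℂ} (hm : ‖m₁‖ ≤ ‖m‖ * (A / (1 + ‖z‖)) ^ 17) :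
    ‖6 * y z * (P z - y z) * dbar y z * T z * m₁‖ ≤
      12 * C₀ ^ 3 * Ck * A ^ 17 * (w * ‖m‖ * ((1 + ‖z‖) ^ 3)⁻¹) := by
  have hs : 0 < 1 + ‖z‖ := by positivity
  have hw0 : 0 ≤ w := le_trans (by positivity) hw
  have h1 : ‖y z‖ ≤ w * (C₀ * (1 + ‖z‖) ^ 4) :=
    (Ze_y hρ hS z).trans (mul_le_mul_of_nonneg_right hw (by positivity))
  have h2 := Ze_Py hμ hC hS z
  have h3 := hS.dy_le z
  rw [norm_mul, norm_mul, norm_mul, norm_mul, norm_mul]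
  have h6 : ‖(6 : ℂ)‖ = 6 := by norm_num
  rw [h6]
  calc 6 * ‖y z‖ * ‖P z - y z‖ * ‖dbar y z‖ * ‖T z‖ * ‖m₁‖
      ≤ 6 * (w * (C₀ * (1 + ‖z‖) ^ 4)) * (2 * (1 + ‖z‖) ^ 2 * (C₀ * (1 + ‖z‖) ^ 4)) * (C₀ * (1 + ‖z‖) ^ 4) * Ck *
        (‖m‖ * (A / (1 + ‖z‖)) ^ 17) := by gcongr
    _ = 12 * C₀ ^ 3 * Ck * A ^ 17 * (w * ‖m‖ * ((1 + ‖z‖) ^ 3)⁻¹) := by
        generalize 1 + ‖z‖ = s at hs
        field_simp
        ring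

/-- the third integrand -/
private theorem Ze_pt3 {C₀ Ck A : ℝ} {μ c : ℂ} {ρ : ℝ} {ν : ℂ} {P y Z V η : ℂ → ℂ} (hρ : 0 < ρ)
    (hC : 0 < C₀) (hCk : 0 < Ck) (hA : 0 < A) (hS : Sb C₀ μ c ρ ν P y Z V) (z : ℂ) (hz : ‖z‖ ≤ 2) (hη : ‖η z‖ ≤ Ck) {w : ℝ}
    (hw : |QQ c ρ ν z| / ρ ≤ w) {m m₁ : ℂ} (hm : ‖m₁‖ ≤ ‖m‖ * (A / (1 + ‖z‖)) ^ 17) :
    ‖y z ^ 2 * (3 * P z - 2 * y z) * η z * m₁‖ ≤
      9 * C₀ ^ 3 * (3 * C₀ + 2 * C₀ ^ 2) * Ck * A ^ 17 * (w * ‖m‖ * ((1 + ‖z‖) ^ 3)⁻¹) := by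
  have hs : 1 ≤ 1 + ‖z‖ := by linarith [norm_nonneg z]
  have hs3 : 1 + ‖z‖ ≤ 3 := by linarith
  have hs0 : 0 < 1 + ‖z‖ := by linarith
  have hw0 : 0 ≤ w := le_trans (by positivity) hw
  have h1 : ‖y z‖ ≤ w * (C₀ * (1 + ‖z‖) ^ 4) :=
    (Ze_y hρ hS z).trans (mul_le_mul_of_nonneg_right hw (by positivity))
  have h1' : ‖y z‖ ≤ C₀ ^ 2 * (1 + ‖z‖) ^ 6 := by
    have e1 : |QQ c ρ ν z| / ρ ≤ C₀ * (1 + ‖z‖) ^ 2 := by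
      rw [div_le_iff₀ hρ]
      have := hS.q_le z
      linarith
    calc ‖y z‖ ≤ |QQ c ρ ν z| / ρ * (C₀ * (1 + ‖z‖) ^ 4) := Ze_y hρ hS z
      _ ≤ C₀ * (1 + ‖z‖) ^ 2 * (C₀ * (1 + ‖z‖) ^ 4) := mul_le_mul_of_nonneg_right e1 (by positivity)
      _ = C₀ ^ 2 * (1 + ‖z‖) ^ 6 := by ring
  have h2 : ‖3 * P z - 2 * y z‖ ≤ (3 * C₀ + 2 * C₀ ^ 2) * (1 + ‖z‖) ^ 6 := by
    have e1 : ‖3 * P z - 2 * y z‖ ≤ 3 * ‖P z‖ + 2 * ‖y z‖ := by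
      refine (norm_sub_le _ _).trans (le_of_eq ?_)
      rw [norm_mul, norm_mul]
      norm_num
    have e2 := hS.P_le z
    have e3 : (1 + ‖z‖) ^ 4 ≤ (1 + ‖z‖) ^ 6 := pow_le_pow_right₀ hs (by norm_num)
    nlinarith [mul_le_mul_of_nonneg_left e3 hC.le]
  rw [norm_mul, norm_mul, norm_mul, norm_pow]
  have h4 : ‖y z‖ ^ 2 ≤ (w * (C₀ * (1 + ‖z‖) ^ 4)) * (C₀ ^ 2 * (1 + ‖z‖) ^ 6) := by
    rw [sq]
    exact mul_le_mul h1 h1' (norm_nonneg _) (by positivity)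
  calc ‖y z‖ ^ 2 * ‖3 * P z - 2 * y z‖ * ‖η z‖ * ‖m₁‖
      ≤ (w * (C₀ * (1 + ‖z‖) ^ 4)) * (C₀ ^ 2 * (1 + ‖z‖) ^ 6) * ((3 * C₀ + 2 * C₀ ^ 2) * (1 + ‖z‖) ^ 6) * Ck *
        (‖m‖ * (A / (1 + ‖z‖)) ^ 17) := by gcongr
    _ = C₀ ^ 3 * (3 * C₀ + 2 * C₀ ^ 2) * Ck * A ^ 17 * (w * ‖m‖ * ((1 + ‖z‖) ^ 3)⁻¹) * (1 + ‖z‖) ^ 2 := by
        generalize 1 + ‖z‖ = s at hs0
        field_simp
    _ ≤ C₀ ^ 3 * (3 * C₀ + 2 * C₀ ^ 2) * Ck * A ^ 17 * (w * ‖m‖ * ((1 + ‖z‖) ^ 3)⁻¹) * 9 := by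
        refine mul_le_mul_of_nonneg_left ?_ (by positivity)
        nlinarith
    _ = 9 * C₀ ^ 3 * (3 * C₀ + 2 * C₀ ^ 2) * Ck * A ^ 17 * (w * ‖m‖ * ((1 + ‖z‖) ^ 3)⁻¹) := by ring

theorem estT {μ₀ K C₀ δ : ℝ} (h0 : 0 ≤ μ₀) (h1 : μ₀ < 1) (hK : 0 < K) (hC₀ : 0 < C₀) (hδ : 0 < δ) :
    ∃ ρ₀ C : ℝ, 1 ≤ ρ₀ ∧ 0 < C ∧ ∀ (μ c : ℂ) (ρ : ℝ) (ν : ℂ), ‖μ‖ ≤ μ₀ → ‖ν‖ ≤ μ₀ → ρ₀ ≤ ρ → |QQ c ρ ν 0| ≤ K * ρ →
      ∀ P y Z V : ℂ → ℂ, Sb C₀ μ c ρ ν P y Z V →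
      ∀ (N : Set ℂ) (m : ℂ → ℂ), IsOpen N → Kp 0 1 μ ⊆ N → Kp c ρ ν ⊆ N → DifferentiableOn ℂ m N →
      ∀ z₁ : ℂ, Metric.closedBall z₁ (2 * δ) ⊆ Dp 0 1 μ 1 →
        ‖P z₁‖ ^ 3 * ‖m z₁‖ ≤ C * Real.sqrt (NN 0 1 μ c ρ ν m / ρ) := by
  obtain ⟨ρ₀, Cq, hρ₀, hCq, hq⟩ := outq h0 h1 hK
  obtain ⟨Ck, hCk, hker⟩ := ker hδ
  obtain ⟨A, hAd⟩ : ∃ A : ℝ, A = (2 + Cq) * Cq := ⟨_, rfl⟩
  have hA : 0 < A := by rw [hAd]; positivity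
  obtain ⟨K1, hK1⟩ : ∃ K1 : ℝ, K1 = 12 * C₀ ^ 3 * Ck * A ^ 17 := ⟨_, rfl⟩
  obtain ⟨K2, hK2⟩ : ∃ K2 : ℝ, K2 = 9 * C₀ ^ 3 * (3 * C₀ + 2 * C₀ ^ 2) * Ck * A ^ 17 := ⟨_, rfl⟩
  have hK10 : 0 < K1 := by rw [hK1]; positivity
  have hK20 : 0 < K2 := by rw [hK2]; positivity
  obtain ⟨J₀, hJ₀⟩ : ∃ J₀ : ℝ, J₀ = ∫ z : ℂ, ((1 + ‖z‖) ^ 4)⁻¹ := ⟨_, rfl⟩
  refine ⟨ρ₀, (2 * K1 + K2) * Real.sqrt ((C₀ + 2) * J₀) / π + 1, hρ₀, by positivity, ?_⟩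
  intro μ c ρ ν hμ hν hρ hQ P y Z V hS N m hN hN1 hN2 hm z₁ hz₁
  have hμ1 : ‖μ‖ < 1 := hμ.trans_lt h1
  have hν1 : ‖ν‖ < 1 := hν.trans_lt h1
  have hρ1 : 1 ≤ ρ := hρ₀.trans hρ
  have hρ0 : 0 < ρ := by linarith
  obtain ⟨q, hqC, hqz⟩ := hq μ c ρ ν hμ hν hρ hQ
  obtain ⟨T, η, hT, hη, hTη, hTC, hηC, hη0, hηh⟩ := hker z₁
  have hDo : IsOpen (Dp 0 1 μ 1) := Dp_open 0 1 μ 1
  have hDo' : IsOpen (Dp c ρ ν 1) := Dp_open c ρ ν 1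
  have hDK : Dp 0 1 μ 1 ⊆ Kp 0 1 μ := by
    intro z hz
    have h2 : ‖vv 0 1 μ z‖ < 1 := hz
    exact h2.le
  have hDK' : Dp c ρ ν 1 ⊆ Kp c ρ ν := by
    intro z hz
    have h2 : ‖vv c ρ ν z‖ < 1 := hz
    exact h2.le
  have hKQ : ∀ z ∈ Kp 0 1 μ, QQ 0 1 μ z ≤ 0 := by
    intro z hz
    have h2 : ‖vv 0 1 μ z‖ ≤ 1 := hz
    unfold QQ
    exact mul_nonpos_of_nonneg_of_nonpos (kap_pos one_pos hμ1).le (by nlinarith [norm_nonneg (vv 0 1 μ z)])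
  have hKQ' : ∀ z ∈ Kp c ρ ν, QQ c ρ ν z ≤ 0 := by
    intro z hz
    have h2 : ‖vv c ρ ν z‖ ≤ 1 := hz
    unfold QQ
    exact mul_nonpos_of_nonneg_of_nonpos (kap_pos hρ0 hν1).le (by nlinarith [norm_nonneg (vv c ρ ν z)])
  have hDQ : ∀ z, z ∉ Dp 0 1 μ 1 → 0 ≤ QQ 0 1 μ z := by
    intro z hz
    by_contra h
    exact hz ((QQ_neg_iff one_pos hμ1 z).1 (not_le.1 h))
  have hDQ' : ∀ z, z ∉ Dp c ρ ν 1 → 0 ≤ QQ c ρ ν z := by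
    intro z hz
    by_contra h
    exact hz ((QQ_neg_iff hρ0 hν1 z).1 (not_le.1 h))
  have hKq : ∀ z ∈ Kp 0 1 μ ∪ Kp c ρ ν, 1 + ‖z‖ ≤ Cq * ‖z - q‖ := by
    rintro z (hz | hz)
    · exact hqz z (Or.inr (hKQ z hz))
    · exact hqz z (Or.inl (hKQ' z hz))
  have hKne : ∀ z ∈ Kp 0 1 μ ∪ Kp c ρ ν, z ≠ q := by
    intro z hz h
    have h2 := hKq z hz
    rw [h, sub_self, norm_zero, mul_zero] at h2
    linarith [norm_nonneg q]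
  have hz₁D : z₁ ∈ Dp 0 1 μ 1 := hz₁ (Metric.mem_closedBall_self (by positivity))
  have hD2 : ∀ z ∈ Dp 0 1 μ 1, ‖z‖ ≤ 2 := by
    intro z hz
    have h2 := Dp_ball one_pos hμ1 hz
    rw [Metric.mem_ball, dist_zero_right] at h2
    linarith
  have hz₁2 := hD2 z₁ hz₁D
  have hz₁q : z₁ ≠ q := hKne z₁ (Or.inl (hDK hz₁D))
  -- the modified field
  have hN'o : IsOpen (N ∩ {q}ᶜ) := hN.inter isOpen_compl_singleton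
  have hN1' : {z | ‖vv 0 1 μ z‖ ≤ 1} ⊆ N ∩ {q}ᶜ := fun z hz => ⟨hN1 hz, hKne z (Or.inl hz)⟩
  have hN2' : {z | ‖vv c ρ ν z‖ ≤ 1} ⊆ N ∩ {q}ᶜ := fun z hz => ⟨hN2 hz, hKne z (Or.inr hz)⟩
  obtain ⟨m₁, hm₁⟩ : ∃ m₁ : ℂ → ℂ, m₁ = fun z => m z * ((z₁ - q) / (z - q)) ^ 17 := ⟨_, rfl⟩
  have hm₁d : DifferentiableOn ℂ m₁ (N ∩ {q}ᶜ) := by
    rw [hm₁]
    refine (hm.mono Set.inter_subset_left).mul (DifferentiableOn.pow ?_ 17)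
    refine (differentiableOn_const _).div (differentiableOn_id.sub (differentiableOn_const _)) fun z hz => ?_
    exact sub_ne_zero.2 hz.2
  have hm₁z : m₁ z₁ = m z₁ := by
    rw [hm₁]
    show m z₁ * ((z₁ - q) / (z₁ - q)) ^ 17 = m z₁
    rw [div_self (sub_ne_zero.2 hz₁q), one_pow, mul_one]
  have hm₁n : ∀ z ∈ Kp 0 1 μ ∪ Kp c ρ ν, ‖m₁ z‖ ≤ ‖m z‖ * (A / (1 + ‖z‖)) ^ 17 := by
    intro z hz
    rw [hm₁]
    show ‖m z * ((z₁ - q) / (z - q)) ^ 17‖ ≤ _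
    rw [norm_mul, norm_pow, norm_div]
    refine mul_le_mul_of_nonneg_left (pow_le_pow_left₀ (by positivity) ?_ 17) (norm_nonneg _)
    have e1 : 0 < ‖z - q‖ := norm_pos_iff.2 (sub_ne_zero.2 (hKne z hz))
    have e2 : 0 < 1 + ‖z‖ := by positivity
    have e3 : ‖z₁ - q‖ ≤ 2 + Cq := (norm_sub_le _ _).trans (by linarith)
    rw [div_le_div_iff₀ e1 e2, hAd]
    calc ‖z₁ - q‖ * (1 + ‖z‖) ≤ (2 + Cq) * (Cq * ‖z - q‖) :=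
          mul_le_mul e3 (hKq z hz) e2.le (by positivity)
      _ = (2 + Cq) * Cq * ‖z - q‖ := by ring
  -- the identity
  have hηs : ∀ z, z ∉ Dp 0 1 μ 1 → η z = 0 := by
    intro z hz
    apply hη0
    by_contra h
    apply hz
    apply hz₁
    rw [Metric.mem_closedBall, dist_eq_norm]
    linarith [not_le.1 h]
  have hid := idT one_pos hρ0 hμ1 hν1 hN'o hN1' hN2' hm₁d hS.P_diff hS.y_smooth hS.Z_smooth
    (hS.V_smooth.div_const (ρ : ℂ)) hT hη hTη (fun z => by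
      rw [hS.y_eq z]
      push_cast
      ring) hS.yP_eq hηs
  have hball : Metric.ball z₁ δ ⊆ Dp 0 1 μ 1 := by
    intro z hz
    apply hz₁
    rw [Metric.mem_ball] at hz
    rw [Metric.mem_closedBall]
    linarith
  have hL : ∫ z in Dp 0 1 μ 1, P z ^ 3 * η z * m₁ z = π * (P z₁ ^ 3 * m z₁) := by
    have e1 : ∫ z in Dp 0 1 μ 1, P z ^ 3 * η z * m₁ z = ∫ z in Metric.ball z₁ δ, P z ^ 3 * η z * m₁ z := by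
      refine setIntegral_eq_of_subset_of_forall_sdiff_eq_zero hDo.measurableSet hball ?_
      intro z hz
      have : η z = 0 := by
        apply hη0
        have := hz.2
        rw [Metric.mem_ball, dist_eq_norm] at this
        exact not_lt.1 this
      rw [this]
      ring
    have e2 : ∫ z in Metric.ball z₁ δ, P z ^ 3 * η z * m₁ z = ∫ z in Metric.ball z₁ δ, η z * (P z ^ 3 * m₁ z) := by
      congr 1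
      funext z
      ring
    rw [e1, e2, hηh (fun z => P z ^ 3 * m₁ z), hm₁z]
    refine (hS.P_diff.differentiableOn.pow 3).mul (hm₁d.mono ?_)
    intro z hz
    exact hN1' (hDK (hz₁ (Metric.ball_subset_closedBall hz)))
  rw [hL] at hid
  -- the weight
  obtain ⟨w, hw⟩ : ∃ w : ℂ → ℝ, w = fun z => |QQ c ρ ν z - QQ 0 1 μ z| / ρ := ⟨_, rfl⟩
  have hwz : ∀ z, w z = |QQ c ρ ν z - QQ 0 1 μ z| / ρ := fun z => by rw [hw]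
  have hw0 : ∀ z, 0 ≤ w z := fun z => by rw [hwz]; positivity
  have hwc : Continuous w := by
    rw [hw]
    exact (((QQ_contDiff c ρ ν).continuous.sub (QQ_contDiff 0 1 μ).continuous).abs).div_const _
  have hwle : ∀ z, w z ≤ (C₀ + 2) * (1 + ‖z‖) ^ 2 := by
    intro z
    rw [hwz, div_le_iff₀ hρ0]
    have e1 := abs_sub (QQ c ρ ν z) (QQ 0 1 μ z)
    have e2 := hS.q_le z
    have e3 := Ze_QQ hμ1 z
    have e4 : 2 * (1 + ‖z‖) ^ 2 ≤ 2 * (1 + ‖z‖) ^ 2 * ρ := le_mul_of_one_le_right (by positivity) hρ1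
    nlinarith
  obtain ⟨S, hSd⟩ : ∃ S : Set ℂ, S = (Dp 0 1 μ 1 \ Dp c ρ ν 1) ∪ (Dp c ρ ν 1 \ Dp 0 1 μ 1) := ⟨_, rfl⟩
  have hSK : S ⊆ Kp 0 1 μ ∪ Kp c ρ ν := by
    rw [hSd]
    rintro z (hz | hz)
    · exact Or.inl (hDK hz.1)
    · exact Or.inr (hDK' hz.1)
  have hSm : MeasurableSet S := by
    rw [hSd]
    exact (hDo.measurableSet.diff hDo'.measurableSet).union (hDo'.measurableSet.diff hDo.measurableSet)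
  have hSw : ∀ z ∈ S, |QQ c ρ ν z| / ρ ≤ w z := by
    intro z hz
    rw [hwz]
    refine div_le_div_of_nonneg_right ?_ hρ0.le
    rw [hSd] at hz
    rcases hz with hz | hz
    · have e1 := hKQ z (hDK hz.1)
      have e2 := hDQ' z hz.2
      rw [abs_of_nonneg e2, abs_of_nonneg (by linarith)]
      linarith
    · have e1 := hKQ' z (hDK' hz.1)
      have e2 := hDQ z hz.2
      rw [abs_of_nonpos e1, abs_of_nonpos (by linarith)]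
      linarith
  -- integrability
  obtain ⟨g, hg⟩ : ∃ g : ℂ → ℝ, g = fun z => ((1 + ‖z‖) ^ 3)⁻¹ := ⟨_, rfl⟩
  have hgz : ∀ z, g z = ((1 + ‖z‖) ^ 3)⁻¹ := fun z => by rw [hg]
  have hg0 : ∀ z, 0 ≤ g z := fun z => by rw [hgz]; positivity
  have hgc : Continuous g := by
    rw [hg]
    refine ((continuous_const.add continuous_norm).pow 3).inv₀ fun z => ?_
    have h2 : 0 < 1 + ‖z‖ := by positivity
    exact (pow_pos h2 3).ne'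
  have hKc : IsCompact (Kp 0 1 μ ∪ Kp c ρ ν) := (cDp_compact one_pos hμ1 1).union (cDp_compact hρ0 hν1 1)
  have hmc : ContinuousOn (fun z => ‖m z‖) (Kp 0 1 μ ∪ Kp c ρ ν) :=
    (hm.continuousOn.mono (Set.union_subset hN1 hN2)).norm
  have iA : IntegrableOn (fun z => w z * ‖m z‖ ^ 2) S :=
    ((hwc.continuousOn.mul (hmc.pow 2)).integrableOn_compact hKc).mono_set hSK
  have iI : IntegrableOn (fun z => w z * ‖m z‖ * g z) S :=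
    (((hwc.continuousOn.mul hmc).mul hgc.continuousOn).integrableOn_compact hKc).mono_set hSK
  have iB : IntegrableOn (fun z => w z * g z ^ 2) S :=
    ((hwc.mul (hgc.pow 2)).continuousOn.integrableOn_compact hKc).mono_set hSK
  have hCS := Ze_CS hw0 iA iI iB
  have hNN : ∫ z in S, w z * ‖m z‖ ^ 2 = NN 0 1 μ c ρ ν m / ρ := by
    unfold NN
    rw [← hSd, ← integral_div]
    congr 1
    funext z
    rw [hwz]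
    ring
  have hBle : ∫ z in S, w z * g z ^ 2 ≤ (C₀ + 2) * J₀ := by
    rw [hJ₀, ← integral_const_mul]
    have e1 : ∀ z, w z * g z ^ 2 ≤ (C₀ + 2) * ((1 + ‖z‖) ^ 4)⁻¹ := by
      intro z
      have e2 : 0 < 1 + ‖z‖ := by positivity
      rw [hgz]
      calc w z * (((1 + ‖z‖) ^ 3)⁻¹) ^ 2 ≤ (C₀ + 2) * (1 + ‖z‖) ^ 2 * (((1 + ‖z‖) ^ 3)⁻¹) ^ 2 :=
            mul_le_mul_of_nonneg_right (hwle z) (by positivity)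
        _ = (C₀ + 2) * ((1 + ‖z‖) ^ 4)⁻¹ := by
            generalize 1 + ‖z‖ = s at e2
            field_simp
    calc ∫ z in S, w z * g z ^ 2 ≤ ∫ z in S, (C₀ + 2) * ((1 + ‖z‖) ^ 4)⁻¹ :=
          setIntegral_mono iB (Ze_int4.const_mul _).integrableOn e1
      _ ≤ ∫ z, (C₀ + 2) * ((1 + ‖z‖) ^ 4)⁻¹ :=
          setIntegral_le_integral (Ze_int4.const_mul _) (Eventually.of_forall fun z => by
            show 0 ≤ (C₀ + 2) * ((1 + ‖z‖) ^ 4)⁻¹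
            positivity)
  have hI : ∫ z in S, w z * ‖m z‖ * g z ≤ Real.sqrt (NN 0 1 μ c ρ ν m / ρ) * Real.sqrt ((C₀ + 2) * J₀) := by
    rw [hNN] at hCS
    exact hCS.trans (mul_le_mul_of_nonneg_left (Real.sqrt_le_sqrt hBle) (Real.sqrt_nonneg _))
  -- the three integrals
  have hpart : ∀ (U : Set ℂ) (f : ℂ → ℂ) (κ : ℝ), 0 ≤ κ → U ⊆ S → MeasurableSet U →
      (∀ z ∈ U, ‖f z‖ ≤ κ * (w z * ‖m z‖ * g z)) → ‖∫ z in U, f z‖ ≤ κ * ∫ z in S, w z * ‖m z‖ * g z := by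
    intro U f κ hκ hU hUm hf
    have e1 : ‖∫ z in U, f z‖ ≤ ∫ z in U, κ * (w z * ‖m z‖ * g z) := by
      refine norm_integral_le_of_norm_le ((iI.mono_set hU).const_mul κ) ?_
      rw [ae_restrict_iff' hUm]
      exact Eventually.of_forall hf
    refine e1.trans ?_
    rw [← integral_const_mul]
    refine setIntegral_mono_set (iI.const_mul κ) (Eventually.of_forall fun z => ?_) hU.eventuallyLE
    exact mul_nonneg hκ (mul_nonneg (mul_nonneg (hw0 z) (norm_nonneg _)) (hg0 z))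
  have hU1 : Dp 0 1 μ 1 \ Dp c ρ ν 1 ⊆ S := by rw [hSd]; exact Set.subset_union_left
  have hU2 : Dp c ρ ν 1 \ Dp 0 1 μ 1 ⊆ S := by rw [hSd]; exact Set.subset_union_right
  have hI1 := hpart (Dp 0 1 μ 1 \ Dp c ρ ν 1) (fun z => 6 * y z * (P z - y z) * dbar y z * T z * m₁ z) K1 hK10.le hU1
    (hDo.measurableSet.diff hDo'.measurableSet) (fun z hz => by
      rw [hK1, hgz]
      exact Ze_pt1 hρ0 hμ1 hC₀ hCk hA hS z (hTC z) (hSw z (hU1 hz)) (hm₁n z (hSK (hU1 hz))))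
  have hI2 := hpart (Dp c ρ ν 1 \ Dp 0 1 μ 1) (fun z => 6 * y z * (P z - y z) * dbar y z * T z * m₁ z) K1 hK10.le hU2
    (hDo'.measurableSet.diff hDo.measurableSet) (fun z hz => by
      rw [hK1, hgz]
      exact Ze_pt1 hρ0 hμ1 hC₀ hCk hA hS z (hTC z) (hSw z (hU2 hz)) (hm₁n z (hSK (hU2 hz))))
  have hI3 := hpart (Dp 0 1 μ 1 \ Dp c ρ ν 1) (fun z => y z ^ 2 * (3 * P z - 2 * y z) * η z * m₁ z) K2 hK20.le hU1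
    (hDo.measurableSet.diff hDo'.measurableSet) (fun z hz => by
      rw [hK2, hgz]
      exact Ze_pt3 hρ0 hC₀ hCk hA hS z (hD2 z hz.1) (hηC z) (hSw z (hU1 hz)) (hm₁n z (hSK (hU1 hz))))
  have hfin : π * (‖P z₁‖ ^ 3 * ‖m z₁‖) ≤ (2 * K1 + K2) * ∫ z in S, w z * ‖m z‖ * g z := by
    have e1 : ‖(π : ℂ) * (P z₁ ^ 3 * m z₁)‖ = π * (‖P z₁‖ ^ 3 * ‖m z₁‖) := by
      rw [norm_mul, norm_mul, norm_pow, Complex.norm_real, Real.norm_eq_abs, abs_of_pos Real.pi_pos]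
    rw [← e1, hid]
    refine (norm_add_le _ _).trans ?_
    refine (add_le_add_left (norm_sub_le _ _) _).trans ?_
    linarith
  have hC1 : ‖P z₁‖ ^ 3 * ‖m z₁‖ ≤ (2 * K1 + K2) * Real.sqrt ((C₀ + 2) * J₀) / π * Real.sqrt (NN 0 1 μ c ρ ν m / ρ) := by
    rw [div_mul_eq_mul_div, le_div_iff₀ Real.pi_pos]
    calc ‖P z₁‖ ^ 3 * ‖m z₁‖ * π = π * (‖P z₁‖ ^ 3 * ‖m z₁‖) := by ring
      _ ≤ (2 * K1 + K2) * ∫ z in S, w z * ‖m z‖ * g z := hfin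
      _ ≤ (2 * K1 + K2) * (Real.sqrt (NN 0 1 μ c ρ ν m / ρ) * Real.sqrt ((C₀ + 2) * J₀)) :=
          mul_le_mul_of_nonneg_left hI (by positivity)
      _ = (2 * K1 + K2) * Real.sqrt ((C₀ + 2) * J₀) * Real.sqrt (NN 0 1 μ c ρ ν m / ρ) := by ring
  refine hC1.trans ?_
  refine mul_le_mul_of_nonneg_right ?_ (Real.sqrt_nonneg _)
  linarith

end EY1
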