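import Pool.Agent.H1.EY.Zb
import Pool.Agent.H1.EY.Ze
import Pool.Agent.H1.EW.Gb

/-!
ROW EY/Zf. `L2b0`: `setupb` with `σ₁ = σ`, `σ₂ = (1+σ)/2`: `P ...`, `τ`; on the curve `‖vv 0 1 μ z₁‖ = τ` the ball `closedBall z₁ (2δ)` is in `Dp 0 1 μ 1` for `δ` small (`δ = (1-σ)/(8 L)`: `vv` is Lipschitz with the constant `L` of `vv_lip`), `estT` gives `‖m z₁‖ ≤ C √(NN/ρ)` there (`‖P z₁‖ ≥ 1/C`).
Maximum principle for `m` on `Dp 0 1 μ τ` (closure `{‖vv‖ ≤ τ}`, boundary in `{‖vv‖ = τ}`): same bound for `z ∈ Dp 0 1 μ σ`. (As in the proof of `F3` in `EW/Gm.lean`.) Square it.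
-/

set_option autoImplicit false

namespace EY1

open Complex Set Filter Topology MeasureTheory EW1 EX1
open scoped ComplexConjugate ContDiff Real

theorem L2b0 {μ₀ K σ : ℝ} (h0 : 0 ≤ μ₀) (h1 : μ₀ < 1) (hK : 0 < K) (hσ : 0 < σ) (hσ1 : σ < 1) :
    ∃ ρ₀ C : ℝ, 1 ≤ ρ₀ ∧ 0 < C ∧ ∀ (μ c : ℂ) (ρ : ℝ) (ν : ℂ), ‖μ‖ ≤ μ₀ → ‖ν‖ ≤ μ₀ → ρ₀ ≤ ρ → |QQ c ρ ν 0| ≤ K * ρ →
      ∀ (N : Set ℂ) (m : ℂ → ℂ), IsOpen N → Kp 0 1 μ ⊆ N → Kp c ρ ν ⊆ N → DifferentiableOn ℂ m N →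
      ∀ z ∈ Dp 0 1 μ σ, ρ * ‖m z‖ ^ 2 ≤ C * NN 0 1 μ c ρ ν m := by
  obtain ⟨ρa, Cs, hρa, hCs, hset⟩ := setupb (σ₁ := σ) (σ₂ := (1 + σ) / 2) h0 h1 hK hσ (by linarith)
  obtain ⟨L, hL, hvL⟩ := vv_lip (r₀ := 1) (R := 1) one_pos h0 h1
  obtain ⟨δ, hδd⟩ : ∃ δ : ℝ, δ = (1 - σ) / (8 * L) := ⟨_, rfl⟩
  have hδ : 0 < δ := by rw [hδd]; exact div_pos (by linarith) (by positivity)
  have hδL : L * (2 * δ) = (1 - σ) / 4 := by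
    rw [hδd]
    field_simp
    ring
  obtain ⟨ρb, CE, hρb, hCE, hE⟩ := estT (C₀ := Cs) (δ := δ) h0 h1 hK hCs hδ
  refine ⟨max ρa ρb, (Cs ^ 3 * CE) ^ 2, le_max_of_le_left hρa, by positivity, ?_⟩
  intro μ c ρ ν hμ hν hρ hQ N m hN hN1 hN2 hm z hz
  have hρ0 : 0 < ρ := lt_of_lt_of_le (by linarith) ((le_max_left ρa ρb).trans hρ)
  have hμ1 : ‖μ‖ < 1 := hμ.trans_lt h1
  obtain ⟨P, y, Z, V, hS, τ, t1, t2, hc⟩ := hset μ c ρ ν hμ hν ((le_max_left ρa ρb).trans hρ) hQ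
  have hE1 := hE μ c ρ ν hμ hν ((le_max_right ρa ρb).trans hρ) hQ P y Z V hS N m hN hN1 hN2 hm
  have hPS : PS 1 1 μ₀ 0 1 μ := ⟨by simp, le_refl _, le_refl _, hμ⟩
  have hcl : closure (Dp 0 1 μ τ) ⊆ {w | ‖vv 0 1 μ w‖ ≤ τ} :=
    closure_lt_subset_le (vv_cont 0 1 μ).norm continuous_const
  have hsub : closure (Dp 0 1 μ τ) ⊆ N := fun w hw => hN1 (show ‖vv 0 1 μ w‖ ≤ 1 from
    le_trans (show ‖vv 0 1 μ w‖ ≤ τ from hcl hw) (by linarith))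
  have hbd : Bornology.IsBounded (Dp 0 1 μ τ) :=
    (cDp_compact one_pos hμ1 τ).isBounded.subset fun w hw => le_of_lt (show ‖vv 0 1 μ w‖ < τ from hw)
  obtain ⟨X, hX⟩ : ∃ X : ℝ, X = NN 0 1 μ c ρ ν m := ⟨_, rfl⟩
  have hX0 : 0 ≤ X := by
    rw [hX]
    unfold NN
    exact integral_nonneg fun z => by positivity
  rw [← hX] at hE1 ⊢
  have hfr : ∀ w ∈ frontier (Dp 0 1 μ τ), ‖m w‖ ≤ Cs ^ 3 * CE * Real.sqrt (X / ρ) := by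
    intro w hw
    have h2 : ‖vv 0 1 μ w‖ = τ := frontier_lt_subset_eq (vv_cont 0 1 μ).norm continuous_const hw
    have h3 := hc w h2
    have h4 : Metric.closedBall w (2 * δ) ⊆ Dp 0 1 μ 1 := by
      intro x hx
      have hx' : ‖x - w‖ ≤ 2 * δ := by
        rw [← dist_eq_norm]
        exact hx
      have h5 := hvL 0 1 μ hPS x w
      have h6 : L * ‖x - w‖ ≤ (1 - σ) / 4 := by
        rw [← hδL]
        exact mul_le_mul_of_nonneg_left hx' hL.le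
      have h7 : ‖vv 0 1 μ x‖ ≤ ‖vv 0 1 μ x - vv 0 1 μ w‖ + ‖vv 0 1 μ w‖ := by
        have := norm_add_le (vv 0 1 μ x - vv 0 1 μ w) (vv 0 1 μ w)
        rwa [sub_add_cancel] at this
      show ‖vv 0 1 μ x‖ < 1
      linarith
    have h5 := hE1 w h4
    have h6 : 1 ≤ (Cs * ‖P w‖) ^ 3 := one_le_pow₀ h3
    calc ‖m w‖ = 1 * ‖m w‖ := by ring
      _ ≤ (Cs * ‖P w‖) ^ 3 * ‖m w‖ := by gcongr
      _ = Cs ^ 3 * (‖P w‖ ^ 3 * ‖m w‖) := by ring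
      _ ≤ Cs ^ 3 * (CE * Real.sqrt (X / ρ)) := by gcongr
      _ = Cs ^ 3 * CE * Real.sqrt (X / ρ) := by ring
  have hd : DiffContOnCl ℂ m (Dp 0 1 μ τ) :=
    ⟨hm.mono (subset_closure.trans hsub), hm.continuousOn.mono hsub⟩
  have h7 := Complex.norm_le_of_forall_mem_frontier_norm_le hbd hd hfr (subset_closure (Dp_mono 0 1 μ t1 hz))
  have h8 : ‖m z‖ ^ 2 ≤ (Cs ^ 3 * CE * Real.sqrt (X / ρ)) ^ 2 := pow_le_pow_left₀ (norm_nonneg _) h7 2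
  rw [mul_pow, Real.sq_sqrt (by positivity)] at h8
  calc ρ * ‖m z‖ ^ 2 ≤ ρ * ((Cs ^ 3 * CE) ^ 2 * (X / ρ)) := by gcongr
    _ = (Cs ^ 3 * CE) ^ 2 * X := by
        field_simp

end EY1
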